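import Pool.Agent.JIT.Fail

namespace Pool.Agent.JIT

open Finset

variable {ι : Type*} [Fintype ι] [DecidableEq ι]

/-- Chain through consecutive indices. -/
theorem shift_opt (r : ι → ℝ) (w : ℕ → ι) (D : ℕ) (hopt : Opt r D w) (p K : ℕ) (h : p + K < D) :
    ∑ j ∈ range K, pm (dl r w (w p) (p+1+j)) ≤ ∑ j ∈ range K, pp (dl r w (w (p+1+j)) (p+1+j)) := by
  have hch : ∀ m, m ≤ K → Ch r D w (p + (K - m)) (p + K)
      (∑ j ∈ range m, pp (dl r w (w (p + K - j)) (p + K - j))) := by
    intro m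
    induction m with
    | zero => intro _; simp only [Nat.sub_zero, range_zero, sum_empty]; exact Ch_base r D w _ h
    | succ m ih =>
      intro hm
      have ih' := ih (by omega)
      have h1 := Ch_step r D w (p + (K - (m+1))) (p + (K - m)) (p + K) _ (by omega) (by omega) h ih'
      have h2 : Ioc (p + (K - (m+1))) (p + (K - m)) = {p + (K - m)} := by
        ext x; rw [mem_Ioc, mem_singleton]; omega
      rw [h2, sum_singleton] at h1
      have h3 : p + K - m = p + (K - m) := by omega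
      rw [sum_range_succ, h3, add_comm (∑ j ∈ range m, pp (dl r w (w (p + K - j)) (p + K - j)))]
      exact h1
  have h1 := Ch_opt r D w hopt _ _ _ (hch K le_rfl)
  rw [Nat.sub_self, add_zero, sum_shift (fun k => pm (dl r w (w p) k)) p K] at h1
  refine le_trans h1 (le_of_eq ?_)
  rw [← sum_range_reflect]
  refine sum_congr rfl fun j hj => ?_
  rw [mem_range] at hj
  rw [show p + K - (K - 1 - j) = p + 1 + j by omega]

theorem sum_nat_lin (p K : ℕ) : ∑ j ∈ range K, ((p + 1 + j : ℕ) : ℝ) = K * p + K * (K + 1) / 2 := by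
  induction K with
  | zero => simp
  | succ K ih => rw [sum_range_succ, ih]; push_cast; ring

theorem fail_two (r : ι → ℝ) (w : ℕ → ι) (D : ℕ) (hopt : Opt r D w) (hD : ∀ i, dl r w i D = 0)
    (B : Finset ι) (α β : ℝ) (hα : ∀ i ∈ B, r i = α) (hβ : ∀ i, i ∉ B → r i = β)
    (hβ0 : 0 < β) (K s : ℕ) (hK : B.card = K) (hs : Bᶜ.card = s) (hK2 : 2 ≤ K)
    (hsum : K * α + s * β = 1) (hKs : 2 * K + s + 1 ≤ s * K)
    (hsmall : β * (s * (s + K) * (3 * K - 1)) < 1) (hDβ : 1 ≤ D * β) :
    ¬ (∀ k, k ≤ D → ∀ i, |dl r w i k| ≤ 1) := by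
  intro hΩ
  classical
  have hK0 : 0 < K := by omega
  have hs3 : 3 ≤ s := by
    by_contra hc
    have : s = 0 ∨ s = 1 ∨ s = 2 := by omega
    rcases this with h | h | h <;> subst h <;> omega
  have hKR : (2:ℝ) ≤ K := by exact_mod_cast hK2
  have hsR : (3:ℝ) ≤ s := by exact_mod_cast hs3
  -- smallness consequences
  have hsm1 : 3 * (K * (s + K) * β) ≤ 1 := by
    have : (3:ℝ) * (K * (s + K)) ≤ s * (s+K) * (3*K-1) := by
      have h1 : (3:ℝ) * K ≤ s * (3*K-1) := by nlinarith
      have h2 : (0:ℝ) ≤ s + K := by linarith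
      nlinarith [mul_le_mul_of_nonneg_right h1 h2]
    nlinarith [mul_le_mul_of_nonneg_left this hβ0.le]
  -- there is a small letter
  obtain ⟨σ0, hσ0⟩ : ∃ σ, σ ∉ B := by
    have : 0 < Bᶜ.card := by omega
    obtain ⟨x, hx⟩ := card_pos.1 this
    exact ⟨x, mem_compl.1 hx⟩
  -- the first small letter
  have hfirst : ∃ p, p < D ∧ w p ∉ B ∧ ns B w p = 0 ∧ ((p:ℝ) - (K - 1)) * (s * β) ≤ 1 := by
    have hex : ∃ x, x < D ∧ w x ∉ B := by
      have h1 : 0 < cn w σ0 D := by
        have := hD σ0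
        rw [dl_cn, hβ σ0 hσ0] at this
        have : (0:ℝ) < cn w σ0 D := by linarith
        exact_mod_cast this
      obtain ⟨q, h1, h2, _⟩ := exists_last' w σ0 D h1
      exact ⟨q, h1, by rw [h2]; exact hσ0⟩
    have h1 := Nat.find_spec hex
    have h2 := fun x (hx : x < Nat.find hex) => Nat.find_min hex hx
    set p := Nat.find hex with hp
    have hall : ∀ x, x < p → w x ∈ B := by
      intro x hx
      by_contra hc
      exact h2 x hx ⟨by omega, hc⟩
    refine ⟨p, h1.1, h1.2, ?_, ?_⟩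
    · rw [ns_const B w (Nat.zero_le p) (fun x _ h => hall x h), ns_zero]
    · by_cases hp0 : p = 0
      · rw [hp0]
        have : (0:ℝ) ≤ s * β := by positivity
        push_cast
        nlinarith
      · set u := (p-1) / K with hu
        have hu1 : K * u + 1 ≤ p := by
          have := Nat.mul_div_le (p-1) K
          rw [← hu] at this
          omega
        have hu2 : p ≤ K * u + K := by
          have h5 := Nat.div_add_mod (p-1) K
          have h6 := Nat.mod_lt (p-1) hK0
          rw [← hu] at h5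
          omega
        have hns : ns B w (K*u+1) = 0 := by
          rw [ns_const B w (Nat.zero_le _) (fun x _ h => hall x (by omega)), ns_zero]
        have hsb := sum_B B w (K*u+1)
        rw [hns, add_zero] at hsb
        obtain ⟨i, hi, hiu⟩ : ∃ i ∈ B, u + 1 ≤ cn w i (K*u+1) := by
          by_contra hc
          push Not at hc
          have : ∑ i ∈ B, cn w i (K*u+1) ≤ ∑ i ∈ B, u := sum_le_sum fun i hi => by
            have := hc i hi; omega
          rw [sum_const, hK, smul_eq_mul, hsb] at this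
          omega
        have h3 := hΩ (K*u+1) (by omega) i
        rw [dl_cn, hα i hi, abs_le] at h3
        have h4 : ((u:ℝ) + 1) ≤ cn w i (K*u+1) := by exact_mod_cast hiu
        have h5 := h3.2
        push_cast at h5
        have h6 : (K:ℝ) * α = 1 - s * β := by linarith
        have h7 : (u:ℝ) ≤ (K * u + 1) * α := by linarith
        have h8 : (K:ℝ) * u ≤ (K*u+1) * (1 - s*β) := by
          have := mul_le_mul_of_nonneg_left h7 (by positivity : (0:ℝ) ≤ K)
          calc (K:ℝ) * u ≤ K * ((K*u+1)*α) := this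
            _ = (K*u+1) * (K*α) := by ring
            _ = _ := by rw [h6]
        have h9 : (p:ℝ) - (K-1) ≤ K * u + 1 := by
          have : (p:ℝ) ≤ K*u+K := by exact_mod_cast hu2
          linarith
        have h10 : (0:ℝ) ≤ s * β := by positivity
        have h11 := mul_le_mul_of_nonneg_right h9 h10
        linarith
  -- a small letter followed by `K` big ones
  set R : ℕ → Prop := fun m => ∃ p, p < D ∧ w p ∉ B ∧ ns B w p = m ∧
    ((p:ℝ) - (K - 1) - K * m) * (s * β) ≤ 1 with hR
  have hR0 : R 0 := by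
    obtain ⟨p, h1, h2, h3, h4⟩ := hfirst
    exact ⟨p, h1, h2, h3, by push_cast; rw [mul_zero, sub_zero]; exact h4⟩
  -- early times
  have hearly : ∀ p m : ℕ, m ≤ s → ((p:ℝ) - (K - 1) - K * m) * (s * β) ≤ 1 →
      ((p:ℝ) + K + 1) * β < 1 := by
    intro p m hm hp
    have hmR : (m:ℝ) ≤ s := by exact_mod_cast hm
    have h1 : ((p:ℝ) - (K-1) - K*m) * β ≤ 1/3 := by
      have h2 : (((p:ℝ) - (K-1) - K*m) * β) * s ≤ 1 := by linarith
      rcases le_or_gt (((p:ℝ) - (K-1) - K*m) * β) 0 with h3 | h3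
      · linarith
      · nlinarith
    have h4 : (K * m + 2 * K) * β ≤ K * (s + K) * β := by
      apply mul_le_mul_of_nonneg_right _ hβ0.le
      nlinarith
    have h5 : 3 * ((K * m + 2 * K) * β) ≤ 1 := by linarith
    linarith
  have hRs : ¬ R s := by
    rintro ⟨p, h1, h2, h3, h4⟩
    have h5 := hearly p s le_rfl h4
    have h6 : ns B w (p+1) = s + 1 := by rw [ns_succ, if_pos h2, h3]
    have h7 := sum_Bc B w (p+1)
    obtain ⟨i, hi, hi2⟩ : ∃ i ∈ Bᶜ, 2 ≤ cn w i (p+1) := by
      by_contra hc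
      push Not at hc
      have : ∑ i ∈ Bᶜ, cn w i (p+1) ≤ ∑ i ∈ Bᶜ, 1 := sum_le_sum fun i hi => by
        have := hc i hi; omega
      rw [sum_const, hs, smul_eq_mul, mul_one, h7, h6] at this
      omega
    have h8 := hΩ (p+1) (by omega) i
    rw [dl_cn, hβ i (mem_compl.1 hi), abs_le] at h8
    have h9 : (2:ℝ) ≤ cn w i (p+1) := by exact_mod_cast hi2
    have h10 := h8.2
    push_cast at h10
    have : (0:ℝ) ≤ K * β := by positivity
    nlinarith
  obtain ⟨m, hm1, hm2, hm3⟩ : ∃ m, m < s ∧ R m ∧ ¬ R (m+1) := by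
    by_contra hc
    push Not at hc
    have : ∀ m, m ≤ s → R m := by
      intro m
      induction m with
      | zero => intro _; exact hR0
      | succ m ih => intro h; exact hc m (by omega) (ih (by omega))
    exact hRs (this s le_rfl)
  obtain ⟨p, hpD, hpB, hpm, hpb⟩ := hm2
  have hpe := hearly p m hm1.le hpb
  have hpK : p + K + 1 < D := by
    have h1 : ((p:ℝ) + K + 1) * β < D * β := by linarith
    have h2 := lt_of_mul_lt_mul_right h1 hβ0.le
    exact_mod_cast h2
  -- the next `K` letters are big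
  have hbig : ∀ j, j < K → w (p+1+j) ∈ B := by
    by_contra hc
    push Not at hc
    have h1 := Nat.find_spec hc
    have h2 := fun x (hx : x < Nat.find hc) => Nat.find_min hc hx
    set j := Nat.find hc with hj
    apply hm3
    refine ⟨p+1+j, by omega, h1.2, ?_, ?_⟩
    · have e1 : ns B w (p+1) = m + 1 := by rw [ns_succ, if_pos hpB, hpm]
      rw [ns_const B w (show p + 1 ≤ p + 1 + j by omega) (fun x h3 h4 => ?_), e1]
      have := h2 (x - (p+1)) (by omega)
      push Not at this
      have := this (by omega)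
      rwa [show p + 1 + (x - (p+1)) = x by omega] at this
    · have h3 : (0:ℝ) ≤ s * β := by positivity
      have h4 : ((p + 1 + j : ℕ) : ℝ) - (K - 1) - K * ((m + 1 : ℕ) : ℝ) ≤ (p:ℝ) - (K-1) - K * m := by
        have : (j:ℝ) + 1 ≤ K := by exact_mod_cast h1.1
        push_cast; linarith
      have := mul_le_mul_of_nonneg_right h4 h3
      linarith
  -- counts
  have hnsj : ∀ j, j ≤ K → ns B w (p+1+j) = m + 1 := by
    intro j hj
    have e1 : ns B w (p+1) = m + 1 := by rw [ns_succ, if_pos hpB, hpm]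
    rw [ns_const B w (show p + 1 ≤ p + 1 + j by omega) (fun x h3 h4 => ?_), e1]
    have := hbig (x - (p+1)) (by omega)
    rwa [show p + 1 + (x - (p+1)) = x by omega] at this
  have hmp : m ≤ p := by
    have := sum_B B w p; omega
  have hcnt : ∀ j, j < K → cn w (w (p+1+j)) (p+1+j) ≤ (p - m + j) / K := by
    intro j hj
    rw [Nat.le_div_iff_mul_le hK0]
    have h1 := sum_B B w (p+1+j)
    rw [hnsj j hj.le] at h1
    have h2 : ∑ i ∈ B, cn w (w (p+1+j)) (p+1+j) ≤ ∑ i ∈ B, cn w i (p+1+j) := by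
      refine sum_le_sum fun i hi => ?_
      by_cases hij : i = w (p+1+j)
      · rw [hij]
      · have h3 := balanced r w D hopt hD hΩ (w (p+1+j)) i
          (by rw [hα _ (hbig j hj), hα i hi]) (p+1+j+1) (by omega)
        rw [cn_succ, cn_succ, if_pos rfl, if_neg (fun h => hij h.symm)] at h3
        omega
    rw [sum_const, hK, smul_eq_mul] at h2
    rw [mul_comm]
    omega
  -- the small letter
  have hσ : ∀ j, j < K → pm (dl r w (w p) (p+1+j)) = 1 - 2 * (((p+1+j:ℕ):ℝ) * β) := by
    intro j hj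
    have h1 : cn w (w p) (p+1) = 1 := by
      have h2 : 1 ≤ cn w (w p) (p+1) := by rw [cn_succ, if_pos rfl]; omega
      have h3 := hΩ (p+1) (by omega) (w p)
      rw [dl_cn, hβ _ hpB, abs_le] at h3
      have h4 := h3.2
      have h5 : (cn w (w p) (p+1) : ℝ) < 2 := by
        push_cast at h4
        have : (0:ℝ) ≤ K * β := by positivity
        nlinarith
      have h6 : cn w (w p) (p+1) < 2 := by exact_mod_cast h5
      omega
    have h2 : cn w (w p) (p+1+j) = 1 := by
      rw [cn_const w (w p) (show p+1 ≤ p+1+j by omega) (fun x h3 h4 h5 => ?_), h1]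
      have := hbig (x-(p+1)) (by omega)
      rw [show p + 1 + (x - (p+1)) = x by omega, h5] at this
      exact hpB this
    rw [dl_cn, h2, hβ _ hpB]
    have h3 : ((p+1+j:ℕ):ℝ) * β ≤ 1 := by
      have : ((p+1+j:ℕ):ℝ) ≤ (p:ℝ) + K + 1 := by
        have : (j:ℝ) ≤ K := by exact_mod_cast hj.le
        push_cast; linarith
      have := mul_le_mul_of_nonneg_right this hβ0.le
      linarith
    have h4 : (0:ℝ) ≤ ((p+1+j:ℕ):ℝ) * β := by positivity
    rw [pm_eq _ (by push_cast at h3 ⊢; linarith) (by push_cast at h4 ⊢; linarith)]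
    push_cast; ring
  have hmain := shift_opt r w D hopt p K (by omega)
  have hL : ∑ j ∈ range K, pm (dl r w (w p) (p+1+j)) = K - 2 * β * (K * p + K * (K+1)/2) := by
    rw [sum_congr rfl (fun j hj => hσ j (mem_range.1 hj)), sum_sub_distrib, ← mul_sum, ← sum_mul,
      sum_nat_lin]
    simp; ring
  have hU : ∑ j ∈ range K, pp (dl r w (w (p+1+j)) (p+1+j)) ≤
      2 * ((p:ℝ) - m) - 2 * α * (K * p + K * (K+1)/2) + K := by
    have h1 : ∀ j ∈ range K, pp (dl r w (w (p+1+j)) (p+1+j)) ≤
        2 * ((((p - m + j) / K : ℕ) : ℝ)) - 2 * (((p+1+j:ℕ):ℝ) * α) + 1 := by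
      intro j hj
      rw [mem_range] at hj
      have h2 := hΩ (p+1+j) (by omega) (w (p+1+j))
      rw [abs_le] at h2
      have h3 := pp_le _ h2.1
      have h4 : ((cn w (w (p+1+j)) (p+1+j) : ℕ) : ℝ) ≤ (((p - m + j) / K : ℕ) : ℝ) := by
        exact_mod_cast hcnt j hj
      rw [dl_cn, hα _ (hbig j hj)] at h3 h2
      rw [dl_cn, hα _ (hbig j hj)]
      linarith
    refine le_trans (sum_le_sum h1) (le_of_eq ?_)
    rw [sum_add_distrib, sum_sub_distrib, ← mul_sum, ← mul_sum, ← sum_mul, sum_nat_lin,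
      ← Nat.cast_sum, hermite K (p-m) hK0, Nat.cast_sub hmp]
    simp; ring
  rw [hL] at hmain
  have hfin := le_trans hmain hU
  -- final arithmetic
  have hKα : (K:ℝ) * α = 1 - s * β := by linarith
  have e1 : 2 * α * ((K:ℝ) * p + K * (K+1)/2) = (1 - s*β) * (2 * p + (K+1)) := by
    rw [← hKα]; ring
  rw [e1] at hfin
  have hf2 : (K:ℝ) + 1 + 2 * m ≤ (s + K) * β * (2 * p + K + 1) := by nlinarith
  have hmR : (0:ℝ) ≤ m := Nat.cast_nonneg m
  -- multiply by `s`
  have hsK : (0:ℝ) ≤ s + K := by linarith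
  have hf3 : (s + K) * (((p:ℝ) - (K-1) - K*m) * (s*β)) ≤ s + K := by
    have := mul_le_mul_of_nonneg_left hpb hsK
    linarith
  have hf4 : (s:ℝ) * (K + 1 + 2 * m) ≤ s * ((s + K) * β * (2 * p + K + 1)) :=
    mul_le_mul_of_nonneg_left hf2 (by linarith)
  have hf5 : (s:ℝ) * (K + 1 + 2*m) ≤ 2 * (s + K) + β * (s * (s+K) * (3*K - 1)) +
      2 * (m * s) * (K * (s + K) * β) := by nlinarith
  have hf6 : 2 * (m * s) * (K * (s + K) * β) ≤ 2 * (m * s) * 1 := by
    apply mul_le_mul_of_nonneg_left _ (by positivity)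
    linarith [mul_nonneg (mul_nonneg (by linarith : (0:ℝ) ≤ K) hsK) hβ0.le]
  have hf7 : (2:ℝ) * K + s + 1 ≤ s * K := by exact_mod_cast hKs
  nlinarith

end Pool.Agent.JIT
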