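import Pool.Agent.JIT.Defs
import Pool.Agent.JIT.Fail2
import Pool.Agent.JIT.Five
import Pool.Agent.JIT.Six

namespace Pool.Agent.JIT

open Finset

variable {n : ℕ}

/-- the word on `ℕ` belonging to a sequence -/
def ext {D : ℕ} (s : Fin D → Fin n) (a : Fin n) : ℕ → Fin n :=
  fun p => if h : p < D then s ⟨p, h⟩ else a

theorem occ_eq {D : ℕ} (s : Fin D → Fin n) (a : Fin n) (i : Fin n) (k : ℕ) (hk : k ≤ D) :
    occ s i k = cn (ext s a) i k := by
  unfold occ cn
  refine card_bij (fun p _ => p.val) ?_ ?_ ?_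
  · intro p hp
    simp only [mem_filter, mem_univ, true_and, mem_range] at hp ⊢
    refine ⟨hp.1, ?_⟩
    unfold ext
    rw [dif_pos p.2]; exact hp.2
  · intro p _ q _ h; exact Fin.ext h
  · intro q hq
    simp only [mem_filter, mem_range] at hq
    refine ⟨⟨q, by omega⟩, ?_, rfl⟩
    simp only [mem_filter, mem_univ, true_and]
    refine ⟨hq.1, ?_⟩
    have := hq.2
    unfold ext at this
    rwa [dif_pos (by omega)] at this

/-- the rates -/
noncomputable def rt (d : Fin n → ℕ) : Fin n → ℝ := fun i => (d i : ℝ) / (∑ j, d j : ℕ)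

theorem dev_eq (d : Fin n → ℕ) (s : Fin (∑ i, d i) → Fin n) (a i : Fin n) (k : ℕ)
    (hk : k ≤ ∑ i, d i) : dev d s i k = dl (rt d) (ext s a) i k := by
  unfold dev
  rw [dl_cn, occ_eq s a i k hk]; rfl

theorem totalDev_eq (d : Fin n → ℕ) (s : Fin (∑ i, d i) → Fin n) (a : Fin n) :
    totalDev d s = AA (rt d) (∑ i, d i) (ext s a) := by
  unfold totalDev AA
  refine sum_bij' (fun k _ => k - 1) (fun k _ => k + 1) ?_ ?_ ?_ ?_ ?_
  · intro k hk; rw [mem_Icc] at hk; rw [mem_range]; omega
  · intro k hk; rw [mem_range] at hk; rw [mem_Icc]; omega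
  · intro k hk; rw [mem_Icc] at hk; omega
  · intro k _; omega
  · intro k hk
    rw [mem_Icc] at hk
    refine sum_congr rfl fun i _ => ?_
    rw [dev_eq d s a i k hk.2, show k - 1 + 1 = k by omega]

theorem isSeq_iff (d : Fin n → ℕ) (s : Fin (∑ i, d i) → Fin n) (a : Fin n) :
    IsSeq d s ↔ ∀ i, cn (ext s a) i (∑ i, d i) = d i := by
  unfold IsSeq
  refine forall_congr' fun i => ?_
  rw [← occ_eq s a i _ le_rfl]
  unfold occ
  have : (univ.filter (fun p : Fin (∑ i, d i) => p.val < ∑ i, d i ∧ s p = i)) =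
      univ.filter (fun p => s p = i) := by
    ext p; simp
  rw [this]

/-- restriction of a word on `ℕ` -/
def res (D : ℕ) (w : ℕ → Fin n) : Fin D → Fin n := fun p => w p.val

theorem cn_congr {ι : Type*} [DecidableEq ι] (w w' : ℕ → ι) (i : ι) (k : ℕ)
    (h : ∀ p, p < k → w p = w' p) : cn w i k = cn w' i k := by
  unfold cn
  congr 1
  refine filter_congr fun p hp => ?_
  rw [mem_range] at hp
  rw [h p hp]

theorem AA_congr {ι : Type*} [Fintype ι] [DecidableEq ι] (r : ι → ℝ) (D : ℕ) (w w' : ℕ → ι)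
    (h : ∀ p, p < D → w p = w' p) : AA r D w = AA r D w' := by
  unfold AA
  refine sum_congr rfl fun k hk => sum_congr rfl fun i _ => ?_
  rw [mem_range] at hk
  rw [dl_cn, dl_cn, cn_congr w w' i (k+1) (fun p hp => h p (by omega))]

theorem ext_res (D : ℕ) (w : ℕ → Fin n) (a : Fin n) (p : ℕ) (hp : p < D) :
    ext (res D w) a p = w p := by
  unfold ext res; rw [dif_pos hp]

theorem opt_of_isOptA (d : Fin n → ℕ) (s : Fin (∑ i, d i) → Fin n) (a : Fin n) (h : IsOptA d s) :
    Opt (rt d) (∑ i, d i) (ext s a) := by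
  intro w' hw'
  have h1 : IsSeq d (res (∑ i, d i) w') := by
    rw [isSeq_iff d _ a]
    intro i
    have h2 := (isSeq_iff d s a).1 h.1 i
    have h3 := hw' i
    rw [c_eq_cn, c_eq_cn, h2] at h3
    rw [cn_congr _ w' i _ (fun p hp => ext_res _ w' a p hp)]
    exact_mod_cast h3
  have h2 := h.2 _ h1
  rw [totalDev_eq d s a, totalDev_eq d _ a] at h2
  rwa [AA_congr _ _ _ w' (fun p hp => ext_res _ w' a p hp)] at h2

theorem dlD (d : Fin n → ℕ) (hD : 0 < ∑ i, d i) (w : ℕ → Fin n)
    (hw : ∀ i, cn w i (∑ i, d i) = d i) (i : Fin n) : dl (rt d) w i (∑ i, d i) = 0 := by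
  rw [dl_cn, hw i]
  unfold rt
  have : ((∑ i, d i : ℕ) : ℝ) ≠ 0 := by exact_mod_cast hD.ne'
  field_simp
  ring

theorem rt_nonneg (d : Fin n → ℕ) (i : Fin n) : 0 ≤ rt d i := by unfold rt; positivity

theorem rt_sum (d : Fin n → ℕ) (hD : 0 < ∑ i, d i) : ∑ i, rt d i = 1 := by
  unfold rt
  rw [← sum_div, ← Nat.cast_sum]
  exact div_self (by exact_mod_cast hD.ne')

theorem exists_isSeq (d : Fin n → ℕ) : ∃ s, IsSeq d s := by
  refine ⟨fun p => (finSigmaFinEquiv.symm p).1, fun i => ?_⟩
  have h : (univ.filter (fun p : Fin (∑ i, d i) => (finSigmaFinEquiv.symm p).1 = i)).card =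
      Fintype.card (Fin (d i)) := by
    rw [← card_univ]
    symm
    refine card_bij (fun x _ => finSigmaFinEquiv ⟨i, x⟩) ?_ ?_ ?_
    · intro x _; simp
    · intro x _ y _ h
      have := finSigmaFinEquiv.injective h
      simpa using this
    · intro p hp
      simp only [mem_filter, mem_univ, true_and] at hp
      subst hp
      refine ⟨(finSigmaFinEquiv.symm p).2, mem_univ _, ?_⟩
      exact Equiv.apply_symm_apply _ _
  rw [h, Fintype.card_fin]

theorem exists_isOptA (d : Fin n → ℕ) : ∃ s, IsOptA d s := by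
  classical
  obtain ⟨s0, h0⟩ := exists_isSeq d
  obtain ⟨s, h1, h2⟩ := exists_min_image (univ.filter (fun s => IsSeq d s)) (totalDev d)
    ⟨s0, by simp [h0]⟩
  refine ⟨s, by simpa using h1, fun s' hs' => h2 s' (by simp [hs'])⟩

/-- at most four letters -/
theorem four_fin (hn : n ≤ 4) (d : Fin n → ℕ) (s : Fin (∑ i, d i) → Fin n) (h : IsOptA d s) :
    InOmega d s := by
  intro i k hk1 hk2
  have hD : 0 < ∑ i, d i := by omega
  have h1 := four (rt d) (ext s i) (∑ i, d i) (by simpa using hn) (rt_nonneg d) (rt_sum d hD)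
    (opt_of_isOptA d s i h) (dlD d hD _ ((isSeq_iff d s i).1 h.1)) k hk2 i
  rw [dev_eq d s i i k hk2]; exact h1

/-- transfer of failure -/
theorem not_oneness (d : Fin n → ℕ) (hD : 0 < ∑ i, d i)
    (h : ∀ w : ℕ → Fin n, (∀ i, cn w i (∑ i, d i) = d i) → Opt (rt d) (∑ i, d i) w →
      ¬ (∀ k, k ≤ ∑ i, d i → ∀ i, |dl (rt d) w i k| ≤ 1)) : ¬ Oneness d := by
  rintro ⟨s, h1, h2⟩
  refine h (ext s (s ⟨0, hD⟩)) ((isSeq_iff d s _).1 h1.1) (opt_of_isOptA d s _ h1) ?_
  intro k hk i
  rcases Nat.eq_zero_or_pos k with h3 | h3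
  · subst h3; rw [dl_zero]; simp
  · rw [← dev_eq d s _ i k hk]; exact h2 i k h3 hk

theorem cn_list {ι : Type*} [DecidableEq ι] (w : ℕ → ι) (i : ι) :
    ∀ (l : List ι) (k : ℕ), (∀ j (hj : j < l.length), w (k + j) = l[j]) →
    cn w i (k + l.length) = cn w i k + l.count i := by
  intro l
  induction l with
  | nil => intro k _; simp
  | cons a l ih =>
    intro k h
    have h0 : w k = a := h 0 (by simp)
    have h1 := ih (k+1) (fun j hj => by
      have := h (j+1) (by simp; omega)
      rw [show k + 1 + j = k + (j+1) by omega, this]; simp)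
    rw [List.length_cons, show k + (l.length + 1) = k + 1 + l.length by omega, h1, cn_succ, h0,
      List.count_cons]
    by_cases h2 : a = i
    · simp [h2]; ring
    · simp [h2]

theorem five_not : ¬ Oneness Five.dd := by
  have hS : ∑ i, Five.dd i = 362 := by decide
  apply not_oneness _ (by rw [hS]; norm_num)
  intro w hw hopt
  have hopt' : Opt (fun i => (Five.dd i : ℝ) / (362 : ℕ)) 362 w := by
    have : rt Five.dd = fun i => (Five.dd i : ℝ) / (362 : ℕ) := by
      unfold rt; rw [hS]
    rw [this, hS] at hopt; exact hopt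
  have hrt : rt Five.dd = fun i => (Five.dd i : ℝ) / (362 : ℕ) := by
    unfold rt; rw [hS]
  rw [hS] at hw ⊢
  rw [hrt]
  have hw0 : ∀ j (hj : j < Five.wd.length), (fun p => Five.wd.getD p 0) (0 + j) = Five.wd[j] := by
    intro j hj
    rw [zero_add]
    exact List.getD_eq_getElem _ _ hj
  refine cert Five.dd 362 (by norm_num) Five.zs Five.zlen Five.R0 Five.RR Five.chkAll _ Five.ineq
    (fun p => Five.wd.getD p 0) ?_ ?_ w hw hopt'
  · intro i
    have := cn_list (fun p => Five.wd.getD p 0) i Five.wd 0 hw0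
    rw [Five.wlen, zero_add, cn_zero, zero_add, Five.counts i] at this
    exact this
  · rw [← Five.evs]
    unfold IA
    refine sum_congr rfl fun i _ => ?_
    have := ev_sound 362 (Five.dd i) i (fun p => Five.wd.getD p 0) Five.wd 0 hw0
    rw [cn_zero, Five.wlen] at this
    rw [this]
    refine sum_congr rfl fun j _ => ?_
    rw [show 0 + 1 + j = j + 1 by omega]

theorem six_not : ¬ Oneness Six.dd := by
  have hS : ∑ i, Six.dd i = 97 := by decide
  apply not_oneness _ (by rw [hS]; norm_num)
  intro w hw hopt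
  have hrt : rt Six.dd = fun i => (Six.dd i : ℝ) / (97 : ℕ) := by
    unfold rt; rw [hS]
  have hopt' : Opt (fun i => (Six.dd i : ℝ) / (97 : ℕ)) 97 w := by
    rw [hrt, hS] at hopt; exact hopt
  rw [hS] at hw ⊢
  rw [hrt]
  have hw0 : ∀ j (hj : j < Six.wd.length), (fun p => Six.wd.getD p 0) (0 + j) = Six.wd[j] := by
    intro j hj
    rw [zero_add]
    exact List.getD_eq_getElem _ _ hj
  refine cert Six.dd 97 (by norm_num) Six.zs Six.zlen Six.R0 Six.RR Six.chkAll _ Six.ineq
    (fun p => Six.wd.getD p 0) ?_ ?_ w hw hopt'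
  · intro i
    have := cn_list (fun p => Six.wd.getD p 0) i Six.wd 0 hw0
    rw [Six.wlen, zero_add, cn_zero, zero_add, Six.counts i] at this
    exact this
  · rw [← Six.evs]
    unfold IA
    refine sum_congr rfl fun i _ => ?_
    have := ev_sound 97 (Six.dd i) i (fun p => Six.wd.getD p 0) Six.wd 0 hw0
    rw [cn_zero, Six.wlen] at this
    rw [this]
    refine sum_congr rfl fun j _ => ?_
    rw [show 0 + 1 + j = j + 1 by omega]

/-- two demands `a > b` with multiplicities `K ≥ 2` and `s`, `2K + s < sK`, `a ≥ 3bs(s+K)`: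
the oneness property fails. -/
theorem two_not (d : Fin n → ℕ) (a b K s : ℕ) (hb : 0 < b) (hab : b < a)
    (hd : ∀ i, d i = a ∨ d i = b) (hK : (univ.filter (fun i => d i = a)).card = K)
    (hs : (univ.filter (fun i => d i = b)).card = s) (hKs : 2 * K + s < s * K)
    (ha : 3 * b * s * (s + K) ≤ a) : ¬ Oneness d := by
  set B : Finset (Fin n) := univ.filter (fun i => d i = a) with hB
  have hBc : Bᶜ = univ.filter (fun i => d i = b) := by
    ext i
    simp only [hB, mem_compl, mem_filter, mem_univ, true_and]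
    constructor
    · intro h; exact (hd i).resolve_left h
    · intro h h'; omega
  have hK2 : 2 ≤ K := by
    by_contra hc
    have : K = 0 ∨ K = 1 := by omega
    rcases this with h | h <;> subst h <;> omega
  have hs1 : 1 ≤ s := by
    by_contra hc
    have : s = 0 := by omega
    subst this; omega
  have hsum : ∑ i, d i = K * a + s * b := by
    rw [← sum_add_sum_compl B, hBc]
    have h1 : ∑ i ∈ B, d i = K * a := by
      rw [sum_congr rfl (fun i hi => (mem_filter.1 hi).2), sum_const, hK, smul_eq_mul]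
    have h2 : ∑ i ∈ univ.filter (fun i => d i = b), d i = s * b := by
      rw [sum_congr rfl (fun i hi => (mem_filter.1 hi).2), sum_const, hs, smul_eq_mul]
    rw [h1, h2]
  have hDpos : 0 < ∑ i, d i := by
    rw [hsum]
    have : 0 < K * a := Nat.mul_pos (by omega) (by omega)
    omega
  set D := ∑ i, d i with hDdef
  have hDR : (0:ℝ) < D := by exact_mod_cast hDpos
  have hbR : (0:ℝ) < b := by exact_mod_cast hb
  have hKR : (2:ℝ) ≤ K := by exact_mod_cast hK2
  have hsR : (1:ℝ) ≤ s := by exact_mod_cast hs1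
  have hDe : (D:ℝ) = K * a + s * b := by rw [hsum]; push_cast; ring
  apply not_oneness d hDpos
  intro w hw hopt
  refine fail_two (rt d) w D hopt (dlD d hDpos w hw) B ((a:ℝ)/D) ((b:ℝ)/D) ?_ ?_ (by positivity) K s
    hK (by rw [hBc]; exact hs) hK2 ?_ (by omega) ?_ ?_
  · intro i hi; unfold rt; rw [(mem_filter.1 hi).2]
  · intro i hi
    have : d i = b := by
      have := mem_compl.2 hi
      rw [hBc] at this
      exact (mem_filter.1 this).2
    unfold rt; rw [this]
  · field_simp
    linarith
  · have haR : (3:ℝ) * b * s * (s + K) ≤ a := by exact_mod_cast ha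
    rw [div_mul_eq_mul_div, div_lt_one hDR, hDe]
    have h1 : (K:ℝ) * (3 * b * s * (s+K)) ≤ K * a := mul_le_mul_of_nonneg_left haR (by linarith)
    have h2 : (0:ℝ) < b * (s * (s + K)) := by positivity
    have h3 : (0:ℝ) < s * b := by positivity
    nlinarith
  · rw [mul_div_cancel₀ _ hDR.ne']
    exact_mod_cast hb

theorem exists_not (hn : 5 ≤ n) : ∃ d : Fin n → ℕ, (∀ i, 0 < d i) ∧ ¬ Oneness d := by
  rcases Nat.lt_or_ge n 7 with h | h
  · have : n = 5 ∨ n = 6 := by omega
    rcases this with rfl | rfl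
    · exact ⟨Five.dd, by decide, five_not⟩
    · exact ⟨Six.dd, by decide, six_not⟩
  · set a := 3 * (n-2) * (n - 2 + 2) with ha
    have ha1 : 1 < a := by
      rw [ha]
      have : 1 ≤ n - 2 := by omega
      nlinarith
    refine ⟨fun i => if i.val < 2 then a else 1, ?_, ?_⟩
    · intro i
      show 0 < if i.val < 2 then a else 1
      split_ifs <;> omega
    · refine two_not _ a 1 2 (n-2) (by norm_num) ha1 ?_ ?_ ?_ (by omega) ?_
      · intro i; split_ifs <;> simp
      · have : (univ.filter (fun i : Fin n => (if i.val < 2 then a else 1) = a)) =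
            univ.filter (fun i : Fin n => i.val < 2) := by
          refine filter_congr fun i _ => ?_
          split_ifs with h1
          · simp [h1]
          · simp only [h1, iff_false]; omega
        rw [this]
        rw [Fin.card_filter_val_lt]
        omega
      · have : (univ.filter (fun i : Fin n => (if i.val < 2 then a else 1) = 1)) =
            (univ.filter (fun i : Fin n => i.val < 2))ᶜ := by
          ext i
          simp only [mem_filter, mem_univ, true_and, mem_compl]
          split_ifs with h1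
          · simp only [h1, not_true_eq_false, iff_false]; omega
          · simp [h1]
        rw [this, card_compl, Fin.card_filter_val_lt, Fintype.card_fin]
        omega
      · rw [ha]

end Pool.Agent.JIT
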