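import Pool.Agent.JIT.Obst
import Pool.Agent.JIT.Bridge

/-! Demand vectors (up to scaling) which are certified to have no optimal word of bottleneck at
most one, by the obstruction at a near-cut. -/

namespace Pool.Agent.JIT

open Finset

variable {n : ℕ}

/-- the numerical condition on the number `l` of fast letters -/
def Cnd (α g : ℝ) (l : ℕ) : Prop := 21 / 2 * (1 + 21 / 4 / α) < l * ((l + 1) * g - 27 / 2)

/-- the certified region attached to a time `T`, a rounding `m` and sets `S`, `L` of slow and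
fast letters -/
def Bad (α g : ℝ) (S L : Finset (Fin n)) (T : ℕ) (m : Fin n → ℕ) (x : Fin n → ℝ) : Prop :=
  (∀ i, 0 < x i ∧ x i < 1) ∧ (∀ j ∈ S, α < x j) ∧ (∀ i ∈ L, ∀ j ∈ S, g < x i - x j) ∧
  (∀ i, i ∉ S → T * x i - m i * ∑ k, x k < -1) ∧ (∀ i ∈ L, -(3 / 2) < T * x i - m i * ∑ k, x k) ∧
  (∀ j ∈ S, T * x j - m j * ∑ k, x k < 21 / 4)

theorem not_of_bad (α g : ℝ) (hα : 0 < α) (hg : 0 < g) (d : Fin n → ℕ) (N : ℕ)
    (S L : Finset (Fin n)) (T : ℕ) (m : Fin n → ℕ)
    (hb : Bad α g S L T m (fun i => (d i : ℝ) / N)) (hm : ∑ i, m i = T) (hS : 0 < S.card)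
    (hL : Cnd α g L.card) (hN : (T:ℝ) + 1 ≤ α * N) : ¬ Oneness d := by
  obtain ⟨hb1, hb2, hb3, hb4, hb5, hb6⟩ := hb
  unfold Cnd at hL
  obtain ⟨s0, hs0⟩ := card_pos.1 hS
  have hL0 : 0 < L.card := by
    by_contra hc
    have : L.card = 0 := by omega
    rw [this] at hL
    have h8 : 0 < 21 / 2 * (1 + 21 / 4 / α) := by positivity
    push_cast at hL
    linarith
  have hNpos : 0 < N := by
    by_contra hc
    have : N = 0 := by omega
    subst this
    have : (0:ℝ) ≤ T := Nat.cast_nonneg T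
    push_cast at hN
    linarith
  have hNR : (0:ℝ) < N := by exact_mod_cast hNpos
  set x : Fin n → ℝ := fun i => (d i : ℝ) / N with hx
  set X : ℝ := ∑ k, x k with hX
  obtain ⟨l0, hl0⟩ : ∃ l, l ∈ L := card_pos.1 hL0
  have hX0 : 0 < X := by
    apply sum_pos (fun i _ => (hb1 i).1) ⟨l0, mem_univ _⟩
  have hDX : ((∑ i, d i : ℕ) : ℝ) = N * X := by
    rw [hX, mul_sum, Nat.cast_sum]
    refine sum_congr rfl fun i _ => ?_
    rw [hx]; field_simp
  have hDpos : 0 < ∑ i, d i := by
    have : (0:ℝ) < ((∑ i, d i : ℕ) : ℝ) := by rw [hDX]; positivity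
    exact_mod_cast this
  have hr : ∀ i, rt d i = x i / X := by
    intro i
    unfold rt
    rw [hDX, hx]
    field_simp
  have hbig : ∀ i ∈ L, T + 1 ≤ d i := by
    intro i hi
    have h0 := hb3 i hi s0 hs0
    have h0' := hb2 s0 hs0
    have h1 : α < x i := by linarith
    simp only [hx] at h1
    rw [lt_div_iff₀ hNR] at h1
    have h3 : (T:ℝ) < d i := by linarith
    have : T < d i := by exact_mod_cast h3
    omega
  have hmT : ∀ i, m i ≤ T := fun i => hm ▸ single_le_sum (fun _ _ => Nat.zero_le _) (mem_univ i)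
  apply not_oneness d hDpos
  intro w hw hopt hΩ
  refine obstruction (rt d) w (∑ i, d i) hopt (dlD d hDpos w hw) hΩ T
    (le_trans (hbig l0 hl0) (single_le_sum (f := d) (fun _ _ => Nat.zero_le _) (mem_univ l0))) m hm S L
    (g / X) (3 / 2 / X) (21 / 4 / X) (α / X) ?_ ?_ ?_ ?_ ?_ ?_ (by positivity) (by positivity)
    (by positivity) ?_
  · intro i hi
    rw [hr]
    have h1 := hb4 i hi
    have h2 := (hb1 i).2
    have : (T:ℝ) * (x i / X) - m i + x i / X = (T * x i - m i * X + x i) / X := by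
      field_simp
    rw [this]
    apply div_neg_of_neg_of_pos _ hX0
    linarith
  · intro i hi hi'
    have h1 := hb3 i hi i hi'
    linarith
  · intro i hi
    rw [hr]
    have h1 := hb5 i hi
    have : (m i : ℝ) - T * (x i / X) = -(T * x i - m i * X) / X := by
      field_simp; ring
    rw [this]
    apply div_le_div_of_nonneg_right _ hX0.le
    linarith
  · intro j hj
    rw [hr]
    have h1 := hb6 j hj
    have h2 := hb2 j hj
    constructor
    · have : (T:ℝ) * (x j / X) - m j = (T * x j - m j * X) / X := by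
        field_simp
      rw [this]
      exact div_le_div_of_nonneg_right h1.le hX0.le
    · exact div_le_div_of_nonneg_right h2.le hX0.le
  · intro i hi j hj
    rw [hr, hr, ← sub_div]
    apply div_le_div_of_nonneg_right _ hX0.le
    have h1 := hb3 i hi j hj
    linarith
  · intro i hi
    have h1 : ((∑ i, d i : ℕ) : ℝ) * rt d i = d i := by
      rw [hr, hDX, hx]
      field_simp
    rw [h1]
    have h2 := hbig i hi
    have h3 := hmT i
    have : m i + 1 ≤ d i := by omega
    exact_mod_cast this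
  · have e1 : 21 / 4 / X / (α / X) = 21 / 4 / α := by field_simp
    have e2 : 2 * (21 / 4 / X) * (1 + 21 / 4 / α) = (21 / 2 * (1 + 21 / 4 / α)) / X := by ring
    have e3 : (L.card : ℝ) * ((L.card + 1) * (g / X) - 2 * (3 / 2 / X) - 2 * (21 / 4 / X)) =
        (L.card * ((L.card + 1) * g - 27 / 2)) / X := by ring
    rw [e1, e2, e3]
    exact div_lt_div_of_pos_right hL hX0

/-- rounding nonnegative reals with integer sum -/
theorem rounding (y : Fin n → ℝ) (hy : ∀ i, 0 ≤ y i) (T : ℕ) (hT : ∑ i, y i = T) :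
    ∃ m : Fin n → ℕ, ∑ i, m i = T ∧ ∀ i, |(m i : ℝ) - y i| ≤ 1 := by
  have h1 : ∑ i, ⌊y i⌋₊ ≤ T := by
    have : ((∑ i, ⌊y i⌋₊ : ℕ) : ℝ) ≤ T := by
      rw [← hT, Nat.cast_sum]
      exact sum_le_sum fun i _ => Nat.floor_le (hy i)
    exact_mod_cast this
  have h2 : T ≤ ∑ i, ⌊y i⌋₊ + n := by
    have : (T:ℝ) ≤ ((∑ i, ⌊y i⌋₊ + n : ℕ) : ℝ) := by
      rw [← hT]
      push_cast
      have : ∑ i, y i ≤ ∑ i, ((⌊y i⌋₊ : ℝ) + 1) := sum_le_sum fun i _ => (Nat.lt_floor_add_one _).le
      refine le_trans this ?_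
      rw [sum_add_distrib]
      simp
    exact_mod_cast this
  obtain ⟨U, _, hU⟩ := exists_subset_card_eq (s := (univ : Finset (Fin n)))
    (n := T - ∑ i, ⌊y i⌋₊) (by rw [card_univ, Fintype.card_fin]; omega)
  refine ⟨fun i => ⌊y i⌋₊ + if i ∈ U then 1 else 0, ?_, ?_⟩
  · rw [sum_add_distrib, sum_ite_mem, univ_inter, sum_const, hU, smul_eq_mul]; omega
  · intro i
    have h3 := Nat.floor_le (hy i)
    have h4 := Nat.lt_floor_add_one (y i)
    rw [abs_le]
    push_cast
    split_ifs <;> constructor <;> linarith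

/-- near every good vector, at every large time, there is a ball of certified vectors -/
theorem exists_bad_ball (α g : ℝ) (hg : 0 < g) (x : Fin n → ℝ) (S L : Finset (Fin n))
    (hx : ∀ i, 0 < x i ∧ x i < 1)
    (hS : ∀ j ∈ S, α < x j) (hL : ∀ i ∈ L, ∀ j ∈ S, g < x i - x j)
    (hSc : n ≤ 5 * S.card) (hn : 0 < n) :
    ∃ T0 : ℕ, ∀ T : ℕ, T0 ≤ T → 0 < T → ∃ (x' : Fin n → ℝ) (m : Fin n → ℕ), ∑ i, m i = T ∧
      (∀ i, |x' i - x i| ≤ ((n:ℝ) + 5) / T) ∧
      ∀ z : Fin n → ℝ, (∀ i, |z i - x' i| ≤ 1 / (4 * ((n:ℝ) + 2) * T)) → Bad α g S L T m z := by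
  have hS0 : 0 < S.card := by omega
  have hSR : (0:ℝ) < S.card := by exact_mod_cast hS0
  have hnR : (0:ℝ) < n := by exact_mod_cast hn
  set O : Set (Fin n → ℝ) := {z | (∀ i, 0 < z i ∧ z i < 1) ∧ (∀ j ∈ S, α < z j) ∧
    (∀ i ∈ L, ∀ j ∈ S, g < z i - z j)} with hO
  have hOo : IsOpen O := by
    have e1 : IsOpen {z : Fin n → ℝ | ∀ i, 0 < z i ∧ z i < 1} := by
      simp only [Set.ofPred_forall]
      refine isOpen_iInter_of_finite fun i => ?_
      exact (isOpen_lt continuous_const (continuous_apply i)).inter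
        (isOpen_lt (continuous_apply i) continuous_const)
    have e2 : IsOpen {z : Fin n → ℝ | ∀ j ∈ S, α < z j} := by
      simp only [Set.ofPred_forall]
      refine isOpen_iInter_of_finite fun i => isOpen_iInter_of_finite fun _ => ?_
      exact isOpen_lt continuous_const (continuous_apply i)
    have e3 : IsOpen {z : Fin n → ℝ | ∀ i ∈ L, ∀ j ∈ S, g < z i - z j} := by
      simp only [Set.ofPred_forall]
      refine isOpen_iInter_of_finite fun i => isOpen_iInter_of_finite fun _ =>
        isOpen_iInter_of_finite fun j => isOpen_iInter_of_finite fun _ => ?_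
      exact isOpen_lt continuous_const ((continuous_apply i).sub (continuous_apply j))
    exact e1.inter (e2.inter e3)
  obtain ⟨μ, hμ, hball⟩ := Metric.isOpen_iff.1 hOo x ⟨hx, hS, hL⟩
  obtain ⟨T0, hT0⟩ := exists_nat_gt (((n:ℝ) + 6) / μ)
  refine ⟨T0, fun T hT hTpos => ?_⟩
  have hTR : (0:ℝ) < T := by exact_mod_cast hTpos
  set X := ∑ k, x k with hX
  have hX0 : 0 < X := sum_pos (fun i _ => (hx i).1) ⟨⟨0, hn⟩, mem_univ _⟩
  have hXn : X ≤ n := by
    have : X ≤ ∑ _k : Fin n, (1:ℝ) := sum_le_sum fun i _ => (hx i).2.le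
    simpa using this
  obtain ⟨m, hm1, hm2⟩ := rounding (fun i => T * x i / X)
    (fun i => div_nonneg (mul_nonneg hTR.le (hx i).1.le) hX0.le) T
    (by rw [← sum_div, ← mul_sum, ← hX]; field_simp)
  set c : ℝ := 5 / 4 * ((n:ℝ) - S.card) / S.card with hc
  have hSn : (S.card : ℝ) ≤ n := by
    have := card_le_univ S
    rw [Fintype.card_fin] at this
    exact_mod_cast this
  have hc0 : 0 ≤ c := by
    rw [hc]; apply div_nonneg _ hSR.le; linarith
  have hc18 : c ≤ 5 := by
    rw [hc, div_le_iff₀ hSR]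
    have : (n:ℝ) ≤ 5 * S.card := by exact_mod_cast hSc
    linarith
  set E : Fin n → ℝ := fun i => if i ∈ S then c else -(5 / 4) with hE
  have hEsum : ∑ i, E i = 0 := by
    rw [hE, sum_ite]
    rw [sum_const, sum_const, nsmul_eq_mul, nsmul_eq_mul]
    have f1 : (univ.filter (fun i => i ∈ S)) = S := by ext i; simp
    have f2 : (univ.filter (fun i => i ∉ S)) = Sᶜ := by ext i; simp
    rw [f1, f2, card_compl, Fintype.card_fin, Nat.cast_sub (by exact_mod_cast hSn), hc]
    field_simp
    ring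
  have hE1 : ∀ i, |E i| ≤ 5 := by
    intro i
    simp only [hE]
    split_ifs
    · rw [abs_of_nonneg hc0]; exact hc18
    · norm_num
  refine ⟨fun i => (m i * X + E i) / T, m, hm1, ?_, ?_⟩
  · intro i
    have e1 : (m i * X + E i) / T - x i = (((m i : ℝ) - T * x i / X) * X + E i) / T := by
      field_simp
      ring
    rw [e1, abs_div, abs_of_pos hTR]
    apply div_le_div_of_nonneg_right _ hTR.le
    refine le_trans (abs_add_le _ _) ?_
    rw [abs_mul, abs_of_pos hX0]
    have e2 := mul_le_mul_of_nonneg_right (hm2 i) hX0.le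
    have e3 := hE1 i
    linarith
  · intro z hz
    set δ : ℝ := 1 / (4 * ((n:ℝ) + 2) * T) with hδ
    have hδ0 : 0 < δ := by rw [hδ]; positivity
    have hTδ : T * δ * (n + 1) < 1 / 4 := by
      rw [hδ]
      have : (T:ℝ) * (1 / (4 * ((n:ℝ) + 2) * T)) * (n + 1) = (n + 1) / (4 * (n + 2)) := by
        field_simp
      rw [this, div_lt_iff₀ (by positivity)]
      linarith
    have hzO : z ∈ O := by
      apply hball
      rw [Metric.mem_ball, dist_pi_lt_iff hμ]
      intro i
      rw [Real.dist_eq]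
      have e1 := hz i
      have e2 : |(m i * X + E i) / T - x i| ≤ ((n:ℝ) + 5) / T := by
        have e1 : (m i * X + E i) / T - x i = (((m i : ℝ) - T * x i / X) * X + E i) / T := by
          field_simp
          ring
        rw [e1, abs_div, abs_of_pos hTR]
        apply div_le_div_of_nonneg_right _ hTR.le
        refine le_trans (abs_add_le _ _) ?_
        rw [abs_mul, abs_of_pos hX0]
        have e2 := mul_le_mul_of_nonneg_right (hm2 i) hX0.le
        have e3 := hE1 i
        linarith
      have e3 : |z i - x i| ≤ δ + ((n:ℝ) + 5) / T := by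
        have : z i - x i = (z i - (m i * X + E i) / T) + ((m i * X + E i) / T - x i) := by ring
        rw [this]
        exact le_trans (abs_add_le _ _) (add_le_add e1 e2)
      have e4 : δ ≤ 1 / T := by
        rw [hδ]
        apply one_div_le_one_div_of_le hTR
        nlinarith
      have e5 : ((n:ℝ) + 6) / T < μ := by
        rw [div_lt_iff₀ hTR]
        rw [div_lt_iff₀ hμ] at hT0
        have : (T0:ℝ) ≤ T := by exact_mod_cast hT
        nlinarith
      have e6 : 1 / (T:ℝ) + ((n:ℝ) + 5) / T = ((n:ℝ) + 6) / T := by ring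
      linarith
    obtain ⟨o1, o2, o3⟩ := hzO
    have hZ : |∑ k, z k - X| ≤ n * δ := by
      have e1 : X = ∑ k, (m k * X + E k) / T := by
        rw [← sum_div, sum_add_distrib, ← sum_mul, hEsum, ← Nat.cast_sum, hm1]
        field_simp
        ring
      rw [e1, ← sum_sub_distrib]
      refine le_trans (abs_sum_le_sum_abs _ _) ?_
      refine le_trans (sum_le_sum fun i _ => hz i) ?_
      rw [sum_const, card_univ, Fintype.card_fin, nsmul_eq_mul]
    have hkey : ∀ i, |(T * z i - m i * ∑ k, z k) - E i| < 1 / 4 := by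
      intro i
      have hmT : (m i : ℝ) ≤ T := by
        have : m i ≤ T := hm1 ▸ single_le_sum (fun _ _ => Nat.zero_le _) (mem_univ i)
        exact_mod_cast this
      have e1 : (T * z i - m i * ∑ k, z k) - E i =
          T * (z i - (m i * X + E i) / T) - m i * (∑ k, z k - X) := by
        field_simp
        ring
      rw [e1]
      refine lt_of_le_of_lt (abs_sub _ _) ?_
      rw [abs_mul, abs_mul, abs_of_pos hTR,
        abs_of_nonneg (show (0:ℝ) ≤ (m i : ℝ) from Nat.cast_nonneg _)]
      have e2 := mul_le_mul_of_nonneg_left (hz i) hTR.le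
      have e3 : (m i : ℝ) * |∑ k, z k - X| ≤ T * (n * δ) :=
        mul_le_mul hmT hZ (abs_nonneg _) hTR.le
      have e4 : T * δ + T * (n * δ) = T * δ * (n + 1) := by ring
      linarith
    refine ⟨o1, o2, o3, ?_, ?_, ?_⟩
    · intro i hi
      have e1 := hkey i
      simp only [hE, if_neg hi] at e1
      rw [abs_lt] at e1
      linarith
    · intro i hi
      have hiS : i ∉ S := fun h => by
        have := o3 i hi i h; linarith
      have e1 := hkey i
      simp only [hE, if_neg hiS] at e1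
      rw [abs_lt] at e1
      linarith
    · intro i hi
      have e1 := hkey i
      simp only [hE, if_pos hi] at e1
      rw [abs_lt] at e1
      linarith

end Pool.Agent.JIT
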