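import Mathlib

/-! Exchange inequalities for minimisers of the total absolute deviation. -/

namespace Pool.Agent.JIT

open Finset

variable {ι : Type*} [Fintype ι] [DecidableEq ι]

/-- number of `i` among the letters with index `< k`, as a real number -/
noncomputable def c (w : ℕ → ι) (i : ι) (k : ℕ) : ℝ := ∑ p ∈ range k, if w p = i then 1 else 0

/-- deviation of letter `i` at time `k` -/
noncomputable def dl (r : ι → ℝ) (w : ℕ → ι) (i : ι) (k : ℕ) : ℝ := c w i k - k * r i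

/-- total absolute deviation -/
noncomputable def AA (r : ι → ℝ) (D : ℕ) (w : ℕ → ι) : ℝ :=
  ∑ k ∈ range D, ∑ i, |dl r w i (k + 1)|

noncomputable def pp (x : ℝ) : ℝ := |x + 1| - |x|
noncomputable def pm (x : ℝ) : ℝ := |x| - |x - 1|

theorem pp_le_one (x : ℝ) : pp x ≤ 1 := by
  unfold pp
  have := abs_add_le x 1
  simp at this; linarith

theorem neg_one_le_pm (x : ℝ) : -1 ≤ pm x := by
  unfold pm
  have := abs_sub x 1
  simp at this; linarith

theorem pm_le_one (x : ℝ) : pm x ≤ 1 := by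
  unfold pm
  have := abs_add_le (x-1) 1
  simp at this; linarith

theorem pp_of_le (x : ℝ) (h : x ≤ -1) : pp x = -1 := by
  unfold pp
  rw [abs_of_nonpos (by linarith), abs_of_nonpos (by linarith)]; ring

theorem pp_le (x : ℝ) (h : -1 ≤ x) : pp x ≤ 2 * x + 1 := by
  unfold pp
  rw [abs_of_nonneg (by linarith : (0:ℝ) ≤ x + 1)]
  have := neg_abs_le x
  linarith [neg_abs_le x]

theorem le_pm (x : ℝ) (h : x ≤ 1) : 2 * x - 1 ≤ pm x := by
  unfold pm
  rw [abs_of_nonpos (by linarith : x - 1 ≤ 0)]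
  have := le_abs_self x
  linarith

theorem pm_eq (x : ℝ) (h0 : 0 ≤ x) (h : x ≤ 1) : pm x = 2 * x - 1 := by
  unfold pm
  rw [abs_of_nonpos (by linarith : x - 1 ≤ 0), abs_of_nonneg h0]; ring

theorem pm_one (x : ℝ) (h : 1 ≤ x) : pm x = 1 := by
  unfold pm
  rw [abs_of_nonneg (by linarith : (0:ℝ) ≤ x - 1), abs_of_nonneg (by linarith)]; ring

theorem pm_mono {x y : ℝ} (h : x ≤ y) : pm x ≤ pm y := by
  unfold pm
  rcases abs_cases x with ⟨h1, h2⟩ | ⟨h1, h2⟩ <;> rcases abs_cases (x-1) with ⟨h3, h4⟩ | ⟨h3, h4⟩ <;>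
  rcases abs_cases y with ⟨h5, h6⟩ | ⟨h5, h6⟩ <;> rcases abs_cases (y-1) with ⟨h7, h8⟩ | ⟨h7, h8⟩ <;>
  linarith

/-- if `pm x ≤ -1` then `x ≤ 0` -/
theorem nonpos_of_pm (x : ℝ) (h : pm x ≤ -1) : x ≤ 0 := by
  unfold pm at h
  rcases abs_cases x with ⟨h1, h2⟩ | ⟨h1, h2⟩ <;> rcases abs_cases (x-1) with ⟨h3, h4⟩ | ⟨h3, h4⟩ <;>
  linarith

theorem nonneg_of_pp (x : ℝ) (h : 1 ≤ pp x) : 0 ≤ x := by
  unfold pp at h
  rcases abs_cases x with ⟨h1, h2⟩ | ⟨h1, h2⟩ <;> rcases abs_cases (x+1) with ⟨h3, h4⟩ | ⟨h3, h4⟩ <;>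
  linarith

theorem pm_le_pp (x : ℝ) : pm x ≤ pp x := by
  unfold pm pp
  rcases abs_cases x with ⟨h1, h2⟩ | ⟨h1, h2⟩ <;> rcases abs_cases (x-1) with ⟨h3, h4⟩ | ⟨h3, h4⟩ <;>
  rcases abs_cases (x+1) with ⟨h5, h6⟩ | ⟨h5, h6⟩ <;> linarith

omit [Fintype ι] in
theorem c_zero (w : ℕ → ι) (i : ι) : c w i 0 = 0 := by simp [c]

omit [Fintype ι] in
theorem c_succ (w : ℕ → ι) (i : ι) (k : ℕ) : c w i (k+1) = c w i k + if w k = i then 1 else 0 := by
  unfold c; rw [sum_range_succ]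

omit [Fintype ι] in
theorem dl_zero (r : ι → ℝ) (w : ℕ → ι) (i : ι) : dl r w i 0 = 0 := by simp [dl, c_zero]

omit [Fintype ι] in
theorem dl_succ (r : ι → ℝ) (w : ℕ → ι) (i : ι) (k : ℕ) :
    dl r w i (k+1) = dl r w i k + (if w k = i then 1 else 0) - r i := by
  simp only [dl, c_succ]; push_cast; ring

theorem sum_c (w : ℕ → ι) (k : ℕ) : ∑ i, c w i k = k := by
  induction k with
  | zero => simp [c_zero]
  | succ k ih =>
    simp only [c_succ, sum_add_distrib, ih]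
    simp

theorem sum_dl (r : ι → ℝ) (hr : ∑ i, r i = 1) (w : ℕ → ι) (k : ℕ) : ∑ i, dl r w i k = 0 := by
  simp only [dl, sum_sub_distrib, sum_c, ← mul_sum, hr]; ring

/-- swap of the letters with indices `p` and `q` -/
def sw (w : ℕ → ι) (p q : ℕ) : ℕ → ι := fun x => w (Equiv.swap p q x)

omit [Fintype ι] in
theorem c_sw (w : ℕ → ι) (i : ι) (p q : ℕ) (hpq : p < q) (k : ℕ) :
    c (sw w p q) i k = c w i k +
      (if p < k ∧ k ≤ q then ((if w q = i then 1 else 0) - (if w p = i then 1 else 0)) else 0) := by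
  induction k with
  | zero => simp [c_zero]
  | succ k ih =>
    rw [c_succ, c_succ, ih]
    rcases lt_trichotomy k p with h | h | h
    · have h1 : sw w p q k = w k := by
        unfold sw; rw [Equiv.swap_apply_of_ne_of_ne (by omega) (by omega)]
      rw [h1, if_neg (show ¬ (p < k ∧ k ≤ q) by omega), if_neg (show ¬ (p < k + 1 ∧ k + 1 ≤ q) by omega)]; ring
    · subst h
      have h1 : sw w k q k = w q := by unfold sw; rw [Equiv.swap_apply_left]
      rw [h1, if_neg (show ¬ (k < k ∧ k ≤ q) by omega), if_pos (show (k < k + 1 ∧ k + 1 ≤ q) by omega)]; ring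
    · rcases lt_trichotomy k q with h' | h' | h'
      · have h1 : sw w p q k = w k := by
          unfold sw; rw [Equiv.swap_apply_of_ne_of_ne (by omega) (by omega)]
        rw [h1, if_pos (show (p < k ∧ k ≤ q) by omega), if_pos (show (p < k + 1 ∧ k + 1 ≤ q) by omega)]; ring
      · subst h'
        have h1 : sw w p k k = w p := by unfold sw; rw [Equiv.swap_apply_right]
        rw [h1, if_pos (show (p < k ∧ k ≤ k) by omega), if_neg (show ¬ (p < k + 1 ∧ k + 1 ≤ k) by omega)]; ring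
      · have h1 : sw w p q k = w k := by
          unfold sw; rw [Equiv.swap_apply_of_ne_of_ne (by omega) (by omega)]
        rw [h1, if_neg (show ¬ (p < k ∧ k ≤ q) by omega), if_neg (show ¬ (p < k + 1 ∧ k + 1 ≤ q) by omega)]; ring

omit [Fintype ι] in
theorem dl_sw (r : ι → ℝ) (w : ℕ → ι) (i : ι) (p q : ℕ) (hpq : p < q) (k : ℕ) :
    dl r (sw w p q) i k = dl r w i k +
      (if p < k ∧ k ≤ q then ((if w q = i then 1 else 0) - (if w p = i then 1 else 0)) else 0) := by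
  simp only [dl, c_sw w i p q hpq k]; ring

/-- effect of a swap at one time -/
theorem swap_time (f : ι → ℝ) (a b : ι) :
    ∑ i, |f i + ((if b = i then 1 else 0) - (if a = i then 1 else 0))| ≤
      ∑ i, |f i| + (pp (f b) - pm (f a)) := by
  by_cases hab : a = b
  · subst hab
    have := pm_le_pp (f a)
    simp; exact this
  · have h : ∀ i, |f i + ((if b = i then 1 else 0) - (if a = i then 1 else 0))| =
        |f i| + ((if b = i then pp (f b) else 0) - (if a = i then pm (f a) else 0)) := by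
      intro i
      by_cases h1 : b = i
      · subst h1
        have : a ≠ b := hab
        simp [this, pp]
      · by_cases h2 : a = i
        · subst h2
          simp [h1, pm, sub_eq_add_neg]
        · simp [h1, h2]
    simp only [h, sum_add_distrib, sum_sub_distrib]
    simp

theorem AA_sw (r : ι → ℝ) (D : ℕ) (w : ℕ → ι) (p q : ℕ) (hpq : p < q) (hq : q < D) :
    AA r D (sw w p q) ≤ AA r D w + ∑ k ∈ Ioc p q, (pp (dl r w (w q) k) - pm (dl r w (w p) k)) := by
  unfold AA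
  have h1 : ∀ k ∈ range D, ∑ i, |dl r (sw w p q) i (k+1)| ≤ ∑ i, |dl r w i (k+1)| +
      (if p < k+1 ∧ k+1 ≤ q then (pp (dl r w (w q) (k+1)) - pm (dl r w (w p) (k+1))) else 0) := by
    intro k _
    simp only [dl_sw r w _ p q hpq (k+1)]
    by_cases h : p < k+1 ∧ k+1 ≤ q
    · rw [if_pos h]
      simp only [h, and_self, if_true]
      exact swap_time (fun i => dl r w i (k+1)) (w p) (w q)
    · simp only [if_neg h]; simp
  refine le_trans (sum_le_sum h1) ?_
  rw [sum_add_distrib]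
  have h2 : ∑ k ∈ range D, (if p < k+1 ∧ k+1 ≤ q then (pp (dl r w (w q) (k+1)) - pm (dl r w (w p) (k+1))) else 0)
      = ∑ k ∈ Ioc p q, (pp (dl r w (w q) k) - pm (dl r w (w p) k)) := by
    rw [← sum_filter]
    refine sum_bij (fun k _ => k + 1) ?_ ?_ ?_ ?_
    · intro k hk; simp at hk ⊢; omega
    · intro a _ b _ h; omega
    · intro b hb; simp at hb; exact ⟨b - 1, by simp; omega, by omega⟩
    · intro k hk; rfl
  rw [h2]

/-- optimality among all words with the same letter counts -/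
def Opt (r : ι → ℝ) (D : ℕ) (w : ℕ → ι) : Prop :=
  ∀ w' : ℕ → ι, (∀ i, c w' i D = c w i D) → AA r D w ≤ AA r D w'

/-- a chain of exchanges from index `q` to index `e` of total price `C` -/
def Ch (r : ι → ℝ) (D : ℕ) (w : ℕ → ι) (q e : ℕ) (C : ℝ) : Prop :=
  ∀ w' : ℕ → ι, (∀ k, q < k → ∀ i, c w' i k = c w i k) →
    ∃ w'' : ℕ → ι, (∀ i, c w'' i D = c w i D) ∧
      AA r D w'' ≤ AA r D w' + C - ∑ k ∈ Ioc q e, pm (dl r w (w' q) k)

omit [Fintype ι] in
theorem eq_of_c (w w' : ℕ → ι) (q p : ℕ) (hqp : q < p) (h : ∀ k, q < k → ∀ i, c w' i k = c w i k) :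
    w' p = w p := by
  have h1 := h p hqp (w p)
  have h2 := h (p+1) (by omega) (w p)
  rw [c_succ, c_succ, h1] at h2
  by_contra hne
  rw [if_neg hne, if_pos rfl] at h2
  linarith

theorem Ch_base (r : ι → ℝ) (D : ℕ) (w : ℕ → ι) (e : ℕ) (he : e < D) : Ch r D w e e 0 := by
  intro w' h
  refine ⟨w', fun i => h D he i, ?_⟩
  simp

theorem Ch_mono (r : ι → ℝ) (D : ℕ) (w : ℕ → ι) (q e : ℕ) (C C' : ℝ) (h : C ≤ C')
    (H : Ch r D w q e C) : Ch r D w q e C' := by
  intro w' h'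
  obtain ⟨w'', h1, h2⟩ := H w' h'
  exact ⟨w'', h1, by linarith⟩

theorem Ch_step (r : ι → ℝ) (D : ℕ) (w : ℕ → ι) (q p e : ℕ) (C : ℝ) (hqp : q < p) (hpe : p ≤ e)
    (he : e < D) (H : Ch r D w p e C) :
    Ch r D w q e (∑ k ∈ Ioc q p, pp (dl r w (w p) k) + C) := by
  intro w' h
  have hp : w' p = w p := eq_of_c w w' q p hqp h
  have hsw : ∀ k, p < k → ∀ i, c (sw w' q p) i k = c w i k := by
    intro k hk i
    rw [c_sw w' i q p hqp k, if_neg (by omega), h k (by omega) i]; ring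
  obtain ⟨w'', h1, h2⟩ := H (sw w' q p) hsw
  refine ⟨w'', h1, ?_⟩
  have h3 : sw w' q p p = w' q := by unfold sw; rw [Equiv.swap_apply_right]
  rw [h3] at h2
  have h4 := AA_sw r D w' q p hqp (by omega)
  have h5 : ∀ k ∈ Ioc q p, pp (dl r w' (w' p) k) - pm (dl r w' (w' q) k) =
      pp (dl r w (w p) k) - pm (dl r w (w' q) k) := by
    intro k hk
    rw [mem_Ioc] at hk
    simp only [dl, h k hk.1, hp]
  rw [sum_congr rfl h5, sum_sub_distrib] at h4
  have h6 : ∑ k ∈ Ioc q e, pm (dl r w (w' q) k) = ∑ k ∈ Ioc q p, pm (dl r w (w' q) k) +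
      ∑ k ∈ Ioc p e, pm (dl r w (w' q) k) := by
    rw [← sum_Ioc_consecutive _ hqp.le hpe]
  linarith

theorem Ch_opt (r : ι → ℝ) (D : ℕ) (w : ℕ → ι) (hw : Opt r D w) (q e : ℕ) (C : ℝ)
    (H : Ch r D w q e C) : ∑ k ∈ Ioc q e, pm (dl r w (w q) k) ≤ C := by
  obtain ⟨w'', h1, h2⟩ := H w (fun _ _ _ => rfl)
  have := hw w'' h1
  linarith

/-- the simple swap inequality -/
theorem swap_opt (r : ι → ℝ) (D : ℕ) (w : ℕ → ι) (hw : Opt r D w) (p q : ℕ) (hpq : p < q)
    (hq : q < D) : 0 ≤ ∑ k ∈ Ioc p q, (pp (dl r w (w q) k) - pm (dl r w (w p) k)) := by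
  have h := Ch_opt r D w hw p q _ (Ch_step r D w p q q 0 hpq le_rfl hq (Ch_base r D w q hq))
  rw [sum_sub_distrib]; linarith

end Pool.Agent.JIT
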