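import Pool.Agent.JIT.Fail

/-! Certificates for lower bounds on the total deviation of words of bottleneck at most one. -/

namespace Pool.Agent.JIT

open Finset

def nd (a b : ℕ) : ℕ := (a - b) + (b - a)

theorem nd_cast (a b : ℕ) : ((nd a b : ℕ) : ℝ) = |(a:ℝ) - b| := by
  unfold nd
  rcases le_total a b with h | h
  · rw [Nat.sub_eq_zero_of_le h, zero_add, Nat.cast_sub h, abs_of_nonpos]
    · ring
    · have : (a:ℝ) ≤ b := by exact_mod_cast h
      linarith
  · rw [Nat.sub_eq_zero_of_le h, add_zero, Nat.cast_sub h, abs_of_nonneg]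
    have : (b:ℝ) ≤ a := by exact_mod_cast h
    linarith

def feas (D e k x : ℕ) : Bool := Nat.ble (x * D) (k * e + D) && Nat.ble (k * e) (x * D + D)

abbrev Row := ℕ × ℕ × ℕ × ℕ

def val (r : Row) (x : ℕ) : ℕ :=
  if Nat.beq x r.1 then r.2.1 else if Nat.beq x (r.1 + 1) then r.2.2.1 else r.2.2.2

def okRow (D e k : ℕ) (r : Row) : Bool :=
  (Nat.beq r.1 0 || Nat.ble (r.1 * D + 1) (k * e)) && Nat.ble (k * e + D + 1) ((r.1 + 3) * D)

def okMove (D e k : ℕ) (z : ℕ × ℕ) (r r' : Row) (x x' : ℕ) : Bool :=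
  !(feas D e k x) || !(feas D e (k+1) x') ||
    Nat.ble (val r' x' + z.1 * x') (val r x + nd (x' * D) ((k+1) * e) + z.2 * x')

def okStep (D e k : ℕ) (z : ℕ × ℕ) (r r' : Row) : Bool :=
  okRow D e k r && (okMove D e k z r r' r.1 r.1 && (okMove D e k z r r' r.1 (r.1+1) &&
    (okMove D e k z r r' (r.1+1) (r.1+1) && (okMove D e k z r r' (r.1+1) (r.1+2) &&
    (okMove D e k z r r' (r.1+2) (r.1+2) && okMove D e k z r r' (r.1+2) (r.1+3))))))

def chk (D e : ℕ) : ℕ → Row → List (ℕ × ℕ) → List Row → Bool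
  | _, _, [], [] => true
  | k, r, z :: zs, r' :: rs => okStep D e k z r r' && chk D e (k+1) r' zs rs
  | _, _, _, _ => false

def lastRow : Row → List Row → Row
  | r, [] => r
  | _, r' :: rs => lastRow r' rs

theorem okMove_sound (D e k : ℕ) (z : ℕ × ℕ) (r r' : Row) (x x' : ℕ)
    (h : okMove D e k z r r' x x' = true) (h1 : feas D e k x = true)
    (h2 : feas D e (k+1) x' = true) :
    val r' x' + z.1 * x' ≤ val r x + nd (x' * D) ((k+1) * e) + z.2 * x' := by
  unfold okMove at h
  rw [h1, h2] at h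
  simpa using h

theorem okStep_sound (D e k : ℕ) (z : ℕ × ℕ) (r r' : Row) (x x' : ℕ)
    (h : okStep D e k z r r' = true) (h1 : feas D e k x = true)
    (h2 : feas D e (k+1) x' = true) (hx : x' = x ∨ x' = x + 1) :
    val r' x' + z.1 * x' ≤ val r x + nd (x' * D) ((k+1) * e) + z.2 * x' := by
  unfold okStep at h
  simp only [Bool.and_eq_true] at h
  obtain ⟨h0, m1, m2, m3, m4, m5, m6⟩ := h
  have hb : r.1 ≤ x ∧ x ≤ r.1 + 2 := by
    unfold okRow at h0
    unfold feas at h1
    simp only [Bool.and_eq_true, Bool.or_eq_true, Nat.ble_eq] at h0 h1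
    constructor
    · rcases h0.1 with h3 | h3
      · have := Nat.eq_of_beq_eq_true h3
        omega
      · by_contra hc
        have h4 : (x + 1) * D ≤ r.1 * D := Nat.mul_le_mul_right D (by omega)
        have h5 := h1.2
        have h6 : (x + 1) * D = x * D + D := by ring
        omega
    · by_contra hc
      have : (r.1 + 3) * D ≤ x * D := Nat.mul_le_mul_right D (by omega)
      have := h1.1
      omega
  have hcase : x = r.1 ∨ x = r.1 + 1 ∨ x = r.1 + 2 := by omega
  rcases hcase with rfl | h3 | h3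
  · rcases hx with rfl | rfl
    · exact okMove_sound D e k z r r' _ _ m1 h1 h2
    · exact okMove_sound D e k z r r' _ _ m2 h1 h2
  · subst h3
    rcases hx with rfl | rfl
    · exact okMove_sound D e k z r r' _ _ m3 h1 h2
    · exact okMove_sound D e k z r r' _ _ m4 h1 h2
  · subst h3
    rcases hx with rfl | rfl
    · exact okMove_sound D e k z r r' _ _ m5 h1 h2
    · exact okMove_sound D e k z r r' _ _ m6 h1 h2

theorem chk_sound (D e : ℕ) (x : ℕ → ℕ) (hx : ∀ k, x (k+1) = x k ∨ x (k+1) = x k + 1) :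
    ∀ (zs : List (ℕ × ℕ)) (rs : List Row) (k : ℕ) (r : Row), chk D e k r zs rs = true →
    (∀ j, j ≤ zs.length → feas D e (k+j) (x (k+j)) = true) →
    val (lastRow r rs) (x (k + zs.length)) +
        ∑ j ∈ range zs.length, (zs.getD j (0,0)).1 * x (k+1+j) ≤
      val r (x k) + ∑ j ∈ range zs.length, (nd (x (k+1+j) * D) ((k+1+j) * e) +
        (zs.getD j (0,0)).2 * x (k+1+j)) := by
  intro zs
  induction zs with
  | nil =>
    intro rs k r h _
    cases rs with
    | nil => simp [lastRow]
    | cons r' rs => simp [chk] at h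
  | cons z zs ih =>
    intro rs k r h hf
    cases rs with
    | nil => simp [chk] at h
    | cons r' rs =>
      rw [chk, Bool.and_eq_true] at h
      have h1 := okStep_sound D e k z r r' (x k) (x (k+1)) h.1 (hf 0 (by simp))
        (hf 1 (by simp)) (hx k)
      have h2 := ih rs (k+1) r' h.2 (fun j hj => by
        have := hf (j+1) (by simp; omega)
        rwa [show k + (j+1) = k + 1 + j by omega] at this)
      have e1 : ∑ j ∈ range (z :: zs).length, ((z :: zs).getD j (0,0)).1 * x (k+1+j) =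
          ∑ j ∈ range zs.length, (zs.getD j (0,0)).1 * x (k+1+1+j) + z.1 * x (k+1) := by
        rw [List.length_cons, sum_range_succ']
        simp only [List.getD_cons_succ, List.getD_cons_zero, add_zero]
        congr 1
        refine sum_congr rfl fun j _ => ?_
        rw [show k + 1 + (j+1) = k + 1 + 1 + j by omega]
      have e2 : ∑ j ∈ range (z :: zs).length, (nd (x (k+1+j) * D) ((k+1+j) * e) +
          ((z :: zs).getD j (0,0)).2 * x (k+1+j)) =
          ∑ j ∈ range zs.length, (nd (x (k+1+1+j) * D) ((k+1+1+j) * e) +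
            (zs.getD j (0,0)).2 * x (k+1+1+j)) +
          (nd (x (k+1) * D) ((k+1) * e) + z.2 * x (k+1)) := by
        rw [List.length_cons, sum_range_succ']
        simp only [List.getD_cons_succ, List.getD_cons_zero, add_zero]
        congr 1
        refine sum_congr rfl fun j _ => ?_
        rw [show k + 1 + (j+1) = k + 1 + 1 + j by omega]
      rw [e1, e2, List.length_cons, lastRow, show k + (zs.length + 1) = k + 1 + zs.length by omega]
      omega

/-- total scaled deviation of a list word in the letter `i` -/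
def ev {ι : Type*} [DecidableEq ι] (D e : ℕ) (i : ι) : ℕ → ℕ → List ι → ℕ
  | _, _, [] => 0
  | k, x, a :: l => if a = i then nd ((x+1) * D) ((k+1) * e) + ev D e i (k+1) (x+1) l
      else nd (x * D) ((k+1) * e) + ev D e i (k+1) x l

theorem ev_sound {ι : Type*} [DecidableEq ι] (D e : ℕ) (i : ι) (w : ℕ → ι) :
    ∀ (l : List ι) (k : ℕ), (∀ j (hj : j < l.length), w (k + j) = l[j]) →
    ev D e i k (cn w i k) l = ∑ j ∈ range l.length, nd (cn w i (k+1+j) * D) ((k+1+j) * e) := by
  intro l
  induction l with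
  | nil => intro k _; simp [ev]
  | cons a l ih =>
    intro k h
    have h0 : w k = a := h 0 (by simp)
    have h1 := ih (k+1) (fun j hj => by
      have := h (j+1) (by simp; omega)
      rw [show k + 1 + j = k + (j+1) by omega, this]; simp)
    rw [List.length_cons, sum_range_succ', ev]
    have e1 : ∑ j ∈ range l.length, nd (cn w i (k+1+(j+1)) * D) ((k+1+(j+1)) * e) =
        ∑ j ∈ range l.length, nd (cn w i (k+1+1+j) * D) ((k+1+1+j) * e) := by
      refine sum_congr rfl fun j _ => ?_
      rw [show k + 1 + (j+1) = k + 1 + 1 + j by omega]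
    rw [e1, ← h1, cn_succ, h0, add_zero]
    split_ifs with h2
    · ring
    · rw [add_zero]; ring

variable {ι : Type*} [Fintype ι] [DecidableEq ι]

/-- scaled total deviation -/
def IA (d : ι → ℕ) (D : ℕ) (w : ℕ → ι) : ℕ :=
  ∑ i, ∑ k ∈ range D, nd (cn w i (k+1) * D) ((k+1) * d i)

theorem IA_eq (d : ι → ℕ) (D : ℕ) (hD : 0 < D) (w : ℕ → ι) :
    (IA d D w : ℝ) = AA (fun i => (d i : ℝ) / D) D w * D := by
  unfold IA AA
  push_cast
  rw [sum_comm, sum_mul]
  refine sum_congr rfl fun k _ => ?_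
  rw [sum_mul]
  refine sum_congr rfl fun i _ => ?_
  rw [nd_cast, dl_cn]
  have hD' : (0:ℝ) < D := by exact_mod_cast hD
  rw [← abs_of_pos hD', ← abs_mul, abs_of_pos hD']
  congr 1
  push_cast
  field_simp

/-- The certificate theorem. -/
theorem cert (d : ι → ℕ) (D : ℕ) (hD : 0 < D) (zs : List (ℕ × ℕ)) (hz : zs.length = D)
    (R0 : ι → Row) (R : ι → List Row) (hchk : ∀ i, chk D (d i) 0 (R0 i) zs (R i) = true)
    (V1 : ℕ)
    (hV : V1 + ∑ i, val (R0 i) 0 + ∑ j ∈ range D, (zs.getD j (0,0)).2 * (j+1) <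
      ∑ i, val (lastRow (R0 i) (R i)) (d i) + ∑ j ∈ range D, (zs.getD j (0,0)).1 * (j+1))
    (w0 : ℕ → ι) (hw0 : ∀ i, cn w0 i D = d i) (hV1 : IA d D w0 = V1)
    (w : ℕ → ι) (hw : ∀ i, cn w i D = d i)
    (hopt : Opt (fun i => (d i : ℝ) / D) D w) :
    ¬ (∀ k, k ≤ D → ∀ i, |dl (fun i => (d i : ℝ) / D) w i k| ≤ 1) := by
  intro hΩ
  have hD' : (0:ℝ) < D := by exact_mod_cast hD
  -- optimality
  have h1 := hopt w0 (fun i => by rw [c_eq_cn, c_eq_cn, hw0, hw])
  have h2 : IA d D w ≤ V1 := by
    have h3 := mul_le_mul_of_nonneg_right h1 hD'.le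
    rw [← IA_eq d D hD, ← IA_eq d D hD, hV1] at h3
    exact_mod_cast h3
  -- lower bound
  have hfe : ∀ i, ∀ k, k ≤ D → feas D (d i) k (cn w i k) = true := by
    intro i k hk
    have h3 := hΩ k hk i
    rw [dl_cn, abs_le] at h3
    have h4 : (cn w i k : ℝ) * D - k * d i ≤ D ∧ (k:ℝ) * d i ≤ cn w i k * D + D := by
      have e1 : ((cn w i k : ℝ) - k * ((d i : ℝ) / D)) * D = cn w i k * D - k * d i := by
        field_simp
      constructor
      · have := mul_le_mul_of_nonneg_right h3.2 hD'.le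
        rw [e1] at this; linarith
      · have := mul_le_mul_of_nonneg_right h3.1 hD'.le
        rw [e1] at this; linarith
    unfold feas
    rw [Bool.and_eq_true, Nat.ble_eq, Nat.ble_eq]
    constructor
    · have : (cn w i k : ℝ) * D ≤ k * d i + D := by linarith [h4.1]
      exact_mod_cast this
    · exact_mod_cast h4.2
  have hx : ∀ i k, cn w i (k+1) = cn w i k ∨ cn w i (k+1) = cn w i k + 1 := by
    intro i k; rw [cn_succ]; split_ifs <;> simp
  have h5 : ∀ i, val (lastRow (R0 i) (R i)) (d i) + ∑ j ∈ range D, (zs.getD j (0,0)).1 * cn w i (j+1) ≤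
      val (R0 i) 0 + ∑ j ∈ range D, (nd (cn w i (j+1) * D) ((j+1) * d i) +
        (zs.getD j (0,0)).2 * cn w i (j+1)) := by
    intro i
    have := chk_sound D (d i) (cn w i) (hx i) zs (R i) 0 (R0 i) (hchk i) (fun j hj => by
      rw [zero_add]; exact hfe i j (by omega))
    rw [hz, zero_add, hw i, cn_zero] at this
    simp only [zero_add, add_comm 1] at this
    exact this
  have h6 := sum_le_sum (fun i (_ : i ∈ univ) => h5 i)
  simp only [sum_add_distrib] at h6
  have h7 : ∀ f : ℕ → ℕ, ∑ i, ∑ j ∈ range D, f j * cn w i (j+1) = ∑ j ∈ range D, f j * (j+1) := by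
    intro f
    rw [sum_comm]
    refine sum_congr rfl fun j _ => ?_
    rw [← mul_sum]
    congr 1
    have := sum_B (univ : Finset ι) w (j+1)
    have h8 : ns (univ : Finset ι) w (j+1) = 0 := by simp [ns]
    omega
  rw [h7 (fun j => (zs.getD j (0,0)).1), h7 (fun j => (zs.getD j (0,0)).2)] at h6
  have h9 : ∑ i, ∑ j ∈ range D, nd (cn w i (j+1) * D) ((j+1) * d i) = IA d D w := rfl
  rw [h9] at h6
  omega

end Pool.Agent.JIT
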