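import Mathlib

/-! The rotation lemma: along a rotation by `y ≤ 1/2` the average of `|1 - 2u|`, started at `u = 0`,
is at least `3/8`. -/

namespace Pool.Agent.JIT

open Finset

theorem rot_G (V : ℝ) (h : |V| ≤ 1) : 0 ≤ (1 - V * |V|) / 4 - (3/16) * (1 - V) := by
  rw [abs_le] at h
  rcases abs_cases V with ⟨h1, h2⟩ | ⟨h1, h2⟩ <;> rw [h1]
  · nlinarith
  · nlinarith [sq_nonneg (V + 3/8)]

theorem rot_asc (V V' : ℝ) (y : ℝ) (hy : 0 < y) (h : V' = V - 2 * y) :
    V * |V| - V' * |V'| ≤ 2 * y * (|V| + |V'|) := by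
  have e : 2 * y = V - V' := by linarith
  rw [e]
  have : (V - V') * (|V| + |V'|) = V * |V| - V' * |V'| + (V * |V'| - V' * |V|) := by ring
  rw [this]
  have h3 : V' < V := by linarith
  rcases abs_cases V with ⟨h1, h2⟩ | ⟨h1, h2⟩ <;> rcases abs_cases V' with ⟨h4, h5⟩ | ⟨h4, h5⟩ <;>
    rw [h1, h4] <;> nlinarith

theorem rot_wrap (V V' : ℝ) (y : ℝ) (hy : 0 < y) (hy2 : y ≤ 1/2) (hV : |V| ≤ 1) (hV' : |V'| ≤ 1)
    (h : V' = V - 2 * y + 2) :
    (V * |V| - V' * |V'|) / 4 - (3/16) * (V - V') ≤ y * ((|V| + |V'|) / 2 - 3/8) := by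
  rw [abs_le] at hV hV'
  have h1 : V ≤ 0 := by linarith
  have h2 : 0 ≤ V' := by linarith
  rw [abs_of_nonpos h1, abs_of_nonneg h2]
  have h3 : V = V' + 2 * y - 2 := by linarith
  subst h3
  nlinarith [sq_nonneg (V' - (1 - y)), sq_nonneg (y - 1/2)]

theorem rot (V : ℕ → ℝ) (y : ℝ) (hy : 0 < y) (hy2 : y ≤ 1/2) (n : ℕ) (h0 : V 0 = 1)
    (hV : ∀ k ≤ n, |V k| ≤ 1)
    (hs : ∀ k < n, V (k+1) = V k - 2*y ∨ V (k+1) = V k - 2*y + 2) :
    (3/8 : ℝ) * (n+1) ≤ ∑ k ∈ range (n+1), |V k| := by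
  have key : ∀ m ≤ n, y * (1/2 + 3/8 * m) + ((1 - V m * |V m|) / 4 - (3/16) * (1 - V m)) ≤
      y * (∑ k ∈ range (m+1), |V k| - |V m| / 2) := by
    intro m
    induction m with
    | zero =>
      intro _
      simp [h0]
      linarith
    | succ m ih =>
      intro hm
      have ih' := ih (by omega)
      rw [sum_range_succ]
      have hVm := hV m (by omega)
      have hVm' := hV (m+1) hm
      have step : ((1 - V (m+1) * |V (m+1)|) / 4 - (3/16) * (1 - V (m+1))) -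
          ((1 - V m * |V m|) / 4 - (3/16) * (1 - V m)) ≤ y * ((|V m| + |V (m+1)|) / 2 - 3/8) := by
        rcases hs m (by omega) with h | h
        · have := rot_asc (V m) (V (m+1)) y hy h
          have e : V m - V (m+1) = 2 * y := by linarith
          nlinarith
        · have := rot_wrap (V m) (V (m+1)) y hy hy2 hVm hVm' h
          linarith
      push_cast
      nlinarith
  have h1 := key n le_rfl
  have h2 := rot_G (V n) (hV n le_rfl)
  have h3 := abs_nonneg (V n)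
  have h4 : y * (1/2 + 3/8 * n) ≤ y * (∑ k ∈ range (n+1), |V k| - |V n| / 2) := by linarith
  have h5 := le_of_mul_le_mul_left h4 hy
  linarith

end Pool.Agent.JIT
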