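import Pool.Agent.JIT.Basic
import Pool.Agent.JIT.Rot

/-! The local configuration at the first deviation below `-1`, for four letters. -/

namespace Pool.Agent.JIT

open Finset

variable {ι : Type*} [Fintype ι] [DecidableEq ι]

omit [Fintype ι] in
/-- no placement of `i` at the indices `p, ..., p+T-1` -/
theorem dl_noplace (r : ι → ℝ) (w : ℕ → ι) (i : ι) (p T : ℕ)
    (h : ∀ x, p ≤ x → x < p + T → w x ≠ i) : dl r w i (p+T) = dl r w i p - T * r i := by
  induction T with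
  | zero => simp
  | succ T ih =>
    have h1 := ih (fun x h1 h2 => h x h1 (by omega))
    have h2 := h (p+T) (by omega) (by omega)
    rw [← add_assoc, dl_succ, if_neg h2, h1]; push_cast; ring

omit [Fintype ι] in
theorem dl_ge (r : ι → ℝ) (w : ℕ → ι) (i : ι) (p T : ℕ) :
    dl r w i p - T * r i ≤ dl r w i (p+T) := by
  induction T with
  | zero => simp
  | succ T ih =>
    rw [← add_assoc, dl_succ]
    have : (0:ℝ) ≤ if w (p+T) = i then 1 else 0 := by split_ifs <;> norm_num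
    push_cast; linarith

theorem sum_reflect (f : ℕ → ℝ) (a t : ℕ) (h : a ≤ t) :
    ∑ k ∈ Ioc a t, f k = ∑ j ∈ range (t - a), f (t - j) := by
  obtain ⟨m, rfl⟩ := Nat.exists_eq_add_of_le h
  clear h
  rw [show a + m - a = m by omega]
  induction m with
  | zero => simp
  | succ m ih =>
    rw [← add_assoc, sum_Ioc_succ_top (by omega), ih, sum_range_succ']
    simp only [Nat.sub_zero]
    congr 1
    refine sum_congr rfl fun j _ => ?_
    congr 1; omega

theorem sum_lin (A B : ℝ) (T : ℕ) :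
    ∑ j ∈ range T, (A - 2 * j * B) = T * A - T * (T - 1) * B := by
  induction T with
  | zero => simp
  | succ T ih => rw [sum_range_succ, ih]; push_cast; ring

theorem sum_shift (f : ℕ → ℝ) (p T : ℕ) : ∑ k ∈ Ioc p (p+T), f k = ∑ j ∈ range T, f (p+1+j) := by
  induction T with
  | zero => simp
  | succ T ih =>
    rw [← add_assoc, sum_Ioc_succ_top (by omega), ih, sum_range_succ]
    congr 2; omega

/-- the configuration at the first negative violation -/
structure Conf (r : ι → ℝ) (w : ℕ → ι) (D : ℕ) where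
  l1 : ι
  l2 : ι
  l3 : ι
  l4 : ι
  h12 : l1 ≠ l2
  h13 : l1 ≠ l3
  h14 : l1 ≠ l4
  h23 : l2 ≠ l3
  h24 : l2 ≠ l4
  h34 : l3 ≠ l4
  t : ℕ
  e : ℕ
  a : ℕ
  b : ℕ
  hopt : Opt r D w
  hr : ∀ i, 0 ≤ r i
  hrs : r l1 + r l2 + r l3 + r l4 = 1
  hsum : ∀ k, dl r w l1 k + dl r w l2 k + dl r w l3 k + dl r w l4 k = 0
  hall : ∀ i, i = l1 ∨ i = l2 ∨ i = l3 ∨ i = l4
  hte : t ≤ e
  heD : e < D
  hwe : w e = l1
  hne : ∀ x, t ≤ x → x < e → w x ≠ l1
  hat : a + 1 < t
  hwt : w (t-1) = l2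
  hba : b < a
  hwa : w a = l3
  hwb : w b = l4
  hna : ∀ x, a < x → x < t → w x ≠ l3
  hnb : ∀ x, b < x → x < t → w x ≠ l4
  hf : ∀ k, k < t → ∀ i, -1 ≤ dl r w i k
  d1 : dl r w l1 t < -1
  d2 : dl r w l2 t ≤ 0
  d3 : 0 < dl r w l3 t
  d3' : dl r w l3 t < 1
  d4 : 0 < dl r w l4 t
  d4' : dl r w l4 t < 1

namespace Conf

variable {r : ι → ℝ} {w : ℕ → ι} {D : ℕ} (C : Conf r w D)

theorem late (k : ℕ) (h1 : C.t ≤ k) (h2 : k ≤ C.e) : pp (dl r w C.l1 k) = -1 := by
  apply pp_of_le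
  obtain ⟨m, rfl⟩ := Nat.exists_eq_add_of_le h1
  rw [dl_noplace r w C.l1 C.t m (fun x h3 h4 => C.hne x h3 (by omega))]
  have := C.d1
  have := mul_nonneg (Nat.cast_nonneg (α := ℝ) m) (C.hr C.l1)
  linarith

/-- truncated swap with the late letter -/
theorem swap_late (p : ℕ) (hp : p < C.t) :
    1 + pm (dl r w (w p) C.t) ≤
      ∑ k ∈ Ioc p (C.t - 1), (pp (dl r w C.l1 k) - pm (dl r w (w p) k)) := by
  have h := swap_opt r D w C.hopt p C.e (by have := C.hte; omega) C.heD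
  rw [C.hwe, ← sum_Ioc_consecutive _ (show p ≤ C.t - 1 by omega) (show C.t - 1 ≤ C.e by have := C.hte; omega)] at h
  have h2 : ∑ k ∈ Ioc (C.t - 1) C.e, (pp (dl r w C.l1 k) - pm (dl r w (w p) k)) ≤
      ∑ k ∈ Ioc (C.t - 1) C.e, (if k = C.t then -1 - pm (dl r w (w p) C.t) else 0) := by
    refine sum_le_sum fun k hk => ?_
    rw [mem_Ioc] at hk
    rw [C.late k (by omega) hk.2]
    by_cases hkt : k = C.t
    · rw [if_pos hkt, hkt]
    · rw [if_neg hkt]
      have := neg_one_le_pm (dl r w (w p) k)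
      linarith
  rw [sum_ite_eq' , if_pos (by rw [mem_Ioc]; exact ⟨by omega, C.hte⟩)] at h2
  linarith

/-- the first exchange of the letter at `p` with a later `i` -/
theorem first_ex (p : ℕ) (hp : p + 1 < C.t) (i : ι)
    (hi : i = C.l1 ∨ ∃ x, p < x ∧ x < C.t ∧ w x = i) :
    ∃ T : ℕ, 1 ≤ T ∧ p + T < C.t ∧ (∀ x, p < x → x < p + T → w x ≠ i) ∧
      (i ≠ C.l1 → w (p+T) = i) ∧
      0 ≤ ∑ j ∈ range T, (pp (dl r w i (p+1+j)) - pm (dl r w (w p) (p+1+j))) := by
  classical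
  by_cases hex : ∃ x, p < x ∧ x < C.t ∧ w x = i
  · have hs := Nat.find_spec hex
    have hm := fun x (hx : x < Nat.find hex) => Nat.find_min hex hx
    set x := Nat.find hex with hx
    refine ⟨x - p, by omega, by omega, ?_, ?_, ?_⟩
    · intro y h1 h2 h3
      exact hm y (by omega) ⟨h1, by omega, h3⟩
    · intro _
      rw [show p + (x - p) = x by omega]; exact hs.2.2
    · have h := swap_opt r D w C.hopt p x hs.1 (by have := C.hte; have := C.heD; omega)
      rw [hs.2.2] at h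
      rw [← sum_shift (fun k => pp (dl r w i k) - pm (dl r w (w p) k)) p (x-p),
        show p + (x - p) = x by omega]
      exact h
  · have hi1 : i = C.l1 := by
      rcases hi with h | h
      · exact h
      · exact absurd h hex
    subst hi1
    refine ⟨C.t - 1 - p, by omega, by omega, ?_, ?_, ?_⟩
    · intro y h1 h2 h3
      exact hex ⟨y, h1, by omega, h3⟩
    · intro h; exact absurd rfl h
    · have h := C.swap_late p (by omega)
      have h2 := neg_one_le_pm (dl r w (w p) C.t)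
      rw [← sum_shift (fun k => pp (dl r w C.l1 k) - pm (dl r w (w p) k)) p (C.t - 1 - p),
        show p + (C.t - 1 - p) = C.t - 1 by omega]
      linarith

theorem first_lin (p : ℕ) (hp : p + 1 < C.t) (i : ι) (B ρ : ℝ)
    (hi : i = C.l1 ∨ ∃ x, p < x ∧ x < C.t ∧ w x = i)
    (hB : ∀ j : ℕ, p + 1 + j < C.t → 2 * (B - j * ρ) - 1 ≤ pm (dl r w (w p) (p+1+j))) :
    ∃ T : ℕ, 1 ≤ T ∧ p + T < C.t ∧ (∀ x, p < x → x < p + T → w x ≠ i) ∧
      (i ≠ C.l1 → w (p+T) = i) ∧
      ((T:ℝ) - 1) * (r i - ρ) ≤ 2 * (dl r w i (p+1) + 1 - B) := by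
  obtain ⟨T, h1, h2, h3, h4, h5⟩ := C.first_ex p hp i hi
  refine ⟨T, h1, h2, h3, h4, ?_⟩
  have h6 : ∑ j ∈ range T, (pp (dl r w i (p+1+j)) - pm (dl r w (w p) (p+1+j))) ≤
      ∑ j ∈ range T, (2 * (dl r w i (p+1) + 1 - B) - 2 * (j:ℝ) * (r i - ρ)) := by
    refine sum_le_sum fun j hj => ?_
    rw [mem_range] at hj
    have e1 : dl r w i (p+1+j) = dl r w i (p+1) - j * r i :=
      dl_noplace r w i (p+1) j (fun x hx1 hx2 => h3 x (by omega) (by omega))
    have e2 := C.hf (p+1+j) (by omega) i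
    have e3 := pp_le _ e2
    have e4 := hB j (by omega)
    rw [e1] at e3
    rw [e1]
    linarith
  rw [sum_lin] at h6
  have h7 : 0 ≤ (T:ℝ) * (2 * (dl r w i (p+1) + 1 - B) - ((T:ℝ) - 1) * (r i - ρ)) := by
    nlinarith
  have h8 : (0:ℝ) < T := by exact_mod_cast h1
  have := (mul_nonneg_iff_of_pos_left h8).1 h7
  linarith

end Conf

end Pool.Agent.JIT
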