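import Pool.Agent.JIT.Conf

namespace Pool.Agent.JIT

open Finset

variable {ι : Type*} [Fintype ι] [DecidableEq ι]

namespace Conf

variable {r : ι → ℝ} {w : ℕ → ι} {D : ℕ} (C : Conf r w D)

theorem d3_at (k : ℕ) (h1 : C.a < k) (h2 : k ≤ C.t) :
    dl r w C.l3 k = dl r w C.l3 C.t + (C.t - k : ℕ) * r C.l3 := by
  have := dl_noplace r w C.l3 k (C.t - k) (fun x hx1 hx2 => C.hna x (by omega) (by omega))
  rw [show k + (C.t - k) = C.t by omega] at this
  linarith

theorem d4_at (k : ℕ) (h1 : C.b < k) (h2 : k ≤ C.t) :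
    dl r w C.l4 C.t ≤ dl r w C.l4 k := by
  have := dl_noplace r w C.l4 k (C.t - k) (fun x hx1 hx2 => C.hnb x (by omega) (by omega))
  rw [show k + (C.t - k) = C.t by omega] at this
  have := mul_nonneg (Nat.cast_nonneg (α := ℝ) (C.t - k)) (C.hr C.l4)
  linarith

theorem letters (x : ℕ) (h1 : C.a < x) (h2 : x < C.t) : w x = C.l1 ∨ w x = C.l2 := by
  rcases C.hall (w x) with h | h | h | h
  · exact Or.inl h
  · exact Or.inr h
  · exact absurd h (C.hna x h1 h2)
  · exact absurd h (C.hnb x (by have := C.hba; omega) h2)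

/-- `δ_3` just after its last placement is below one -/
theorem d3_lt : dl r w C.l3 (C.a + 1) < 1 := by
  by_contra hcon
  rw [not_lt] at hcon
  have hat := C.hat
  have h := swap_opt r D w C.hopt C.a (C.a+1) (by omega) (by have := C.hte; have := C.heD; omega)
  rw [C.hwa] at h
  have e : Ioc C.a (C.a+1) = {C.a+1} := by ext x; rw [mem_Ioc, mem_singleton]; omega
  rw [e, sum_singleton, pm_one _ hcon] at h
  have h1 := nonneg_of_pp _ (show 1 ≤ pp (dl r w (w (C.a+1)) (C.a+1)) by linarith)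
  have h2 := C.hsum (C.a+1)
  have h3 := C.d4_at (C.a+1) (by have := C.hba; omega) (by omega)
  have h4 := C.d4
  rcases C.letters (C.a+1) (by omega) (by omega) with h5 | h5
  · rw [h5] at h1
    have := C.hf (C.a+1) (by omega) C.l2
    linarith
  · rw [h5] at h1
    have := C.hf (C.a+1) (by omega) C.l1
    linarith

theorem pm3 (k : ℕ) (h1 : C.a < k) (h2 : k ≤ C.t) :
    pm (dl r w C.l3 k) = 2 * (dl r w C.l3 C.t + (C.t - k : ℕ) * r C.l3) - 1 := by
  rw [← C.d3_at k h1 h2]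
  apply pm_eq
  · rw [C.d3_at k h1 h2]
    have := mul_nonneg (Nat.cast_nonneg (α := ℝ) (C.t - k)) (C.hr C.l3)
    have := C.d3
    linarith
  · have h3 := C.d3_lt
    rw [C.d3_at (C.a+1) (by omega) (by have := C.hat; omega)] at h3
    rw [C.d3_at k h1 h2]
    have h4 : ((C.t - k : ℕ) : ℝ) ≤ ((C.t - (C.a+1) : ℕ) : ℝ) := by
      exact_mod_cast (by omega : C.t - k ≤ C.t - (C.a+1))
    have := mul_le_mul_of_nonneg_right h4 (C.hr C.l3)
    linarith

theorem n1r3 : ((C.t - (C.a+1) : ℕ) : ℝ) * r C.l3 < 1 := by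
  have h3 := C.d3_lt
  rw [C.d3_at (C.a+1) (by omega) (by have := C.hat; omega)] at h3
  have := C.d3
  linarith

theorem r23 : r C.l3 < r C.l2 := by
  have hat := C.hat
  by_contra hcon
  rw [not_lt] at hcon
  by_cases hex : ∃ x, C.a < x ∧ x < C.t - 1 ∧ w x = C.l2
  · obtain ⟨x, hx1, hx2, hx3⟩ := hex
    have e1 : dl r w C.l2 C.t = dl r w C.l2 (C.t - 1) + 1 - r C.l2 := by
      have := dl_succ r w C.l2 (C.t - 1)
      rw [if_pos C.hwt, show C.t - 1 + 1 = C.t by omega] at this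
      linarith
    have e2 := dl_ge r w C.l2 (x+1) (C.t - 1 - (x+1))
    rw [show x + 1 + (C.t - 1 - (x+1)) = C.t - 1 by omega] at e2
    have e3 : dl r w C.l2 (x+1) = dl r w C.l2 x + 1 - r C.l2 := by
      have := dl_succ r w C.l2 x
      rw [if_pos hx3] at this
      linarith
    have e4 := C.hf x (by omega) C.l2
    have e5 := C.d2
    have e6 : ((C.t - (C.a+1) : ℕ) : ℝ) * r C.l3 < 1 := C.n1r3
    have e7 : ((C.t - 1 - (x+1) : ℕ) : ℝ) + 2 ≤ ((C.t - (C.a+1) : ℕ) : ℝ) := by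
      exact_mod_cast (by omega : C.t - 1 - (x+1) + 2 ≤ C.t - (C.a+1))
    have e8 : (((C.t - 1 - (x+1) : ℕ) : ℝ) + 2) * r C.l2 ≤ ((C.t - (C.a+1) : ℕ) : ℝ) * r C.l3 := by
      have := mul_le_mul_of_nonneg_right e7 (C.hr C.l2)
      have := mul_le_mul_of_nonneg_left hcon (Nat.cast_nonneg (α := ℝ) (C.t - (C.a+1)))
      linarith
    linarith
  · have h := swap_opt r D w C.hopt C.a (C.t - 1) (by omega) (by have := C.hte; have := C.heD; omega)
    rw [C.hwa, C.hwt] at h
    have h2 : ∑ k ∈ Ioc C.a (C.t - 1), (pp (dl r w C.l2 k) - pm (dl r w C.l3 k)) <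
        ∑ k ∈ Ioc C.a (C.t - 1), (0:ℝ) := by
      apply sum_lt_sum_of_nonempty
      · exact ⟨C.t - 1, by rw [mem_Ioc]; omega⟩
      · intro k hk
        rw [mem_Ioc] at hk
        have e0 := C.hf k (by omega) C.l2
        have e1 := pp_le _ e0
        rw [C.pm3 k hk.1 (by omega)]
        have e2 := dl_noplace r w C.l2 k (C.t - 1 - k)
          (fun x hx1 hx2 => fun h => hex ⟨x, by omega, by omega, h⟩)
        rw [show k + (C.t - 1 - k) = C.t - 1 by omega] at e2
        have e3 : dl r w C.l2 C.t = dl r w C.l2 (C.t - 1) + 1 - r C.l2 := by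
          have := dl_succ r w C.l2 (C.t - 1)
          rw [if_pos C.hwt, show C.t - 1 + 1 = C.t by omega] at this
          linarith
        have e4 : ((C.t - k : ℕ) : ℝ) = ((C.t - 1 - k : ℕ) : ℝ) + 1 := by
          rw [show C.t - k = C.t - 1 - k + 1 by omega]; push_cast; ring
        have e5 := mul_le_mul_of_nonneg_left hcon (Nat.cast_nonneg (α := ℝ) (C.t - 1 - k))
        have e6 := C.d2
        have e7 := C.d3
        rw [e4]
        linarith
    rw [sum_const_zero] at h2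
    linarith

theorem r13 : r C.l3 ≤ r C.l1 := by
  have hat := C.hat
  by_contra hcon
  rw [not_le] at hcon
  by_cases hex : ∃ x, C.a < x ∧ x < C.t ∧ w x = C.l1
  · obtain ⟨x, hx1, hx2, hx3⟩ := hex
    have e2 := dl_ge r w C.l1 (x+1) (C.t - (x+1))
    rw [show x + 1 + (C.t - (x+1)) = C.t by omega] at e2
    have e3 : dl r w C.l1 (x+1) = dl r w C.l1 x + 1 - r C.l1 := by
      have := dl_succ r w C.l1 x
      rw [if_pos hx3] at this
      linarith
    have e4 := C.hf x (by omega) C.l1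
    have e5 := C.d1
    have e6 : ((C.t - (C.a+1) : ℕ) : ℝ) * r C.l3 < 1 := C.n1r3
    have e7 : ((C.t - (x+1) : ℕ) : ℝ) + 1 ≤ ((C.t - (C.a+1) : ℕ) : ℝ) := by
      exact_mod_cast (by omega : C.t - (x+1) + 1 ≤ C.t - (C.a+1))
    have e8 : (((C.t - (x+1) : ℕ) : ℝ) + 1) * r C.l1 ≤ ((C.t - (C.a+1) : ℕ) : ℝ) * r C.l3 := by
      have := mul_le_mul_of_nonneg_right e7 (C.hr C.l1)
      have := mul_le_mul_of_nonneg_left hcon.le (Nat.cast_nonneg (α := ℝ) (C.t - (C.a+1)))
      linarith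
    linarith
  · have h := C.swap_late C.a (by omega)
    rw [C.hwa, C.pm3 C.t (by omega) le_rfl] at h
    have h2 : ∑ k ∈ Ioc C.a (C.t - 1), (pp (dl r w C.l1 k) - pm (dl r w C.l3 k)) ≤
        ∑ k ∈ Ioc C.a (C.t - 1), (0:ℝ) := by
      apply sum_le_sum
      intro k hk
      rw [mem_Ioc] at hk
      have e0 := C.hf k (by omega) C.l1
      have e1 := pp_le _ e0
      rw [C.pm3 k hk.1 (by omega)]
      have e2 := dl_noplace r w C.l1 k (C.t - k)
        (fun x hx1 hx2 => fun h => hex ⟨x, by omega, by omega, h⟩)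
      rw [show k + (C.t - k) = C.t by omega] at e2
      have e5 := mul_le_mul_of_nonneg_left hcon.le (Nat.cast_nonneg (α := ℝ) (C.t - k))
      have e6 := C.d1
      have e7 := C.d3
      linarith
    rw [sum_const_zero] at h2
    have h3 := C.d3
    rw [Nat.sub_self, Nat.cast_zero, zero_mul, add_zero] at h
    linarith

/-- upper bound: `16 δ_4(t) ≤ 11 + 3 r_3` -/
theorem upper : 16 * dl r w C.l4 C.t ≤ 11 + 3 * r C.l3 := by
  have hat := C.hat
  have hba := C.hba
  set h := dl r w C.l4 C.t with hh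
  -- exchanges at b
  have hB : ∀ j : ℕ, C.b + 1 + j < C.t → 2 * (h - j * 0) - 1 ≤ pm (dl r w (w C.b) (C.b+1+j)) := by
    intro j hj
    rw [C.hwb, mul_zero, sub_zero]
    refine le_trans (le_pm h C.d4'.le) (pm_mono (C.d4_at _ (by omega) (by omega)))
  obtain ⟨T1, h11, h12, h13, h14, h15⟩ := C.first_lin C.b (by omega) C.l1 h 0 (Or.inl rfl) hB
  obtain ⟨T2, h21, h22, h23, h24, h25⟩ := C.first_lin C.b (by omega) C.l2 h 0
    (Or.inr ⟨C.t - 1, by omega, by omega, C.hwt⟩) hB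
  obtain ⟨T3, h31, h32, h33, h34, h35⟩ := C.first_lin C.b (by omega) C.l3 h 0
    (Or.inr ⟨C.a, by omega, by omega, C.hwa⟩) hB
  have hp3 : w (C.b + T3) = C.l3 := h34 C.h13.symm
  have hp3a : C.b + T3 ≤ C.a := by
    by_contra hc
    exact C.hna (C.b+T3) (by omega) (by omega) hp3
  have hT1 : (1:ℝ) ≤ T1 := by exact_mod_cast h11
  have hT2 : (1:ℝ) ≤ T2 := by exact_mod_cast h21
  have hT3 : (1:ℝ) ≤ T3 := by exact_mod_cast h31
  have p1 := mul_nonneg (sub_nonneg.2 hT1) (C.hr C.l1)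
  have p2 := mul_nonneg (sub_nonneg.2 hT2) (C.hr C.l2)
  have hs := C.hsum (C.b+1)
  have h4b := C.d4_at (C.b+1) (by omega) (by omega)
  rw [← hh] at h4b
  rw [sub_zero] at h15 h25 h35
  -- (A2)
  have A2 : 4 * h ≤ 3 - ((T3:ℝ) - 1) * r C.l3 / 2 := by linarith
  -- exchanges at p3
  set p := C.b + T3 with hp
  set G := dl r w C.l3 (p+1) with hG
  have hB2 : ∀ j : ℕ, p + 1 + j < C.t →
      2 * (min G 1 - j * r C.l3) - 1 ≤ pm (dl r w (w p) (p+1+j)) := by
    intro j hj
    rw [hp3]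
    have e1 := dl_ge r w C.l3 (p+1) j
    have e2 : min G 1 - j * r C.l3 ≤ 1 := by
      have := mul_nonneg (Nat.cast_nonneg (α := ℝ) j) (C.hr C.l3)
      have := min_le_right G 1
      linarith
    refine le_trans (le_pm _ e2) (pm_mono ?_)
    have := min_le_left G 1
    linarith
  obtain ⟨S1, g11, g12, g13, g14, g15⟩ := C.first_lin p (by omega) C.l1 (min G 1) (r C.l3)
    (Or.inl rfl) hB2
  obtain ⟨S2, g21, g22, g23, g24, g25⟩ := C.first_lin p (by omega) C.l2 (min G 1) (r C.l3)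
    (Or.inr ⟨C.t - 1, by omega, by omega, C.hwt⟩) hB2
  have hS1 : (1:ℝ) ≤ S1 := by exact_mod_cast g11
  have hS2 : (1:ℝ) ≤ S2 := by exact_mod_cast g21
  have q1 := mul_nonneg (sub_nonneg.2 hS1) (sub_nonneg.2 C.r13)
  have q2 := mul_nonneg (sub_nonneg.2 hS2) (sub_nonneg.2 C.r23.le)
  have hs2 := C.hsum (p+1)
  have h4p := C.d4_at (p+1) (by omega) (by omega)
  rw [← hh] at h4p
  have hpos : 0 < h := C.d4
  have hmin : min G 1 ≤ G := min_le_left G 1
  have hG1 : 3 * min G 1 ≤ 2 - h := by linarith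
  have hGlt : min G 1 < 1 := by linarith
  have hGe : min G 1 = G := by
    rcases min_choice G 1 with h' | h'
    · exact h'
    · rw [h'] at hGlt; exact absurd hGlt (lt_irrefl _)
  rw [hGe] at hG1
  have hG2 : G = dl r w C.l3 (C.b+1) + 1 - T3 * r C.l3 := by
    have e1 : dl r w C.l3 p = dl r w C.l3 (C.b+1) - ((T3 - 1 : ℕ) : ℝ) * r C.l3 := by
      have := dl_noplace r w C.l3 (C.b+1) (T3-1) (fun x hx1 hx2 => h33 x (by omega) (by omega))
      rwa [show C.b + 1 + (T3-1) = p by omega] at this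
    have e2 := dl_succ r w C.l3 p
    rw [if_pos hp3, ← hG, e1] at e2
    have e3 : ((T3 - 1 : ℕ) : ℝ) = (T3:ℝ) - 1 := by push_cast [h31]; ring
    rw [e3] at e2
    linarith
  linarith

end Conf

end Pool.Agent.JIT
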