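import Pool.Agent.JIT.Conf2

namespace Pool.Agent.JIT

open Finset

variable {ι : Type*} [Fintype ι] [DecidableEq ι]

namespace Conf

variable {r : ι → ℝ} {w : ℕ → ι} {D : ℕ} (C : Conf r w D)

/-- the price function -/
noncomputable def W (k : ℕ) : ℝ :=
  if k < C.t then -(2 * min (dl r w C.l1 k) (dl r w C.l2 k) + 1) else 1

include C in
theorem r_le_one (i : ι) : r i ≤ 1 := by
  have h1 := C.hr C.l1; have h2 := C.hr C.l2; have h3 := C.hr C.l3; have h4 := C.hr C.l4
  have := C.hrs
  rcases C.hall i with h | h | h | h <;> rw [h] <;> linarith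

/-- between placements of `l1` the letter `l1` stays the smaller one -/
theorem stay1 (k m : ℕ) (hk : C.a < k) (hkm : k + m < C.t)
    (h : dl r w C.l1 k ≤ dl r w C.l2 k) (hw : ∀ x, k ≤ x → x < k + m → w x ≠ C.l1) :
    dl r w C.l1 (k+m) ≤ dl r w C.l2 (k+m) := by
  induction m with
  | zero => simpa using h
  | succ m ih =>
    have ih' := ih (by omega) (fun x h1 h2 => hw x h1 (by omega))
    have h1 := hw (k+m) (by omega) (by omega)
    have h2 : w (k+m) = C.l2 := (C.letters (k+m) (by omega) (by omega)).resolve_left h1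
    rw [← add_assoc, dl_succ, dl_succ, if_neg h1, if_pos h2]
    have := C.hr C.l1
    have := C.r_le_one C.l2
    linarith

theorem stay2 (k m : ℕ) (hk : C.a < k) (hkm : k + m < C.t)
    (h : dl r w C.l2 k ≤ dl r w C.l1 k) (hw : ∀ x, k ≤ x → x < k + m → w x ≠ C.l2) :
    dl r w C.l2 (k+m) ≤ dl r w C.l1 (k+m) := by
  induction m with
  | zero => simpa using h
  | succ m ih =>
    have ih' := ih (by omega) (fun x h1 h2 => hw x h1 (by omega))
    have h1 := hw (k+m) (by omega) (by omega)
    have h2 : w (k+m) = C.l1 := (C.letters (k+m) (by omega) (by omega)).resolve_right h1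
    rw [← add_assoc, dl_succ, dl_succ, if_neg h1, if_pos h2]
    have := C.hr C.l2
    have := C.r_le_one C.l1
    linarith

theorem pp_le_W1 (k : ℕ) (hk : k < C.t) (h : dl r w C.l1 k ≤ dl r w C.l2 k) :
    pp (dl r w C.l1 k) ≤ - C.W k := by
  unfold W
  rw [if_pos hk, min_eq_left h]
  have := pp_le _ (C.hf k hk C.l1)
  linarith

theorem pp_le_W2 (k : ℕ) (hk : k < C.t) (h : dl r w C.l2 k ≤ dl r w C.l1 k) :
    pp (dl r w C.l2 k) ≤ - C.W k := by
  unfold W
  rw [if_pos hk, min_eq_right h]
  have := pp_le _ (C.hf k hk C.l2)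
  linarith

theorem pp_le_W3 (k : ℕ) (hk : C.t ≤ k) (hke : k ≤ C.e) :
    pp (dl r w C.l1 k) ≤ - C.W k := by
  unfold W
  rw [if_neg (by omega), C.late k hk hke]

theorem chain (q : ℕ) (hq : C.a ≤ q) (hqt : q < C.t) :
    Ch r D w q C.e (- ∑ k ∈ Ioc q C.e, C.W k) := by
  have hte := C.hte
  have heD := C.heD
  -- strong induction on `t - q`
  induction hm : C.t - q using Nat.strong_induction_on generalizing q with
  | _ m ih =>
  -- generic step
  have step : ∀ x i, q < x → x ≤ C.e → w x = i → (∀ k, q < k → k ≤ x → pp (dl r w i k) ≤ - C.W k) →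
      (x = C.e ∨ x < C.t) → Ch r D w q C.e (- ∑ k ∈ Ioc q C.e, C.W k) := by
    intro x i hx hxe hwx hk hcase
    have hchx : Ch r D w x C.e (- ∑ k ∈ Ioc x C.e, C.W k) := by
      rcases hcase with h | h
      · subst h
        rw [Ioc_self, sum_empty, neg_zero]
        exact Ch_base r D w _ heD
      · exact ih (C.t - x) (by omega) x (by omega) h rfl
    refine Ch_mono r D w q C.e _ _ ?_ (Ch_step r D w q x C.e _ hx hxe heD hchx)
    rw [← sum_Ioc_consecutive _ hx.le hxe, hwx]
    have : ∑ k ∈ Ioc q x, pp (dl r w i k) ≤ ∑ k ∈ Ioc q x, (- C.W k) :=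
      sum_le_sum fun k hk' => by rw [mem_Ioc] at hk'; exact hk k hk'.1 hk'.2
    rw [sum_neg_distrib] at this
    linarith
  classical
  by_cases hlast : q + 1 = C.t
  · refine step C.e C.l1 (by omega) le_rfl C.hwe ?_ (Or.inl rfl)
    intro k h1 h2
    exact C.pp_le_W3 k (by omega) h2
  · rcases le_total (dl r w C.l1 (q+1)) (dl r w C.l2 (q+1)) with hle | hle
    · -- token `l1`
      have hex : ∃ x, q < x ∧ w x = C.l1 := ⟨C.e, by omega, C.hwe⟩
      have hs := Nat.find_spec hex
      have hmin := fun x (hx : x < Nat.find hex) => Nat.find_min hex hx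
      set x := Nat.find hex with hx
      have hxe : x ≤ C.e := by
        by_contra hc
        exact hmin C.e (by omega) ⟨by omega, C.hwe⟩
      refine step x C.l1 hs.1 hxe hs.2 ?_ ?_
      · intro k h1 h2
        by_cases hkt : k < C.t
        · apply C.pp_le_W1 k hkt
          obtain ⟨m', rfl⟩ := Nat.exists_eq_add_of_le (show q + 1 ≤ k by omega)
          exact C.stay1 (q+1) m' (by omega) hkt hle
            (fun y hy1 hy2 hy3 => hmin y (by omega) ⟨by omega, hy3⟩)
        · exact C.pp_le_W3 k (by omega) (by omega)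
      · by_cases hxt : x < C.t
        · exact Or.inr hxt
        · left
          by_contra hne
          exact C.hne x (by omega) (by omega) hs.2
    · -- token `l2`
      have hex : ∃ x, q < x ∧ w x = C.l2 := ⟨C.t - 1, by omega, C.hwt⟩
      have hs := Nat.find_spec hex
      have hmin := fun x (hx : x < Nat.find hex) => Nat.find_min hex hx
      set x := Nat.find hex with hx
      have hxt : x < C.t := by
        by_contra hc
        exact hmin (C.t - 1) (by omega) ⟨by omega, C.hwt⟩
      refine step x C.l2 hs.1 (by omega) hs.2 ?_ (Or.inr hxt)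
      intro k h1 h2
      apply C.pp_le_W2 k (by omega)
      obtain ⟨m', rfl⟩ := Nat.exists_eq_add_of_le (show q + 1 ≤ k by omega)
      exact C.stay2 (q+1) m' (by omega) (by omega) hle
        (fun y hy1 hy2 hy3 => hmin y (by omega) ⟨by omega, hy3⟩)

theorem key2 : ∑ k ∈ Ioc C.a C.t, pm (dl r w C.l3 k) ≤ - ∑ k ∈ Ioc C.a C.t, C.W k := by
  have hte := C.hte
  have hat := C.hat
  have h := Ch_opt r D w C.hopt C.a C.e _ (C.chain C.a le_rfl (by omega))
  rw [C.hwa, ← sum_Ioc_consecutive _ (show C.a ≤ C.t by omega) hte,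
    ← sum_Ioc_consecutive (fun k => C.W k) (show C.a ≤ C.t by omega) hte] at h
  have h2 : ∑ k ∈ Ioc C.t C.e, (-1:ℝ) ≤ ∑ k ∈ Ioc C.t C.e, pm (dl r w C.l3 k) :=
    sum_le_sum fun k _ => neg_one_le_pm _
  have h3 : ∑ k ∈ Ioc C.t C.e, C.W k = ∑ k ∈ Ioc C.t C.e, (1:ℝ) := by
    refine sum_congr rfl fun k hk => ?_
    rw [mem_Ioc] at hk
    unfold W; rw [if_neg (by omega)]
  have h4 : ∑ k ∈ Ioc C.t C.e, (-1:ℝ) = - ∑ k ∈ Ioc C.t C.e, (1:ℝ) := by
    rw [← sum_neg_distrib]
  linarith

/-- the rotation sequence -/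
theorem W_lower : (3/8 : ℝ) * (((C.t - C.a - 1 : ℕ) : ℝ) + 1) ≤ ∑ k ∈ Ioc C.a C.t, C.W k := by
  have hat := C.hat
  rw [sum_reflect _ _ _ (by omega)]
  have hd : ∀ j, j + 1 ≤ C.t - C.a → dl r w C.l1 (C.t - j) + dl r w C.l2 (C.t - j) ≤
      dl r w C.l1 C.t + dl r w C.l2 C.t := by
    intro j hj
    have e1 := C.hsum (C.t - j)
    have e2 := C.hsum C.t
    have e3 := C.d4_at (C.t - j) (by have := C.hba; omega) (by omega)
    have e4 := C.d3_at (C.t - j) (by omega) (by omega)
    have := mul_nonneg (Nat.cast_nonneg (α := ℝ) (C.t - (C.t - j))) (C.hr C.l3)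
    linarith
  have hn : C.t - C.a = (C.t - C.a - 1) + 1 := by omega
  rw [hn]
  set n := C.t - C.a - 1 with hn'
  rcases le_total (r C.l1) (r C.l2) with hcase | hcase
  · -- `l1` slower
    have hr1 : 0 < r C.l1 := by
      have e1 := dl_succ r w C.l1 (C.t - 1)
      rw [show C.t - 1 + 1 = C.t by omega] at e1
      have e2 := C.hf (C.t - 1) (by omega) C.l1
      have e3 := C.d1
      have : (0:ℝ) ≤ if w (C.t - 1) = C.l1 then 1 else 0 := by split_ifs <;> norm_num
      linarith
    have hr2 : r C.l1 ≤ 1/2 := by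
      have := C.hrs
      have := C.hr C.l3
      have := C.hr C.l4
      linarith
    set V : ℕ → ℝ := fun j => 1 - 2 * (dl r w C.l1 (C.t - j) - dl r w C.l1 C.t) with hV
    have hVr : ∀ k, 1 ≤ k → k ≤ n → |V k| ≤ C.W (C.t - k) := by
      intro k h1 h2
      unfold W
      rw [if_pos (by omega), hV]
      have e1 := hd k (by omega)
      have e2 := C.d1
      have e3 := C.d2
      have e4 := min_le_left (dl r w C.l1 (C.t - k)) (dl r w C.l2 (C.t - k))
      have e5 := min_le_right (dl r w C.l1 (C.t - k)) (dl r w C.l2 (C.t - k))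
      rw [abs_le]
      constructor <;> dsimp only <;> linarith
    have hrot := rot V (r C.l1) hr1 hr2 n (by simp [hV]) ?_ ?_
    · refine le_trans hrot (sum_le_sum fun k hk => ?_)
      rw [mem_range] at hk
      rcases Nat.eq_zero_or_pos k with h0 | h0
      · subst h0
        simp only [hV, Nat.sub_zero, sub_self, mul_zero, sub_zero, abs_one]
        unfold W; rw [if_neg (by omega)]
      · exact hVr k h0 (by omega)
    · intro k hk
      rcases Nat.eq_zero_or_pos k with h0 | h0
      · subst h0; simp [hV]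
      · have e1 := hd k (by omega)
        have e2 := C.d1
        have e3 := C.d2
        have e4 := C.hf (C.t - k) (by omega) C.l1
        have e5 := C.hf (C.t - k) (by omega) C.l2
        rw [abs_le, hV]
        constructor <;> dsimp only <;> linarith
    · intro k hk
      have e1 := dl_succ r w C.l1 (C.t - (k+1))
      rw [show C.t - (k+1) + 1 = C.t - k by omega] at e1
      by_cases hw : w (C.t - (k+1)) = C.l1
      · right
        rw [if_pos hw] at e1
        simp only [hV]; linarith
      · left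
        rw [if_neg hw] at e1
        simp only [hV]; linarith
  · -- `l2` slower
    have hr1 : 0 < r C.l2 := lt_of_le_of_lt (C.hr C.l3) C.r23
    have hr2 : r C.l2 ≤ 1/2 := by
      have := C.hrs
      have := C.hr C.l3
      have := C.hr C.l4
      linarith
    set V : ℕ → ℝ := fun j => if j = 0 then 1 else
      -1 - 2 * (dl r w C.l2 (C.t - j) - dl r w C.l2 C.t) with hV
    have hV0 : V 0 = 1 := by simp [hV]
    have hVk : ∀ k, 1 ≤ k → V k = -1 - 2 * (dl r w C.l2 (C.t - k) - dl r w C.l2 C.t) := by
      intro k hk; simp only [hV]; rw [if_neg (by omega)]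
    have hVr : ∀ k, 1 ≤ k → k ≤ n → |V k| ≤ C.W (C.t - k) := by
      intro k h1 h2
      unfold W
      rw [if_pos (by omega), hVk k h1]
      have e1 := hd k (by omega)
      have e2 := C.d1
      have e3 := C.d2
      have e4 := min_le_left (dl r w C.l1 (C.t - k)) (dl r w C.l2 (C.t - k))
      have e5 := min_le_right (dl r w C.l1 (C.t - k)) (dl r w C.l2 (C.t - k))
      rw [abs_le]
      constructor <;> linarith
    have hrot := rot V (r C.l2) hr1 hr2 n hV0 ?_ ?_
    · refine le_trans hrot (sum_le_sum fun k hk => ?_)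
      rw [mem_range] at hk
      rcases Nat.eq_zero_or_pos k with h0 | h0
      · subst h0
        rw [hV0, abs_one, Nat.sub_zero]
        unfold W; rw [if_neg (by omega)]
      · exact hVr k h0 (by omega)
    · intro k hk
      rcases Nat.eq_zero_or_pos k with h0 | h0
      · subst h0; rw [hV0]; simp
      · have e1 := hd k (by omega)
        have e2 := C.d1
        have e3 := C.d2
        have e4 := C.hf (C.t - k) (by omega) C.l1
        have e5 := C.hf (C.t - k) (by omega) C.l2
        rw [abs_le, hVk k h0]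
        constructor <;> linarith
    · intro k hk
      have e1 := dl_succ r w C.l2 (C.t - (k+1))
      rw [show C.t - (k+1) + 1 = C.t - k by omega] at e1
      rcases Nat.eq_zero_or_pos k with h0 | h0
      · subst h0
        left
        rw [zero_add, if_pos C.hwt, Nat.sub_zero] at e1
        rw [hV0, zero_add, hVk 1 le_rfl]; linarith
      · rw [hVk k h0, hVk (k+1) (by omega)]
        by_cases hw : w (C.t - (k+1)) = C.l2
        · right
          rw [if_pos hw] at e1
          linarith
        · left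
          rw [if_neg hw] at e1
          linarith

include C in
theorem absurd_conf : False := by
  have hat := C.hat
  have h1 := C.key2
  have h2 := C.W_lower
  have h3 := C.upper
  rw [sum_reflect _ _ _ (by omega)] at h1
  set n := C.t - C.a - 1 with hn
  have hn' : C.t - C.a = n + 1 := by omega
  have h4 : ∑ j ∈ range (C.t - C.a), pm (dl r w C.l3 (C.t - j)) =
      ∑ j ∈ range (n+1), ((2 * dl r w C.l3 C.t - 1) - 2 * (j:ℝ) * (- r C.l3)) := by
    rw [hn']
    refine sum_congr rfl fun j hj => ?_
    rw [mem_range] at hj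
    rw [C.pm3 (C.t - j) (by omega) (by omega), show C.t - (C.t - j) = j by omega]
    ring
  rw [h4, sum_lin] at h1
  push_cast at h1
  have hn1 : (1:ℝ) ≤ n := by exact_mod_cast (by omega : 1 ≤ n)
  have hr3 := C.hr C.l3
  have h5 : ((n:ℝ) + 1) * (2 * dl r w C.l3 C.t - 1 + n * r C.l3) ≤ ((n:ℝ)+1) * (-(3/8)) := by
    nlinarith
  have h6 := le_of_mul_le_mul_left h5 (by linarith : (0:ℝ) < (n:ℝ) + 1)
  have h7 : r C.l3 ≤ n * r C.l3 := by nlinarith
  have h8 := C.hsum C.t
  have h9 := C.d1
  have h10 := C.d2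
  linarith

end Conf

end Pool.Agent.JIT
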