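import Pool.Agent.JIT.Dens

/-! From volumes to numbers of instances. -/

namespace Pool.Agent.JIT

open Finset MeasureTheory Metric Filter Topology

variable {n : ℕ}

theorem card_box (n N : ℕ) : {d : Fin n → ℕ | ∀ i, 1 ≤ d i ∧ d i ≤ N}.ncard = N ^ n := by
  have : {d : Fin n → ℕ | ∀ i, 1 ≤ d i ∧ d i ≤ N} =
      ((Fintype.piFinset fun _ : Fin n => Icc 1 N : Finset (Fin n → ℕ)) : Set (Fin n → ℕ)) := by
    ext d; simp [Pi.le_def, forall_and]
  rw [this, Set.ncard_coe_finset, Fintype.card_piFinset]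
  simp

theorem finite_box (n N : ℕ) : {d : Fin n → ℕ | ∀ i, 1 ≤ d i ∧ d i ≤ N}.Finite := by
  have : {d : Fin n → ℕ | ∀ i, 1 ≤ d i ∧ d i ≤ N} =
      ((Fintype.piFinset fun _ : Fin n => Icc 1 N : Finset (Fin n → ℕ)) : Set (Fin n → ℕ)) := by
    ext d; simp [Pi.le_def, forall_and]
  rw [this]
  exact Finset.finite_toSet _

/-- lower bound for the number of instances without the oneness property -/
theorem count_lower (α g : ℝ) (hα : 0 < α) (hg : 0 < g) (v : ℝ)
    (hv : ENNReal.ofReal v < volume (BadU n α g)) :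
    ∃ N0 : ℕ, ∀ N : ℕ, N0 ≤ N →
      v * (N:ℝ) ^ n ≤ ({d : Fin n → ℕ | (∀ i, 1 ≤ d i ∧ d i ≤ N) ∧ ¬ Oneness d}.ncard : ℝ) := by
  classical
  have hopen : IsOpen (BadU n α g) := by
    have : BadU n α g = ⋃ (S : Finset (Fin n)), ⋃ (L : Finset (Fin n)), ⋃ (T : ℕ),
        ⋃ (m : Fin n → ℕ), {z | (∑ i, m i = T ∧ 0 < S.card ∧ Cnd α g L.card) ∧
          Bad α g S L T m z} := by
      ext z; simp [BadU]
    rw [this]
    refine isOpen_iUnion fun S => isOpen_iUnion fun L => isOpen_iUnion fun T =>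
      isOpen_iUnion fun m => ?_
    by_cases h1 : ∑ i, m i = T ∧ 0 < S.card ∧ Cnd α g L.card
    · convert isOpen_bad α g S L T m using 1
      ext z
      simp only [Set.mem_ofPred_eq]
      exact ⟨fun h => h.2, fun h => ⟨h1, h⟩⟩
    · convert isOpen_empty
      ext z
      simp only [Set.mem_ofPred_eq, Set.mem_empty_iff_false, iff_false]
      exact fun h => h1 h.1
  obtain ⟨K, hKU, hK, hvK⟩ := hopen.exists_lt_isCompact hv
  -- finite subcover
  let I := {p : (Finset (Fin n) × Finset (Fin n)) × (ℕ × (Fin n → ℕ)) //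
    ∑ i, p.2.2 i = p.2.1 ∧ 0 < p.1.1.card ∧ Cnd α g p.1.2.card}
  obtain ⟨t, ht⟩ := hK.elim_finite_subcover
    (fun p : I => {z : Fin n → ℝ | Bad α g p.1.1.1 p.1.1.2 p.1.2.1 p.1.2.2 z})
    (fun p => isOpen_bad _ _ _ _ _ _) (by
      intro z hz
      obtain ⟨S, L, T, m, h1, h3⟩ := hKU hz
      rw [Set.mem_iUnion]
      exact ⟨⟨((S, L), (T, m)), h1⟩, h3⟩)
  set V : Set (Fin n → ℝ) := ⋃ p ∈ t, {z : Fin n → ℝ | Bad α g p.1.1.1 p.1.1.2 p.1.2.1 p.1.2.2 z}
    with hV
  have hVo : IsOpen V := isOpen_biUnion fun p _ => isOpen_bad _ _ _ _ _ _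
  obtain ⟨η, hη, hthick⟩ := hK.exists_thickening_subset_open hVo ht
  obtain ⟨N1, hN1⟩ := exists_nat_gt (1 / η)
  set Tm := t.sup (fun p => p.1.2.1) with hTm
  obtain ⟨N2, hN2⟩ := exists_nat_gt (((Tm:ℝ) + 1) / α)
  refine ⟨max (N1 + 1) N2, fun N hN => ?_⟩
  have hNa : N1 + 1 ≤ N := le_trans (le_max_left _ _) hN
  have hNb : N2 ≤ N := le_trans (le_max_right _ _) hN
  have hNpos : 0 < N := by omega
  have hNR : (0:ℝ) < N := by exact_mod_cast hNpos
  have hNη : 1 / (N:ℝ) < η := by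
    rw [div_lt_iff₀ hNR]
    rw [div_lt_iff₀ hη] at hN1
    have : (N1:ℝ) ≤ N := by exact_mod_cast (by omega : N1 ≤ N)
    nlinarith
  set F := (Fintype.piFinset fun _ : Fin n => Icc 1 N).filter (fun d => ¬ Oneness d) with hF
  have hFc : {d : Fin n → ℕ | (∀ i, 1 ≤ d i ∧ d i ≤ N) ∧ ¬ Oneness d}.ncard = F.card := by
    rw [← Set.ncard_coe_finset]
    congr 1
    ext d; simp [hF]
  rw [hFc]
  have hcover : K ⊆ ⋃ d ∈ F, Set.Icc (fun i => ((d i : ℝ) - 1) / N) (fun i => (d i : ℝ) / N) := by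
    intro y hy
    set d : Fin n → ℕ := fun i => ⌈(N:ℝ) * y i⌉₊ with hd
    have hyV : y ∈ V := ht hy
    have hy01 : ∀ i, 0 < y i ∧ y i < 1 := by
      rw [hV] at hyV
      simp only [Set.mem_iUnion] at hyV
      obtain ⟨p, _, hp⟩ := hyV
      exact hp.1
    have h1 : ∀ i, (N:ℝ) * y i ≤ d i := fun i => Nat.le_ceil _
    have h2 : ∀ i, (d i : ℝ) < N * y i + 1 := fun i =>
      Nat.ceil_lt_add_one (mul_nonneg hNR.le (hy01 i).1.le)
    have hmem : (fun i => (d i : ℝ) / N) ∈ V := by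
      apply hthick
      rw [mem_thickening_iff]
      refine ⟨y, hy, ?_⟩
      rw [dist_pi_lt_iff hη]
      intro i
      rw [Real.dist_eq, abs_lt]
      have e1 : y i ≤ (d i : ℝ) / N := by
        rw [le_div_iff₀ hNR]; linarith [h1 i]
      have e2 : (d i : ℝ) / N ≤ y i + 1 / N := by
        rw [div_le_iff₀ hNR, add_mul, div_mul_cancel₀ _ hNR.ne']
        linarith [h2 i]
      constructor <;> linarith
    have hmem' := hmem
    rw [hV] at hmem'
    simp only [Set.mem_iUnion] at hmem'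
    obtain ⟨p, hpt, hp⟩ := hmem'
    have hTp : p.1.2.1 ≤ Tm := Finset.le_sup (f := fun p : I => p.1.2.1) hpt
    have hnot : ¬ Oneness d := not_of_bad α g hα hg d N p.1.1.1 p.1.1.2 p.1.2.1 p.1.2.2 hp p.2.1
      p.2.2.1 p.2.2.2 (by
        rw [div_lt_iff₀ hα] at hN2
        have f1 : (N2:ℝ) ≤ N := by exact_mod_cast hNb
        have f2 : (p.1.2.1 : ℝ) ≤ Tm := by exact_mod_cast hTp
        have f3 := mul_le_mul_of_nonneg_right f1 hα.le
        linarith)
    rw [Set.mem_iUnion₂]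
    refine ⟨d, ?_, ?_⟩
    · rw [hF, mem_filter, Fintype.mem_piFinset]
      refine ⟨fun i => ?_, hnot⟩
      rw [mem_Icc]
      constructor
      · have : (0:ℝ) < d i := lt_of_lt_of_le (mul_pos hNR (hy01 i).1) (h1 i)
        exact_mod_cast this
      · have := (hp.1 i).2
        rw [div_lt_one hNR] at this
        have : d i < N := by exact_mod_cast this
        omega
    · rw [Set.mem_Icc]
      constructor
      · intro i
        show ((d i : ℝ) - 1) / N ≤ y i
        rw [div_le_iff₀ hNR]; linarith [h2 i]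
      · intro i
        show y i ≤ (d i : ℝ) / N
        rw [le_div_iff₀ hNR]; linarith [h1 i]
  have hvol : volume K ≤ ENNReal.ofReal (F.card * (1 / (N:ℝ)) ^ n) := by
    calc volume K ≤ volume (⋃ d ∈ F, Set.Icc (fun i => ((d i : ℝ) - 1) / N)
          (fun i => (d i : ℝ) / N)) := measure_mono hcover
      _ ≤ ∑ d ∈ F, volume (Set.Icc (fun i => ((d i : ℝ) - 1) / N) (fun i => (d i : ℝ) / N)) :=
          measure_biUnion_finset_le _ _
      _ = ∑ d ∈ F, ENNReal.ofReal ((1 / (N:ℝ)) ^ n) := by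
          refine sum_congr rfl fun d _ => ?_
          rw [Real.volume_Icc_pi]
          have : ∀ i : Fin n, (d i : ℝ) / N - ((d i : ℝ) - 1) / N = 1 / N := by
            intro i; ring
          simp only [this]
          rw [prod_const, card_univ, Fintype.card_fin, ENNReal.ofReal_pow (by positivity)]
      _ = ENNReal.ofReal (F.card * (1 / (N:ℝ)) ^ n) := by
          rw [sum_const, nsmul_eq_mul, ENNReal.ofReal_mul (by positivity), ENNReal.ofReal_natCast]
  have hlt : ENNReal.ofReal v < ENNReal.ofReal (F.card * (1 / (N:ℝ)) ^ n) :=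
    lt_of_lt_of_le hvK hvol
  have hlt' : v < F.card * (1 / (N:ℝ)) ^ n :=
    lt_of_not_ge fun h => not_lt.2 (ENNReal.ofReal_le_ofReal h) hlt
  have hpow : (0:ℝ) < (N:ℝ) ^ n := by positivity
  have e1 : (F.card : ℝ) * (1 / (N:ℝ)) ^ n * (N:ℝ) ^ n = F.card := by
    rw [mul_assoc, ← mul_pow, one_div_mul_cancel hNR.ne', one_pow, mul_one]
  have := mul_le_mul_of_nonneg_right hlt'.le hpow.le
  rwa [e1] at this

end Pool.Agent.JIT
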