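import Pool.Agent.JIT.Fail

/-! A sharp sufficient condition: `∑ (1 - √(r j / ρ)) ≤ 1` with `ρ` an upper bound for the rates. -/

namespace Pool.Agent.JIT

open Finset

theorem sum_range_lin (a b : ℝ) (n : ℕ) :
    ∑ m ∈ range (n + 1), (2 * (m:ℝ) * a + b) = n * (n + 1) * a + (n + 1) * b := by
  induction n with
  | zero => simp
  | succ n ih => rw [sum_range_succ, ih]; push_cast; ring

theorem pair_neg (r1 r2 δ : ℝ) (h1 : 0 < r1) (hδ0 : 0 < δ) (hδ1 : δ < 1)
    (hsq : (1 - δ) ^ 2 * r1 ≤ r2) (M : ℕ) (hM : δ + M * r2 < 1) (F : ℕ → ℝ)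
    (hA : ∀ m ≤ M, F m ≤ 2 * m * (r1 - r2) - 2 * δ)
    (hB : ∀ m ≤ M, F m ≤ 2 * (1 - δ) - 2 * m * r2) : ∑ m ∈ range (M + 1), F m < 0 := by
  have hM0 : (0:ℝ) ≤ M := Nat.cast_nonneg M
  rcases le_or_gt ((M:ℝ) * r1) 1 with hc | hc
  · have e1 : ∑ m ∈ range (M + 1), F m ≤ ∑ m ∈ range (M + 1), (2 * (m:ℝ) * (r1 - r2) + -(2 * δ)) := by
      refine sum_le_sum fun m hm => ?_
      rw [mem_range] at hm
      have := hA m (by omega)
      linarith
    rw [sum_range_lin] at e1
    have e2 : (M:ℝ) * (r1 - r2) < 2 * δ := by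
      have e3 : (M:ℝ) * (r1 - r2) ≤ M * r1 * (2 * δ - δ ^ 2) := by
        have := mul_le_mul_of_nonneg_left hsq hM0
        nlinarith
      have e4 : (M:ℝ) * r1 * (2 * δ - δ ^ 2) ≤ 1 * (2 * δ - δ ^ 2) := by
        apply mul_le_mul_of_nonneg_right hc
        nlinarith
      nlinarith
    have e5 : (M:ℝ) * (M + 1) * (r1 - r2) + (M + 1) * -(2 * δ) = (M + 1) * (M * (r1 - r2) - 2 * δ) := by
      ring
    rw [e5] at e1
    have : ((M:ℝ) + 1) * (M * (r1 - r2) - 2 * δ) < 0 :=
      mul_neg_of_pos_of_neg (by linarith) (by linarith)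
    linarith
  · set a := ⌊1 / r1⌋₊ with ha
    have ha1 : (a:ℝ) * r1 ≤ 1 := by
      have := Nat.floor_le (one_div_nonneg.2 h1.le)
      rw [← ha, le_div_iff₀ h1] at this
      exact this
    have ha2 : 1 < ((a:ℝ) + 1) * r1 := by
      have := Nat.lt_floor_add_one (1 / r1)
      rw [← ha, div_lt_iff₀ h1] at this
      exact this
    have haM : a < M := by
      have : (a:ℝ) * r1 < M * r1 := by linarith
      have := lt_of_mul_lt_mul_right this h1.le
      exact_mod_cast this
    have e1 : ∑ m ∈ range (M + 1), F m ≤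
        ∑ m ∈ range (a + 1), (2 * (m:ℝ) * r1 + -2) +
        ∑ m ∈ range (M + 1), (2 * (m:ℝ) * (-r2) + 2 * (1 - δ)) := by
      rw [← sum_range_add_sum_Ico F (show a + 1 ≤ M + 1 by omega),
        ← sum_range_add_sum_Ico (fun m : ℕ => 2 * (m:ℝ) * (-r2) + 2 * (1 - δ))
          (show a + 1 ≤ M + 1 by omega), ← add_assoc, ← sum_add_distrib]
      apply add_le_add
      · refine sum_le_sum fun m hm => ?_
        rw [mem_range] at hm
        have := hA m (by omega)
        linarith
      · refine sum_le_sum fun m hm => ?_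
        rw [mem_Ico] at hm
        have := hB m (by omega)
        linarith
    rw [sum_range_lin, sum_range_lin] at e1
    have hab : (a:ℝ) + 1 ≤ M := by exact_mod_cast haM
    -- pass to `R = 1 / r1`
    set u : ℝ := 1 - δ with hu
    have hu0 : 0 < u := by rw [hu]; linarith
    set R : ℝ := 1 / r1 with hR
    have hR0 : 0 < R := by rw [hR]; positivity
    have hRr : R * r1 = 1 := by rw [hR]; field_simp
    have hθ0 : 0 ≤ R - a := by
      rw [hR, sub_nonneg, le_div_iff₀ h1]; exact ha1
    have hθ1 : R - a ≤ 1 := by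
      have : R ≤ (a:ℝ) + 1 := by rw [hR, div_le_iff₀ h1]; exact ha2.le
      linarith
    have hcR : u * M < R := by
      rw [hR, lt_div_iff₀ h1]
      have e2 : (M:ℝ) * (u ^ 2 * r1) ≤ M * r2 := mul_le_mul_of_nonneg_left hsq hM0
      have e3 : u * (u * M * r1) < u * 1 := by nlinarith
      exact lt_of_mul_lt_mul_left e3 hu0.le
    have hcR2 : R - u * M ≤ R * δ := by
      have : u * R ≤ u * M := by
        apply mul_le_mul_of_nonneg_left _ hu0.le
        linarith
      have hδu : δ = 1 - u := by rw [hu]; ring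
      rw [hδu]; linarith
    have hG : (a:ℝ) * (a + 1) * r1 + (a + 1) * -2 + (M * (M + 1) * (-r2) + (M + 1) * (2 * u)) < 0 := by
      have e2 : (M:ℝ) * (M + 1) * (u ^ 2 * r1) ≤ M * (M + 1) * r2 :=
        mul_le_mul_of_nonneg_left hsq (by positivity)
      have e3 : (a:ℝ) * (a + 1) * r1 + (a + 1) * -2 - M * (M + 1) * (u ^ 2 * r1) +
          (M + 1) * (2 * u) = r1 * (-(R - u * M) ^ 2 - (R - a) * (1 - (R - a)) - R * δ +
            u * (R - u * M)) := by
        have hδu : δ = 1 - u := by rw [hu]; ring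
        rw [hδu]
        have hr1 : r1 = 1 / R := by rw [hR]; field_simp
        rw [hr1]
        field_simp
        ring
      have e4 : -(R - u * M) ^ 2 - (R - a) * (1 - (R - a)) - R * δ + u * (R - u * M) < 0 := by
        have f1 : 0 ≤ (R - a) * (1 - (R - a)) := mul_nonneg hθ0 (by linarith)
        have f2 : 0 < R - u * M := by linarith
        have f3 : u * (R - u * M) ≤ (R - u * M) := by
          have : u ≤ 1 := by rw [hu]; linarith
          nlinarith
        have f4 : 0 < (R - u * M) ^ 2 := by positivity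
        linarith
      have e5 := mul_neg_of_pos_of_neg h1 e4
      linarith
    linarith

theorem pair_neg' (r1 r2 δ : ℝ) (h1 : 0 < r1) (hδ0 : 0 < δ) (hδ1 : δ < 1) (h2 : 0 ≤ r2)
    (hsq : (1 - δ) ^ 2 * r1 ≤ r2) (F : ℕ → ℝ) (n : ℕ)
    (hA : ∀ m ≤ n, δ + m * r2 < 1 → F m ≤ 2 * m * (r1 - r2) - 2 * δ)
    (hB : ∀ m ≤ n, δ + m * r2 < 1 → F m ≤ 2 * (1 - δ) - 2 * m * r2)
    (hC : ∀ m ≤ n, 1 ≤ δ + m * r2 → F m ≤ 0) : ∑ m ∈ range (n + 1), F m < 0 := by
  induction n with
  | zero =>
    apply pair_neg r1 r2 δ h1 hδ0 hδ1 hsq 0 (by push_cast; linarith) F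
    · intro m hm
      exact hA m hm (by have : m = 0 := by omega
                        subst this; push_cast; linarith)
    · intro m hm
      exact hB m hm (by have : m = 0 := by omega
                        subst this; push_cast; linarith)
  | succ n ih =>
    rcases lt_or_ge (δ + ((n + 1 : ℕ) : ℝ) * r2) 1 with h | h
    · have hall : ∀ m ≤ n + 1, δ + (m:ℝ) * r2 < 1 := by
        intro m hm
        have : (m:ℝ) ≤ ((n + 1 : ℕ) : ℝ) := by exact_mod_cast hm
        have := mul_le_mul_of_nonneg_right this h2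
        linarith
      exact pair_neg r1 r2 δ h1 hδ0 hδ1 hsq (n+1) h F (fun m hm => hA m hm (hall m hm))
        (fun m hm => hB m hm (hall m hm))
    · rw [sum_range_succ]
      have e1 := ih (fun m hm => hA m (by omega)) (fun m hm => hB m (by omega))
        (fun m hm => hC m (by omega))
      have e2 := hC (n+1) le_rfl h
      linarith

variable {ι : Type*} [Fintype ι] [DecidableEq ι]

theorem neg_crit (r : ι → ℝ) (w : ℕ → ι) (D : ℕ) (hr : ∀ i, 0 ≤ r i) (hrs : ∑ i, r i = 1)
    (hopt : Opt r D w) (hD : ∀ i, dl r w i D = 0) (ρ : ℝ) (hρ : ∀ i, r i ≤ ρ)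
    (hcrit : ∑ j, (1 - √(r j / ρ)) ≤ 1) : ∀ k, k ≤ D → ∀ i, -1 ≤ dl r w i k := by
  by_contra hcon
  push Not at hcon
  obtain ⟨t, htD, l, hl⟩ := hcon
  have hr1 : 0 < r l := by
    rcases lt_or_eq_of_le (hr l) with h | h
    · exact h
    · exfalso
      rw [dl_cn, ← h, mul_zero, sub_zero] at hl
      have : (0:ℝ) ≤ cn w l t := Nat.cast_nonneg _
      linarith
  have hρ0 : 0 < ρ := lt_of_lt_of_le hr1 (hρ l)
  have hnn : ∀ j, 0 ≤ 1 - √(r j / ρ) := by
    intro j
    have : √(r j / ρ) ≤ 1 := by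
      rw [← Real.sqrt_one]
      exact Real.sqrt_le_sqrt ((div_le_one hρ0).2 (hρ j))
    linarith
  have htlt : t < D := by
    rcases Nat.lt_or_ge t D with h | h
    · exact h
    · exfalso
      have : t = D := by omega
      rw [this, hD l] at hl
      linarith
  have hkey : ∀ j, j ≠ l → dl r w j t ≤ 1 - √(r j / ρ) := by
    intro j hj
    by_contra hc
    rw [not_le] at hc
    have hδ0 : 0 < dl r w j t := lt_of_le_of_lt (hnn j) hc
    obtain ⟨p, hp, hpj, hpn⟩ := exists_last w j t (exists_placed r w hr j t hδ0)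
    have hlt : cn w l t < cn w l D := by
      have e1 := hD l
      have e3 := hl
      rw [dl_cn] at e1 e3
      have e2 : (t:ℝ) * r l ≤ D * r l :=
        mul_le_mul_of_nonneg_right (by exact_mod_cast htD) hr1.le
      have : (cn w l t : ℝ) < cn w l D := by linarith
      exact_mod_cast this
    obtain ⟨q, hq1, hq2, hq3, hq4⟩ := exists_first w l t D hlt htD
    have hsw := swap_opt r D w hopt p q (by omega) hq2
    rw [hpj, hq3, ← sum_Ioc_consecutive _ hp.le hq1] at hsw
    have hlate : ∑ k ∈ Ioc t q, (pp (dl r w l k) - pm (dl r w j k)) ≤ 0 := by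
      apply sum_nonpos
      intro k hk
      rw [mem_Ioc] at hk
      have e1 : dl r w l k < -1 := by
        obtain ⟨m, rfl⟩ := Nat.exists_eq_add_of_le hk.1.le
        rw [dl_noplace r w l t m (fun x h3 h4 => hq4 x h3 (by omega))]
        have := mul_nonneg (Nat.cast_nonneg (α := ℝ) m) hr1.le
        linarith
      rw [pp_of_le _ e1.le]
      have := neg_one_le_pm (dl r w j k)
      linarith
    have hearly : ∑ k ∈ Ioc p t, (pp (dl r w l k) - pm (dl r w j k)) < 0 := by
      rw [sum_reflect _ p t hp.le]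
      obtain ⟨n, hn⟩ : ∃ n, t - p = n + 1 := ⟨t - p - 1, by omega⟩
      rw [hn]
      set δ := dl r w j t with hδ
      have hy : ∀ m ≤ n, dl r w j (t - m) = δ + m * r j := by
        intro m hm
        have := dl_noplace r w j (t - m) m (fun x h3 h4 => hpn x (by omega) (by omega))
        rw [show t - m + m = t by omega] at this
        rw [hδ, this]; ring
      have hx : ∀ m ≤ n, pp (dl r w l (t - m)) ≤ 2 * m * r l - 1 := by
        intro m hm
        have e1 := dl_ge r w l (t - m) m
        rw [show t - m + m = t by omega] at e1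
        have e2 : dl r w l (t - m) ≤ -1 + m * r l := by linarith
        rcases le_or_gt (-1) (dl r w l (t - m)) with h | h
        · have := pp_le _ h
          linarith
        · rw [pp_of_le _ h.le]
          have := mul_nonneg (Nat.cast_nonneg (α := ℝ) m) hr1.le
          linarith
      have hge1 : ∀ m ≤ n, 1 ≤ δ + (m:ℝ) * r j →
          pp (dl r w l (t - m)) - pm (dl r w j (t - m)) ≤ 0 := by
        intro m hm h
        rw [hy m hm, pm_one _ h]
        have := pp_le_one (dl r w l (t - m))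
        linarith
      rcases lt_or_ge δ 1 with hδ1 | hδ1
      · have hsq : (1 - δ) ^ 2 * r l ≤ r j := by
          have e1 : 1 - δ < √(r j / ρ) := by linarith
          have e2 : (1 - δ) ^ 2 < r j / ρ := by
            have := Real.sq_sqrt (show 0 ≤ r j / ρ from div_nonneg (hr j) hρ0.le)
            nlinarith
          rw [lt_div_iff₀ hρ0] at e2
          have e3 := mul_le_mul_of_nonneg_left (hρ l) (sq_nonneg (1 - δ))
          linarith
        apply pair_neg' (r l) (r j) δ hr1 hδ0 hδ1 (hr j) hsq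
        · intro m hm h
          rw [hy m hm, pm_eq _ (by have := mul_nonneg (Nat.cast_nonneg (α := ℝ) m) (hr j); linarith)
            h.le]
          have := hx m hm
          linarith
        · intro m hm h
          rw [hy m hm, pm_eq _ (by have := mul_nonneg (Nat.cast_nonneg (α := ℝ) m) (hr j); linarith)
            h.le]
          have := pp_le_one (dl r w l (t - m))
          linarith
        · exact hge1
      · rw [sum_range_succ']
        have e1 : ∑ m ∈ range n, (pp (dl r w l (t - (m+1))) - pm (dl r w j (t - (m+1)))) ≤ 0 := by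
          apply sum_nonpos
          intro m hm
          rw [mem_range] at hm
          apply hge1 (m+1) (by omega)
          have := mul_nonneg (Nat.cast_nonneg (α := ℝ) (m+1)) (hr j)
          linarith
        have e2 : pp (dl r w l (t - 0)) - pm (dl r w j (t - 0)) < 0 := by
          rw [Nat.sub_zero, pp_of_le _ hl.le, pm_one _ (by rw [← hδ]; exact hδ1)]
          norm_num
        linarith
    linarith
  have hsum := sum_dl r hrs w t
  have e1 : ∑ j, dl r w j t ≤ ∑ j, (1 - √(r j / ρ)) + (dl r w l t - (1 - √(r l / ρ))) := by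
    rw [← add_sum_erase univ _ (mem_univ l), ← add_sum_erase univ (fun j => (1 - √(r j / ρ))) (mem_univ l)]
    have : ∑ x ∈ univ.erase l, dl r w x t ≤ ∑ x ∈ univ.erase l, (1 - √(r x / ρ)) :=
      sum_le_sum fun j hj => hkey j (ne_of_mem_erase hj)
    linarith
  have := hnn l
  linarith

theorem crit (r : ι → ℝ) (w : ℕ → ι) (D : ℕ) (hr : ∀ i, 0 ≤ r i) (hrs : ∑ i, r i = 1)
    (hopt : Opt r D w) (hD : ∀ i, dl r w i D = 0) (ρ : ℝ) (hρ : ∀ i, r i ≤ ρ)
    (hcrit : ∑ j, (1 - √(r j / ρ)) ≤ 1) : ∀ k, k ≤ D → ∀ i, |dl r w i k| ≤ 1 := by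
  intro k hk i
  have h1 := neg_crit r w D hr hrs hopt hD ρ hρ hcrit k hk i
  have hD' : ∀ i, dl r (rev D w) i D = 0 := by
    intro i; rw [dl_rev r D w i D le_rfl (hD i)]; simp [dl_zero]
  have h2 := neg_crit r (rev D w) D hr hrs (Opt_rev r D w hD hopt) hD' ρ hρ hcrit (D - k) (by omega) i
  rw [dl_rev r D w i (D-k) (by omega) (hD i), show D - (D - k) = k by omega] at h2
  rw [abs_le]; constructor <;> linarith

end Pool.Agent.JIT
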