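import Mathlib

/-! Just-in-time sequences: definitions. -/

namespace Pool.Agent.JIT

open Finset

/-- `s` is a just-in-time sequence for the instance `d`: a word of length `D = ∑ i, d i` in which
the letter `i` occurs exactly `d i` times. -/
def IsSeq {n : ℕ} (d : Fin n → ℕ) (s : Fin (∑ i, d i) → Fin n) : Prop :=
  ∀ i, (univ.filter (fun p => s p = i)).card = d i

/-- the number of occurrences of the letter `i` among the first `k` letters of `s` -/
def occ {n D : ℕ} (s : Fin D → Fin n) (i : Fin n) (k : ℕ) : ℕ :=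
  (univ.filter (fun p : Fin D => p.val < k ∧ s p = i)).card

/-- the deviation of the letter `i` at time `k` -/
noncomputable def dev {n : ℕ} (d : Fin n → ℕ) (s : Fin (∑ i, d i) → Fin n) (i : Fin n) (k : ℕ) : ℝ :=
  (occ s i k : ℝ) - k * ((d i : ℝ) / (∑ j, d j : ℕ))

/-- the total absolute deviation `A(s)` -/
noncomputable def totalDev {n : ℕ} (d : Fin n → ℕ) (s : Fin (∑ i, d i) → Fin n) : ℝ :=
  ∑ k ∈ Icc 1 (∑ i, d i), ∑ i, |dev d s i k|

/-- all deviations of `s` are at most one in absolute value -/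
def InOmega {n : ℕ} (d : Fin n → ℕ) (s : Fin (∑ i, d i) → Fin n) : Prop :=
  ∀ i, ∀ k, 1 ≤ k → k ≤ ∑ i, d i → |dev d s i k| ≤ 1

/-- `s` minimises the total absolute deviation -/
def IsOptA {n : ℕ} (d : Fin n → ℕ) (s : Fin (∑ i, d i) → Fin n) : Prop :=
  IsSeq d s ∧ ∀ s', IsSeq d s' → totalDev d s ≤ totalDev d s'

/-- the oneness property: some minimiser of the total absolute deviation has bottleneck at most one -/
def Oneness {n : ℕ} (d : Fin n → ℕ) : Prop :=
  ∃ s, IsOptA d s ∧ InOmega d s

end Pool.Agent.JIT
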