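import Pool.Agent.JIT.Bad

/-! Almost every vector in the good region is certified. -/

namespace Pool.Agent.JIT

open Finset MeasureTheory Metric Filter Topology

variable {n : ℕ}

/-- the union of all certified regions -/
def BadU (n : ℕ) (α g : ℝ) : Set (Fin n → ℝ) :=
  {z | ∃ (S L : Finset (Fin n)) (T : ℕ) (m : Fin n → ℕ),
    (∑ i, m i = T ∧ 0 < S.card ∧ Cnd α g L.card) ∧ Bad α g S L T m z}

theorem isOpen_bad (α g : ℝ) (S L : Finset (Fin n)) (T : ℕ) (m : Fin n → ℕ) :
    IsOpen {z : Fin n → ℝ | Bad α g S L T m z} := by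
  have hc : ∀ i, Continuous (fun z : Fin n → ℝ => T * z i - m i * ∑ k, z k) := fun i =>
    (continuous_const.mul (continuous_apply i)).sub
      (continuous_const.mul (continuous_finsetSum _ fun k _ => continuous_apply k))
  have e1 : IsOpen {z : Fin n → ℝ | ∀ i, 0 < z i ∧ z i < 1} := by
    simp only [Set.ofPred_forall]
    refine isOpen_iInter_of_finite fun i => ?_
    exact (isOpen_lt continuous_const (continuous_apply i)).inter
      (isOpen_lt (continuous_apply i) continuous_const)
  have e2 : IsOpen {z : Fin n → ℝ | ∀ j ∈ S, α < z j} := by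
    simp only [Set.ofPred_forall]
    refine isOpen_iInter_of_finite fun i => isOpen_iInter_of_finite fun _ => ?_
    exact isOpen_lt continuous_const (continuous_apply i)
  have e3 : IsOpen {z : Fin n → ℝ | ∀ i ∈ L, ∀ j ∈ S, g < z i - z j} := by
    simp only [Set.ofPred_forall]
    refine isOpen_iInter_of_finite fun i => isOpen_iInter_of_finite fun _ =>
      isOpen_iInter_of_finite fun j => isOpen_iInter_of_finite fun _ => ?_
    exact isOpen_lt continuous_const ((continuous_apply i).sub (continuous_apply j))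
  have e4 : IsOpen {z : Fin n → ℝ | ∀ i, i ∉ S → T * z i - m i * ∑ k, z k < -1} := by
    simp only [Set.ofPred_forall]
    refine isOpen_iInter_of_finite fun i => isOpen_iInter_of_finite fun _ => ?_
    exact isOpen_lt (hc i) continuous_const
  have e5 : IsOpen {z : Fin n → ℝ | ∀ i ∈ L, -(3 / 2) < T * z i - m i * ∑ k, z k} := by
    simp only [Set.ofPred_forall]
    refine isOpen_iInter_of_finite fun i => isOpen_iInter_of_finite fun _ => ?_
    exact isOpen_lt continuous_const (hc i)
  have e6 : IsOpen {z : Fin n → ℝ | ∀ j ∈ S, T * z j - m j * ∑ k, z k < 21 / 4} := by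
    simp only [Set.ofPred_forall]
    refine isOpen_iInter_of_finite fun i => isOpen_iInter_of_finite fun _ => ?_
    exact isOpen_lt (hc i) continuous_const
  exact e1.inter (e2.inter (e3.inter (e4.inter (e5.inter e6))))

/-- the good region -/
def Good (n : ℕ) (α g : ℝ) : Set (Fin n → ℝ) :=
  {x | (∀ i, 0 < x i ∧ x i < 1) ∧ ∃ S L : Finset (Fin n), n ≤ 5 * S.card ∧ Cnd α g L.card ∧
    (∀ j ∈ S, α < x j) ∧ (∀ i ∈ L, ∀ j ∈ S, g < x i - x j)}

theorem good_null (α g : ℝ) (hg : 0 < g) (hn : 0 < n) :
    volume (Good n α g \ BadU n α g) = 0 := by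
  classical
  set C := Good n α g \ BadU n α g with hC
  set K : ℝ := ((n:ℝ) + 5) * (4 * ((n:ℝ) + 2)) with hK
  have h := IsUnifLocDoublingMeasure.ae_tendsto_measure_inter_div
    (volume : Measure (Fin n → ℝ)) C K
  have hall : ∀ x ∈ C, ¬ (∀ {ι : Type} {l : Filter ι} (w : ι → (Fin n → ℝ)) (δ : ι → ℝ)
      (_ : Tendsto δ l (𝓝[>] 0)) (_ : ∀ᶠ j in l, x ∈ closedBall (w j) (K * δ j)),
      Tendsto (fun j => volume (C ∩ closedBall (w j) (δ j)) / volume (closedBall (w j) (δ j))) l
        (𝓝 1)) := by
    intro x hx hP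
    obtain ⟨⟨hx1, S, L, hx2, hx3, hx5, hx6⟩, hx4⟩ := hx
    obtain ⟨T0, hT0⟩ := exists_bad_ball α g hg x S L hx1 hx5 hx6 hx2 hn
    have hS0 : 0 < S.card := by omega
    have hex : ∀ T : ℕ, ∃ x' : Fin n → ℝ, T0 ≤ T → 0 < T →
        x ∈ closedBall x' (K * (1 / (4 * ((n:ℝ) + 2) * T))) ∧
        closedBall x' (1 / (4 * ((n:ℝ) + 2) * T)) ⊆ BadU n α g := by
      intro T
      by_cases hT : T0 ≤ T ∧ 0 < T
      · obtain ⟨x', m, h1, h2, h3⟩ := hT0 T hT.1 hT.2
        have hTR : (0:ℝ) < T := by exact_mod_cast hT.2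
        refine ⟨x', fun _ _ => ⟨?_, ?_⟩⟩
        · rw [mem_closedBall, dist_pi_le_iff (by positivity)]
          intro i
          rw [Real.dist_eq, abs_sub_comm]
          refine le_trans (h2 i) (le_of_eq ?_)
          rw [hK]; field_simp
        · intro z hz
          rw [mem_closedBall, dist_pi_le_iff (by positivity)] at hz
          refine ⟨S, L, T, m, ⟨h1, hS0, hx3⟩, h3 z fun i => ?_⟩
          have := hz i
          rwa [Real.dist_eq] at this
      · exact ⟨x, fun h1 h2 => absurd ⟨h1, h2⟩ hT⟩
    choose w hw using hex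
    have hlim : Tendsto (fun T : ℕ => 1 / (4 * ((n:ℝ) + 2) * T)) atTop (𝓝[>] 0) := by
      rw [tendsto_nhdsWithin_iff]
      constructor
      · have : Tendsto (fun T : ℕ => 4 * ((n:ℝ) + 2) * T) atTop atTop :=
          Tendsto.const_mul_atTop (by positivity) tendsto_natCast_atTop_atTop
        exact this.const_div_atTop 1
      · filter_upwards [eventually_gt_atTop 0] with T hT
        have : (0:ℝ) < T := by exact_mod_cast hT
        rw [Set.mem_Ioi]; positivity
    have h1 := hP w (fun T : ℕ => 1 / (4 * ((n:ℝ) + 2) * T)) hlim (by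
      filter_upwards [eventually_ge_atTop T0, eventually_gt_atTop 0] with T h1 h2
      exact (hw T h1 h2).1)
    have h2 : Tendsto (fun T : ℕ => volume (C ∩ closedBall (w T) (1 / (4 * ((n:ℝ) + 2) * T))) /
        volume (closedBall (w T) (1 / (4 * ((n:ℝ) + 2) * T)))) atTop (𝓝 0) := by
      apply tendsto_const_nhds.congr'
      filter_upwards [eventually_ge_atTop T0, eventually_gt_atTop 0] with T h3 h4
      have : C ∩ closedBall (w T) (1 / (4 * ((n:ℝ) + 2) * T)) = ∅ := by
        rw [Set.eq_empty_iff_forall_notMem]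
        rintro z ⟨hz1, hz2⟩
        exact hz1.2 ((hw T h3 h4).2 hz2)
      rw [this, measure_empty, ENNReal.zero_div]
    exact zero_ne_one (tendsto_nhds_unique h2 h1)
  have h2 : (volume.restrict C) C = 0 := by
    refine measure_mono_null ?_ h
    intro x hx hP
    exact hall x hx hP
  rwa [Measure.restrict_apply_self] at h2

theorem le_badU (α g : ℝ) (hg : 0 < g) (hn : 0 < n) :
    volume (Good n α g) ≤ volume (BadU n α g) := by
  calc volume (Good n α g) ≤ volume ((Good n α g \ BadU n α g) ∪ BadU n α g) := by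
        apply measure_mono
        intro x hx
        by_cases h : x ∈ BadU n α g
        · exact Or.inr h
        · exact Or.inl ⟨hx, h⟩
    _ ≤ volume (Good n α g \ BadU n α g) + volume (BadU n α g) := measure_union_le _ _
    _ = volume (BadU n α g) := by rw [good_null α g hg hn, zero_add]

end Pool.Agent.JIT
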