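import Pool.Agent.JIT.Four

/-! Two demands with large ratio: no optimal word has bottleneck at most one. -/

namespace Pool.Agent.JIT

open Finset

variable {ι : Type*} [Fintype ι] [DecidableEq ι]

/-- Hermite's identity for natural numbers -/
theorem hermite (K X : ℕ) (hK : 0 < K) : ∑ i ∈ range K, (X + i) / K = X := by
  induction X with
  | zero =>
    rw [sum_eq_zero]
    intro i hi
    rw [mem_range] at hi
    rw [zero_add]; exact Nat.div_eq_of_lt hi
  | succ X ih =>
    have h1 : ∑ i ∈ range K, (X + 1 + i) / K + X / K = ∑ i ∈ range K, (X + i) / K + (X + K) / K := by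
      have h2 := sum_range_succ' (fun i => (X + i) / K) K
      have h3 := sum_range_succ (fun i => (X + i) / K) K
      rw [h3] at h2
      rw [h2]
      simp only [add_zero]
      congr 1
      refine sum_congr rfl fun i _ => ?_
      congr 1; ring
    rw [Nat.add_div_right X hK, ih] at h1
    omega

/-- natural number count -/
def cn (w : ℕ → ι) (i : ι) (k : ℕ) : ℕ := ((range k).filter (fun p => w p = i)).card

omit [Fintype ι] in
theorem c_eq_cn (w : ℕ → ι) (i : ι) (k : ℕ) : c w i k = cn w i k := by
  unfold c cn; rw [card_filter]; push_cast; rfl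

omit [Fintype ι] in
theorem cn_zero (w : ℕ → ι) (i : ι) : cn w i 0 = 0 := by simp [cn]

omit [Fintype ι] in
theorem cn_succ (w : ℕ → ι) (i : ι) (k : ℕ) : cn w i (k+1) = cn w i k + if w k = i then 1 else 0 := by
  unfold cn
  rw [range_add_one, filter_insert]
  split_ifs with h
  · rw [card_insert_of_notMem (by simp)]
  · simp

omit [Fintype ι] in
theorem cn_mono (w : ℕ → ι) (i : ι) {k m : ℕ} (h : k ≤ m) : cn w i k ≤ cn w i m := by
  induction m, h using Nat.le_induction with
  | base => exact le_rfl
  | succ m _ ih => rw [cn_succ]; omega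

omit [Fintype ι] in
theorem cn_const (w : ℕ → ι) (i : ι) {k m : ℕ} (h : k ≤ m) (hn : ∀ x, k ≤ x → x < m → w x ≠ i) :
    cn w i m = cn w i k := by
  induction m, h using Nat.le_induction with
  | base => rfl
  | succ m hm ih =>
    rw [cn_succ, if_neg (hn m hm (by omega)), ih (fun x h1 h2 => hn x h1 (by omega)), add_zero]

omit [Fintype ι] in
theorem dl_cn (r : ι → ℝ) (w : ℕ → ι) (i : ι) (k : ℕ) : dl r w i k = cn w i k - k * r i := by
  unfold dl; rw [c_eq_cn]

omit [Fintype ι] in
theorem exists_first (w : ℕ → ι) (j : ι) (k D : ℕ) (h : cn w j k < cn w j D) (hk : k ≤ D) :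
    ∃ q, k ≤ q ∧ q < D ∧ w q = j ∧ ∀ x, k ≤ x → x < q → w x ≠ j := by
  have hex : ∃ x, k ≤ x ∧ x < D ∧ w x = j := by
    by_contra hc
    push Not at hc
    rw [cn_const w j hk (fun x h1 h2 => hc x h1 h2)] at h
    exact lt_irrefl _ h
  classical
  have h1 := Nat.find_spec hex
  have h2 := fun x (hx : x < Nat.find hex) => Nat.find_min hex hx
  exact ⟨Nat.find hex, h1.1, h1.2.1, h1.2.2, fun x h3 h4 h5 => h2 x h4 ⟨h3, by omega, h5⟩⟩

omit [Fintype ι] in
theorem exists_last' (w : ℕ → ι) (j : ι) (k : ℕ) (h : 0 < cn w j k) :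
    ∃ q, q < k ∧ w q = j ∧ ∀ x, q < x → x < k → w x ≠ j := by
  apply exists_last
  by_contra hc
  push Not at hc
  rw [cn_const w j (Nat.zero_le k) (fun x _ h2 => hc x h2), cn_zero] at h
  exact lt_irrefl _ h

/-- balancedness of letters with equal rates in an optimal word of bottleneck at most one -/
theorem balanced (r : ι → ℝ) (w : ℕ → ι) (D : ℕ) (hopt : Opt r D w) (hD : ∀ i, dl r w i D = 0)
    (hΩ : ∀ k, k ≤ D → ∀ i, |dl r w i k| ≤ 1) (i j : ι) (hij : r i = r j) (k : ℕ) (hk : k ≤ D) :
    cn w i k ≤ cn w j k + 1 := by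
  by_contra hcon
  rw [not_le] at hcon
  have hfin : cn w i D = cn w j D := by
    have h1 := hD i; have h2 := hD j
    rw [dl_cn] at h1 h2
    rw [hij] at h1
    have : (cn w i D : ℝ) = cn w j D := by linarith
    exact_mod_cast this
  have hmono := cn_mono w i hk
  obtain ⟨p, hp1, hp2, hp3⟩ := exists_last' w i k (by omega)
  obtain ⟨q, hq1, hq2, hq3, hq4⟩ := exists_first w j k D (by omega) hk
  have h := swap_opt r D w hopt p q (by omega) hq2
  rw [hp2, hq3] at h
  have h2 : ∑ x ∈ Ioc p q, (pp (dl r w j x) - pm (dl r w i x)) < ∑ x ∈ Ioc p q, (0:ℝ) := by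
    apply sum_lt_sum_of_nonempty
    · exact ⟨q, by rw [mem_Ioc]; omega⟩
    · intro x hx
      rw [mem_Ioc] at hx
      have hgap : cn w j x + 2 ≤ cn w i x := by
        rcases le_total x k with h3 | h3
        · have e1 : cn w i k = cn w i x := cn_const w i h3 (fun y h4 h5 => hp3 y (by omega) h5)
          have e2 := cn_mono w j h3
          omega
        · have e1 : cn w j x = cn w j k := cn_const w j h3 (fun y h4 h5 => hq4 y h4 (by omega))
          have e2 := cn_mono w i h3
          omega
      have e3 : dl r w j x + 2 ≤ dl r w i x := by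
        rw [dl_cn, dl_cn, hij]
        have : ((cn w j x : ℝ)) + 2 ≤ cn w i x := by exact_mod_cast hgap
        linarith
      have e4 := hΩ x (by omega) i
      have e5 := hΩ x (by omega) j
      rw [abs_le] at e4 e5
      rw [pp_of_le _ (by linarith), pm_one _ (by linarith)]
      norm_num
  rw [sum_const_zero] at h2
  linarith

/-- number of indices below `k` with a letter outside `B` -/
def ns (B : Finset ι) (w : ℕ → ι) (k : ℕ) : ℕ := ((range k).filter (fun p => w p ∉ B)).card

omit [Fintype ι] in
theorem ns_succ (B : Finset ι) (w : ℕ → ι) (k : ℕ) :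
    ns B w (k+1) = ns B w k + if w k ∉ B then 1 else 0 := by
  unfold ns
  rw [range_add_one, filter_insert]
  by_cases h : w k ∉ B
  · rw [if_pos h, if_pos h, card_insert_of_notMem (by simp)]
  · rw [if_neg h, if_neg h, add_zero]

omit [Fintype ι] in
theorem ns_zero (B : Finset ι) (w : ℕ → ι) : ns B w 0 = 0 := by simp [ns]

omit [Fintype ι] in
theorem ns_const (B : Finset ι) (w : ℕ → ι) {k m : ℕ} (h : k ≤ m)
    (hn : ∀ x, k ≤ x → x < m → w x ∈ B) : ns B w m = ns B w k := by
  induction m, h using Nat.le_induction with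
  | base => rfl
  | succ m hm ih =>
    rw [ns_succ, if_neg (by simpa using hn m hm (by omega)), ih (fun x h1 h2 => hn x h1 (by omega)),
      add_zero]

omit [Fintype ι] in
theorem sum_B (B : Finset ι) (w : ℕ → ι) (k : ℕ) : ∑ i ∈ B, cn w i k + ns B w k = k := by
  induction k with
  | zero => simp [cn_zero, ns_zero]
  | succ k ih =>
    simp only [cn_succ, ns_succ, sum_add_distrib, sum_ite_eq]
    by_cases h : w k ∈ B
    · simp only [h, if_true, not_true_eq_false, if_false]; omega
    · simp only [h, if_false, not_false_eq_true, if_true]; omega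

theorem sum_Bc (B : Finset ι) (w : ℕ → ι) (k : ℕ) : ∑ i ∈ Bᶜ, cn w i k = ns B w k := by
  induction k with
  | zero => simp [cn_zero, ns_zero]
  | succ k ih =>
    simp only [cn_succ, ns_succ, sum_add_distrib, sum_ite_eq, mem_compl, ih]

end Pool.Agent.JIT
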