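import Pool.Agent.JIT.Conf3

namespace Pool.Agent.JIT

open Finset

variable {ι : Type*} [Fintype ι] [DecidableEq ι]

omit [Fintype ι] [DecidableEq ι] in
theorem exists_last (w : ℕ → ι) (j : ι) (t : ℕ) (h : ∃ x, x < t ∧ w x = j) :
    ∃ q, q < t ∧ w q = j ∧ ∀ x, q < x → x < t → w x ≠ j := by
  induction t with
  | zero => obtain ⟨x, h1, _⟩ := h; omega
  | succ t ih =>
    by_cases ht : w t = j
    · exact ⟨t, by omega, ht, fun x h1 h2 => by omega⟩
    · obtain ⟨x, h1, h2⟩ := h
      have hx : x ≠ t := by rintro rfl; exact ht h2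
      obtain ⟨q, h3, h4, h5⟩ := ih ⟨x, by omega, h2⟩
      refine ⟨q, by omega, h4, fun y h6 h7 => ?_⟩
      by_cases hy : y = t
      · rw [hy]; exact ht
      · exact h5 y h6 (by omega)

omit [Fintype ι] in
theorem exists_placed (r : ι → ℝ) (w : ℕ → ι) (hr : ∀ i, 0 ≤ r i) (j : ι) (t : ℕ)
    (h : 0 < dl r w j t) : ∃ x, x < t ∧ w x = j := by
  by_contra hcon
  push Not at hcon
  have := dl_noplace r w j 0 t (fun x _ h2 => hcon x (by omega))
  rw [zero_add, dl_zero] at this
  have := mul_nonneg (Nat.cast_nonneg (α := ℝ) t) (hr j)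
  linarith

theorem neg_free (r : ι → ℝ) (w : ℕ → ι) (D : ℕ) (hcard : Fintype.card ι ≤ 4)
    (hr : ∀ i, 0 ≤ r i) (hrs : ∑ i, r i = 1) (hopt : Opt r D w) (hD : ∀ i, dl r w i D = 0) :
    ∀ k, k ≤ D → ∀ i, -1 ≤ dl r w i k := by
  classical
  by_contra hcon
  push Not at hcon
  have hspec := Nat.find_spec hcon
  have hmin := fun x (hx : x < Nat.find hcon) => Nat.find_min hcon hx
  set t := Nat.find hcon with ht
  obtain ⟨htD, l1, d1⟩ := hspec
  have hf : ∀ k, k < t → ∀ i, -1 ≤ dl r w i k := by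
    intro k hk i
    by_contra hc
    exact hmin k hk ⟨by omega, i, by linarith⟩
  have hr1 : ∀ i, r i ≤ 1 := by
    intro i
    rw [← hrs]
    exact single_le_sum (fun i _ => hr i) (mem_univ i)
  have ht0 : 0 < t := by
    rcases Nat.eq_zero_or_pos t with h | h
    · rw [h, dl_zero] at d1; norm_num at d1
    · exact h
  have hw1 : w (t-1) ≠ l1 := by
    intro h
    have e1 := dl_succ r w l1 (t-1)
    rw [if_pos h, show t - 1 + 1 = t by omega] at e1
    have e2 := hf (t-1) (by omega) l1
    have := hr1 l1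
    linarith
  -- next placement of `l1`
  have hexE : ∃ x, t ≤ x ∧ x < D ∧ w x = l1 := by
    by_contra hc
    push Not at hc
    have := dl_noplace r w l1 t (D - t) (fun x h1 h2 => hc x h1 (by omega))
    rw [show t + (D - t) = D by omega, hD] at this
    have := mul_nonneg (Nat.cast_nonneg (α := ℝ) (D-t)) (hr l1)
    linarith
  have hEs := Nat.find_spec hexE
  have hEm := fun x (hx : x < Nat.find hexE) => Nat.find_min hexE hx
  set e := Nat.find hexE with he
  have hne : ∀ x, t ≤ x → x < e → w x ≠ l1 := by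
    intro x h1 h2 h3
    exact hEm x h2 ⟨h1, by omega, h3⟩
  have hlate : ∀ k, t ≤ k → k ≤ e → pp (dl r w l1 k) = -1 := by
    intro k h1 h2
    apply pp_of_le
    obtain ⟨m, rfl⟩ := Nat.exists_eq_add_of_le h1
    rw [dl_noplace r w l1 t m (fun x h3 h4 => hne x h3 (by omega))]
    have := mul_nonneg (Nat.cast_nonneg (α := ℝ) m) (hr l1)
    linarith
  -- generic consequence of the swap with the late letter
  have hgen : ∀ p, p < t → (∀ k, p < k → k < t → pp (dl r w l1 k) ≤ pm (dl r w (w p) k)) →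
      pm (dl r w (w p) t) ≤ -1 := by
    intro p hp hk
    have h := swap_opt r D w hopt p e (by omega) hEs.2.1
    rw [hEs.2.2] at h
    have h2 : ∑ k ∈ Ioc p e, (pp (dl r w l1 k) - pm (dl r w (w p) k)) ≤
        ∑ k ∈ Ioc p e, (if k = t then -1 - pm (dl r w (w p) t) else 0) := by
      refine sum_le_sum fun k hk' => ?_
      rw [mem_Ioc] at hk'
      by_cases hkt : k = t
      · rw [if_pos hkt, hkt, hlate t le_rfl hEs.1]
      · rw [if_neg hkt]
        rcases lt_or_ge k t with h3 | h3
        · have := hk k hk'.1 h3; linarith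
        · rw [hlate k h3 hk'.2]
          have := neg_one_le_pm (dl r w (w p) k)
          linarith
    rw [sum_ite_eq', if_pos (by rw [mem_Ioc]; exact ⟨hp, hEs.1⟩)] at h2
    linarith
  have d2 : dl r w (w (t-1)) t ≤ 0 := by
    apply nonpos_of_pm
    exact hgen (t-1) (by omega) (fun k h1 h2 => by omega)
  -- all deviations at time `t` are below one
  have hlt1 : ∀ j, dl r w j t < 1 := by
    intro j
    by_contra hc
    rw [not_lt] at hc
    obtain ⟨q, hq1, hq2, hq3⟩ := exists_last w j t (exists_placed r w hr j t (by linarith))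
    have hge : ∀ k, q < k → k ≤ t → 1 ≤ dl r w j k := by
      intro k h1 h2
      have := dl_noplace r w j k (t - k) (fun x h3 h4 => hq3 x (by omega) (by omega))
      rw [show k + (t-k) = t by omega] at this
      have := mul_nonneg (Nat.cast_nonneg (α := ℝ) (t-k)) (hr j)
      linarith
    have h1 := hgen q hq1 (fun k h1 h2 => by
      rw [hq2, pm_one _ (hge k h1 (by omega))]; exact pp_le_one _)
    rw [hq2, pm_one _ hc] at h1
    norm_num at h1
  -- the other letters
  set l2 := w (t-1) with hl2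
  have h12 : l1 ≠ l2 := fun h => hw1 h.symm
  set S : Finset ι := (univ.erase l1).erase l2 with hS
  have hsum : ∀ f : ι → ℝ, ∑ i, f i = f l1 + f l2 + ∑ i ∈ S, f i := by
    intro f
    rw [← add_sum_erase univ f (mem_univ l1),
      ← add_sum_erase (univ.erase l1) f (mem_erase.2 ⟨h12.symm, mem_univ l2⟩)]
    ring
  have hcS : S.card ≤ 2 := by
    rw [hS, card_erase_of_mem (mem_erase.2 ⟨h12.symm, mem_univ l2⟩), card_erase_of_mem (mem_univ l1),
      card_univ]
    omega
  have hs1 : 1 < ∑ i ∈ S, dl r w i t := by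
    have h1 := sum_dl r hrs w t
    rw [hsum] at h1
    linarith
  have hS2 : S.card = 2 := by
    rcases Nat.lt_or_ge S.card 2 with h | h
    · exfalso
      rcases Nat.lt_or_ge S.card 1 with h' | h'
      · have : S = ∅ := card_eq_zero.1 (by omega)
        rw [this, sum_empty] at hs1; linarith
      · obtain ⟨x, hx⟩ := card_eq_one.1 (show S.card = 1 by omega)
        rw [hx, sum_singleton] at hs1
        have := hlt1 x
        linarith
    · omega
  obtain ⟨x, y, hxy, hSxy⟩ := card_eq_two.1 hS2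
  have hmx : x ∈ S := by rw [hSxy]; simp
  have hmy : y ∈ S := by rw [hSxy]; simp
  have hx1 : x ≠ l1 ∧ x ≠ l2 := by
    rw [hS, mem_erase, mem_erase] at hmx; exact ⟨hmx.2.1, hmx.1⟩
  have hy1 : y ≠ l1 ∧ y ≠ l2 := by
    rw [hS, mem_erase, mem_erase] at hmy; exact ⟨hmy.2.1, hmy.1⟩
  have hall : ∀ i, i = l1 ∨ i = l2 ∨ i = x ∨ i = y := by
    intro i
    by_cases h1 : i = l1
    · exact Or.inl h1
    by_cases h2 : i = l2
    · exact Or.inr (Or.inl h2)
    have : i ∈ S := by rw [hS, mem_erase, mem_erase]; exact ⟨h2, h1, mem_univ i⟩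
    rw [hSxy] at this
    simp only [mem_insert, mem_singleton] at this
    exact Or.inr (Or.inr this)
  have hsum4 : ∀ f : ι → ℝ, ∑ i, f i = f l1 + f l2 + (f x + f y) := by
    intro f
    rw [hsum, hSxy, sum_pair hxy]
  have hs4 : 1 < dl r w x t + dl r w y t := by rw [hSxy, sum_pair hxy] at hs1; exact hs1
  have dx : 0 < dl r w x t := by have := hlt1 y; linarith
  have dy : 0 < dl r w y t := by have := hlt1 x; linarith
  obtain ⟨qx, hqx1, hqx2, hqx3⟩ := exists_last w x t (exists_placed r w hr x t dx)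
  obtain ⟨qy, hqy1, hqy2, hqy3⟩ := exists_last w y t (exists_placed r w hr y t dy)
  have hqx4 : qx ≠ t - 1 := by rintro rfl; exact hx1.2 hqx2.symm
  have hqy4 : qy ≠ t - 1 := by rintro rfl; exact hy1.2 hqy2.symm
  have hqxy : qx ≠ qy := by rintro rfl; exact hxy (hqx2.symm.trans hqy2)
  rcases lt_or_gt_of_ne hqxy with hlt | hlt
  · -- `y` is the more recent one
    exact Conf.absurd_conf (r := r) (w := w) (D := D)
      { l1 := l1, l2 := l2, l3 := y, l4 := x, h12 := h12, h13 := hy1.1.symm, h14 := hx1.1.symm,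
        h23 := hy1.2.symm, h24 := hx1.2.symm, h34 := hxy.symm, t := t, e := e, a := qy, b := qx,
        hopt := hopt, hr := hr,
        hrs := by have := hsum4 r; rw [hrs] at this; linarith
        hsum := fun k => by
          have := hsum4 (fun i => dl r w i k); rw [sum_dl r hrs w k] at this; linarith
        hall := fun i => by rcases hall i with h | h | h | h <;> simp [h]
        hte := hEs.1, heD := hEs.2.1, hwe := hEs.2.2, hne := hne, hat := by omega, hwt := rfl,
        hba := hlt, hwa := hqy2, hwb := hqx2, hna := hqy3, hnb := hqx3, hf := hf, d1 := d1,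
        d2 := d2, d3 := dy, d3' := hlt1 y, d4 := dx, d4' := hlt1 x }
  · exact Conf.absurd_conf (r := r) (w := w) (D := D)
      { l1 := l1, l2 := l2, l3 := x, l4 := y, h12 := h12, h13 := hx1.1.symm, h14 := hy1.1.symm,
        h23 := hx1.2.symm, h24 := hy1.2.symm, h34 := hxy, t := t, e := e, a := qx, b := qy,
        hopt := hopt, hr := hr,
        hrs := by have := hsum4 r; rw [hrs] at this; linarith
        hsum := fun k => by
          have := hsum4 (fun i => dl r w i k); rw [sum_dl r hrs w k] at this; linarith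
        hall := hall
        hte := hEs.1, heD := hEs.2.1, hwe := hEs.2.2, hne := hne, hat := by omega, hwt := rfl,
        hba := hlt, hwa := hqx2, hwb := hqy2, hna := hqx3, hnb := hqy3, hf := hf, d1 := d1,
        d2 := d2, d3 := dx, d3' := hlt1 x, d4 := dy, d4' := hlt1 y }

/-- reversal of a word of length `D` -/
def rev (D : ℕ) (w : ℕ → ι) : ℕ → ι := fun p => w (D - 1 - p)

omit [Fintype ι] in
theorem c_rev (D : ℕ) (w : ℕ → ι) (i : ι) (k : ℕ) (hk : k ≤ D) :
    c (rev D w) i k = c w i D - c w i (D - k) := by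
  induction k with
  | zero => simp [c_zero]
  | succ k ih =>
    rw [c_succ, ih (by omega)]
    have h1 : D - k = (D - (k+1)) + 1 := by omega
    rw [h1, c_succ]
    have h2 : rev D w k = w (D - (k+1)) := by unfold rev; congr 1; omega
    rw [h2]; ring

omit [Fintype ι] in
theorem dl_rev (r : ι → ℝ) (D : ℕ) (w : ℕ → ι) (i : ι) (k : ℕ) (hk : k ≤ D)
    (hD : dl r w i D = 0) : dl r (rev D w) i k = - dl r w i (D - k) := by
  unfold dl at hD ⊢
  rw [c_rev D w i k hk, Nat.cast_sub hk]
  linarith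

theorem AA_rev (r : ι → ℝ) (D : ℕ) (w : ℕ → ι) (hD : ∀ i, dl r w i D = 0) :
    AA r D (rev D w) = AA r D w := by
  unfold AA
  have h1 : ∑ k ∈ range D, ∑ i, |dl r (rev D w) i (k+1)| = ∑ k ∈ range D, ∑ i, |dl r w i (D - 1 - k)| := by
    refine sum_congr rfl fun k hk => sum_congr rfl fun i _ => ?_
    rw [mem_range] at hk
    rw [dl_rev r D w i (k+1) (by omega) (hD i), abs_neg, show D - (k+1) = D - 1 - k by omega]
  rw [h1, sum_range_reflect (fun k => ∑ i, |dl r w i k|) D]
  have h2 : ∑ k ∈ range (D+1), ∑ i, |dl r w i k| = ∑ k ∈ range D, ∑ i, |dl r w i (k+1)| := by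
    rw [sum_range_succ']
    simp [dl_zero]
  have h3 : ∑ k ∈ range (D+1), ∑ i, |dl r w i k| = ∑ k ∈ range D, ∑ i, |dl r w i k| := by
    rw [sum_range_succ]
    simp [hD]
  rw [← h2, h3]

theorem dl_D_of_c (r : ι → ℝ) (D : ℕ) (w w' : ℕ → ι) (h : ∀ i, c w' i D = c w i D)
    (hD : ∀ i, dl r w i D = 0) : ∀ i, dl r w' i D = 0 := by
  intro i
  have := hD i
  unfold dl at this ⊢
  rw [h i]; exact this

theorem Opt_rev (r : ι → ℝ) (D : ℕ) (w : ℕ → ι) (hD : ∀ i, dl r w i D = 0) (hw : Opt r D w) :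
    Opt r D (rev D w) := by
  intro w' h
  have h1 : ∀ i, c w' i D = c w i D := by
    intro i; rw [h i, c_rev D w i D le_rfl]; simp [c_zero]
  have h2 : ∀ i, c (rev D w') i D = c w i D := by
    intro i; rw [c_rev D w' i D le_rfl, ← h1]; simp [c_zero]
  rw [AA_rev r D w hD]
  refine le_trans (hw _ h2) ?_
  rw [AA_rev r D w' (dl_D_of_c r D w w' h1 hD)]

/-- at most four letters: every optimal word has bottleneck at most one -/
theorem four (r : ι → ℝ) (w : ℕ → ι) (D : ℕ) (hcard : Fintype.card ι ≤ 4)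
    (hr : ∀ i, 0 ≤ r i) (hrs : ∑ i, r i = 1) (hopt : Opt r D w) (hD : ∀ i, dl r w i D = 0) :
    ∀ k, k ≤ D → ∀ i, |dl r w i k| ≤ 1 := by
  intro k hk i
  have h1 := neg_free r w D hcard hr hrs hopt hD k hk i
  have hD' : ∀ i, dl r (rev D w) i D = 0 := by
    intro i; rw [dl_rev r D w i D le_rfl (hD i)]; simp [dl_zero]
  have h2 := neg_free r (rev D w) D hcard hr hrs (Opt_rev r D w hD hopt) hD' (D - k) (by omega) i
  rw [dl_rev r D w i (D-k) (by omega) (hD i), show D - (D - k) = k by omega] at h2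
  rw [abs_le]
  constructor <;> linarith

end Pool.Agent.JIT
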