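import Pool.Agent.JIT.Count

/-! Most vectors are good; almost all instances with many letters fail. -/

namespace Pool.Agent.JIT

open Finset MeasureTheory Metric Filter Topology

/-- if no window of length `g` contains `m` of the numbers, there are `m` small numbers above `g`
and many numbers which exceed them by more than `g` -/
theorem exists_gap {n : ℕ} (x : Fin n → ℝ) (g : ℝ) (m : ℕ) (hm : 0 < m) (hmn : 4 * m ≤ n)
    (hx : ∀ i, 0 < x i) (hw : ∀ y : ℝ, (univ.filter (fun i => y ≤ x i ∧ x i ≤ y + g)).card < m) :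
    ∃ S L : Finset (Fin n), m ≤ S.card ∧ n + 2 ≤ 3 * m + L.card ∧ (∀ j ∈ S, g < x j) ∧
      (∀ i ∈ L, ∀ j ∈ S, g < x i - x j) := by
  classical
  set P : Finset (Fin n) := univ.filter (fun i => g < x i) with hP
  have hPc : n + 1 ≤ P.card + m := by
    have h1 := hw 0
    have h2 : (univ : Finset (Fin n)) ⊆ P ∪ univ.filter (fun i => 0 ≤ x i ∧ x i ≤ 0 + g) := by
      intro i _
      rw [mem_union, hP, mem_filter, mem_filter]
      rcases lt_or_ge g (x i) with h | h
      · exact Or.inl ⟨mem_univ _, h⟩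
      · exact Or.inr ⟨mem_univ _, (hx i).le, by linarith⟩
    have h3 := card_le_card h2
    have h4 := card_union_le P (univ.filter (fun i => 0 ≤ x i ∧ x i ≤ 0 + g))
    rw [card_univ, Fintype.card_fin] at h3
    omega
  -- the threshold
  set R : Finset (Fin n) := P.filter (fun j => m ≤ (P.filter (fun k => x k ≤ x j)).card) with hR
  have hRne : R.Nonempty := by
    have hPne : P.Nonempty := card_pos.1 (by omega)
    obtain ⟨j, hj, hjmax⟩ := exists_max_image P x hPne
    refine ⟨j, ?_⟩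
    rw [hR, mem_filter]
    refine ⟨hj, ?_⟩
    have : P.filter (fun k => x k ≤ x j) = P := filter_true_of_mem fun k hk => hjmax k hk
    rw [this]; omega
  obtain ⟨j0, hj0, hmin⟩ := exists_min_image R x hRne
  rw [hR, mem_filter] at hj0
  set S : Finset (Fin n) := P.filter (fun k => x k ≤ x j0) with hS
  set Q : Finset (Fin n) := P.filter (fun k => x k < x j0) with hQ
  have hQc : Q.card < m := by
    by_contra hc
    rw [not_lt] at hc
    obtain ⟨k, hk, hkmax⟩ := exists_max_image Q x (card_pos.1 (by omega))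
    rw [hQ, mem_filter] at hk
    have h1 : k ∈ R := by
      rw [hR, mem_filter]
      refine ⟨hk.1, le_trans hc (card_le_card ?_)⟩
      intro l hl
      have hl' := hl
      rw [hQ, mem_filter] at hl'
      rw [mem_filter]
      exact ⟨hl'.1, hkmax l hl⟩
    have h2 := hmin k h1
    linarith [hk.2]
  set L : Finset (Fin n) := P.filter (fun k => x j0 + g < x k) with hL
  refine ⟨S, L, hj0.2, ?_, ?_, ?_⟩
  · have h1 := hw (x j0)
    have h2 : P ⊆ Q ∪ (univ.filter (fun i => x j0 ≤ x i ∧ x i ≤ x j0 + g) ∪ L) := by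
      intro i hi
      rw [mem_union, mem_union]
      rcases lt_or_ge (x i) (x j0) with h | h
      · exact Or.inl (mem_filter.2 ⟨hi, h⟩)
      · rcases lt_or_ge (x j0 + g) (x i) with h' | h'
        · exact Or.inr (Or.inr (mem_filter.2 ⟨hi, h'⟩))
        · exact Or.inr (Or.inl (mem_filter.2 ⟨mem_univ _, h, h'⟩))
    have h3 := card_le_card h2
    have h4 := card_union_le Q (univ.filter (fun i => x j0 ≤ x i ∧ x i ≤ x j0 + g) ∪ L)
    have h5 := card_union_le (univ.filter (fun i => x j0 ≤ x i ∧ x i ≤ x j0 + g)) L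
    omega
  · intro j hj
    rw [hS, mem_filter, hP, mem_filter] at hj
    exact hj.1.2
  · intro i hi j hj
    rw [hS, mem_filter] at hj
    rw [hL, mem_filter] at hi
    linarith [hi.2, hj.2]

/-- union bound for windows with many points -/
theorem windows (n m A : ℕ) (g : ℝ) (hg : 0 < g) (hm : 0 < m) (hA : 1 ≤ A * g) :
    volume {x : Fin n → ℝ | (∀ i, 0 < x i ∧ x i < 1) ∧
      ∃ y : ℝ, m ≤ (univ.filter (fun i => y ≤ x i ∧ x i ≤ y + g)).card} ≤
      ENNReal.ofReal ((A + 1) * n.choose m * (2 * g) ^ m) := by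
  classical
  set W : ℕ → Finset (Fin n) → Set (Fin n → ℝ) := fun a Q =>
    Set.pi Set.univ (fun i => if i ∈ Q then Set.Icc (a * g) (a * g + 2 * g) else Set.Ioo 0 1) with hW
  have hsub : {x : Fin n → ℝ | (∀ i, 0 < x i ∧ x i < 1) ∧
      ∃ y : ℝ, m ≤ (univ.filter (fun i => y ≤ x i ∧ x i ≤ y + g)).card} ⊆
      ⋃ a ∈ range (A + 1), ⋃ Q ∈ powersetCard m (univ : Finset (Fin n)), W a Q := by
    rintro x ⟨hx, y, hy⟩
    obtain ⟨i0, hi0, hmin⟩ := exists_min_image (univ.filter (fun i => y ≤ x i ∧ x i ≤ y + g)) x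
      (card_pos.1 (by omega))
    obtain ⟨Q, hQ1, hQ2⟩ := exists_subset_card_eq hy
    have hx0 := hx i0
    set a := ⌊x i0 / g⌋₊ with ha
    have ha1 : (a:ℝ) * g ≤ x i0 := by
      have := Nat.floor_le (div_nonneg hx0.1.le hg.le)
      rw [← ha, le_div_iff₀ hg] at this
      exact this
    have ha2 : x i0 < (a + 1) * g := by
      have := Nat.lt_floor_add_one (x i0 / g)
      rw [← ha, div_lt_iff₀ hg] at this
      exact this
    have haA : a < A + 1 := by
      have h1 : (a:ℝ) * g < A * g := by linarith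
      have h2 : (a:ℝ) < A := lt_of_mul_lt_mul_right h1 hg.le
      have : a < A := by exact_mod_cast h2
      omega
    simp only [Set.mem_iUnion]
    refine ⟨a, mem_range.2 haA, Q, mem_powersetCard.2 ⟨subset_univ _, hQ2⟩, ?_⟩
    rw [hW]
    intro i _
    by_cases hi : i ∈ Q
    · simp only [if_pos hi, Set.mem_Icc]
      have h1 := hmin i (hQ1 hi)
      have h2 := (mem_filter.1 (hQ1 hi)).2
      have h3 := (mem_filter.1 hi0).2
      constructor
      · linarith
      · linarith [h2.2, h3.1]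
    · simp only [if_neg hi, Set.mem_Ioo]
      exact hx i
  have hvol : ∀ a, ∀ Q ∈ powersetCard m (univ : Finset (Fin n)), volume (W a Q) =
      ENNReal.ofReal ((2 * g) ^ m) := by
    intro a Q hQ
    rw [mem_powersetCard] at hQ
    rw [hW]
    simp only [volume_pi_pi]
    have h1 : ∀ i : Fin n, volume (if i ∈ Q then Set.Icc ((a:ℝ) * g) (a * g + 2 * g) else
        Set.Ioo (0:ℝ) 1) = if i ∈ Q then ENNReal.ofReal (2 * g) else 1 := by
      intro i
      split_ifs
      · rw [Real.volume_Icc]; congr 1; ring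
      · rw [Real.volume_Ioo]; simp
    simp only [h1]
    rw [prod_ite, prod_const_one, mul_one, prod_const]
    have h2 : (univ.filter (fun i => i ∈ Q)) = Q := by ext i; simp
    rw [h2, hQ.2, ENNReal.ofReal_pow (by positivity)]
  calc volume {x : Fin n → ℝ | (∀ i, 0 < x i ∧ x i < 1) ∧
      ∃ y : ℝ, m ≤ (univ.filter (fun i => y ≤ x i ∧ x i ≤ y + g)).card} ≤
      volume (⋃ a ∈ range (A + 1), ⋃ Q ∈ powersetCard m (univ : Finset (Fin n)), W a Q) :=
        measure_mono hsub
    _ ≤ ∑ a ∈ range (A + 1), volume (⋃ Q ∈ powersetCard m (univ : Finset (Fin n)), W a Q) :=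
        measure_biUnion_finset_le _ _
    _ ≤ ∑ a ∈ range (A + 1), ∑ Q ∈ powersetCard m (univ : Finset (Fin n)), volume (W a Q) :=
        sum_le_sum fun a _ => measure_biUnion_finset_le _ _
    _ = ∑ a ∈ range (A + 1), ∑ Q ∈ powersetCard m (univ : Finset (Fin n)),
        ENNReal.ofReal ((2 * g) ^ m) := sum_congr rfl fun a _ => sum_congr rfl fun Q hQ => hvol a Q hQ
    _ = ENNReal.ofReal ((A + 1) * (powersetCard m (univ : Finset (Fin n))).card * (2 * g) ^ m) := by
        rw [sum_const, sum_const, card_range, nsmul_eq_mul, nsmul_eq_mul,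
          ENNReal.ofReal_mul (by positivity), ENNReal.ofReal_mul (by positivity),
          ENNReal.ofReal_natCast, ← mul_assoc]
        congr 2
        rw [ENNReal.ofReal_add (by positivity) (by norm_num), ENNReal.ofReal_natCast,
          ENNReal.ofReal_one]
        push_cast; ring
    _ = _ := by rw [card_powersetCard, card_univ, Fintype.card_fin]

theorem good_large (n : ℕ) (hn : 15 ≤ n) :
    1 ≤ volume (Good n (72 / n) (72 / n)) +
      ENNReal.ofReal (n * n.choose (n / 4) * (144 / n : ℝ) ^ (n / 4)) := by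
  classical
  have hnR : (15:ℝ) ≤ n := by exact_mod_cast hn
  have hn0 : (0:ℝ) < n := by linarith
  set g : ℝ := 72 / n with hg
  have hg0 : 0 < g := by rw [hg]; positivity
  set m := n / 4 with hm
  have hwin := windows n m (n - 1) g hg0 (by omega) (by
    rw [hg, Nat.cast_sub (by omega), ← mul_div_assoc, le_div_iff₀ hn0]
    push_cast; linarith)
  have h3 : volume (Set.pi Set.univ (fun _ : Fin n => Set.Ioo (0:ℝ) 1)) = 1 := by
    rw [Real.volume_pi_Ioo]; simp
  rw [← h3]
  refine le_trans (measure_mono (t := Good n g g ∪ {x : Fin n → ℝ | (∀ i, 0 < x i ∧ x i < 1) ∧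
      ∃ y : ℝ, m ≤ (univ.filter (fun i => y ≤ x i ∧ x i ≤ y + g)).card}) ?_) ?_
  · intro x hx
    have hx' : ∀ i, 0 < x i ∧ x i < 1 := fun i => hx i (Set.mem_univ i)
    by_cases c1 : ∃ y : ℝ, m ≤ (univ.filter (fun i => y ≤ x i ∧ x i ≤ y + g)).card
    · exact Or.inr ⟨hx', c1⟩
    · push Not at c1
      left
      obtain ⟨S, L, h1, h2, h4, h5⟩ := exists_gap x g m (by omega) (by omega)
        (fun i => (hx' i).1) c1
      refine ⟨hx', S, L, by omega, ?_, h4, h5⟩
      unfold Cnd
      have hL : (n:ℝ) / 4 + 2 ≤ L.card := by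
        have e1 : n + 8 ≤ 4 * L.card := by omega
        have e2 : ((n:ℝ) + 8) ≤ 4 * L.card := by exact_mod_cast e1
        linarith
      have e3 : 18 ≤ ((L.card : ℝ) + 1) * g := by
        rw [hg, ← mul_div_assoc, le_div_iff₀ hn0]
        nlinarith
      have e4 : (21 / 2 * (1 + 21 / 4 / g) : ℝ) = 21 / 2 + 49 / 64 * n := by
        rw [hg]; field_simp; ring
      rw [e4]
      nlinarith
  · refine le_trans (measure_union_le _ _) (add_le_add le_rfl (le_trans hwin ?_))
    apply ENNReal.ofReal_le_ofReal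
    apply le_of_eq
    rw [Nat.cast_sub (by omega), hg]
    push_cast
    ring_nf

/-- For `n ≥ 15` letters and every `ε > 0`, at most `(n C(n,⌊n/4⌋) (144/n)^⌊n/4⌋ + ε) N^n` of the
instances in `[1, N]^n` have the oneness property, once `N` is large. -/
theorem almost_all_fail (n : ℕ) (hn : 15 ≤ n) (ε : ℝ) (hε : 0 < ε) : ∃ N0 : ℕ, ∀ N : ℕ,
    N0 ≤ N → ({d : Fin n → ℕ | (∀ i, 1 ≤ d i ∧ d i ≤ N) ∧ Oneness d}.ncard : ℝ) ≤
      (n * n.choose (n / 4) * (144 / n) ^ (n / 4) + ε) * (N:ℝ) ^ n := by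
  classical
  have hn0 : (0:ℝ) < n := by exact_mod_cast (by omega : 0 < n)
  set q : ℝ := n * n.choose (n / 4) * (144 / n) ^ (n / 4) with hq
  have hq0 : 0 ≤ q := by rw [hq]; positivity
  have hg := good_large n hn
  rw [← hq] at hg
  have hb := le_badU (n := n) (72 / n) (72 / n) (by positivity) (by omega)
  have hcard0 : ∀ N : ℕ, ({d : Fin n → ℕ | (∀ i, 1 ≤ d i ∧ d i ≤ N) ∧ Oneness d}.ncard : ℝ) ≤
      (N:ℝ) ^ n := by
    intro N
    have : {d : Fin n → ℕ | (∀ i, 1 ≤ d i ∧ d i ≤ N) ∧ Oneness d}.ncard ≤ N ^ n := by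
      rw [← card_box n N]
      exact Set.ncard_le_ncard (fun d hd => hd.1) (finite_box n N)
    exact_mod_cast this
  rcases le_or_gt 1 (q + ε) with hbig | hsmall
  · refine ⟨0, fun N _ => le_trans (hcard0 N) ?_⟩
    have : (0:ℝ) ≤ (N:ℝ) ^ n := by positivity
    nlinarith
  set v : ℝ := 1 - (q + ε) with hvdef
  have hv0 : 0 < v := by rw [hvdef]; linarith
  have hv : ENNReal.ofReal v < volume (BadU n (72 / n) (72 / n)) := by
    by_contra hcon
    rw [not_lt] at hcon
    have h1 : (1:ENNReal) ≤ ENNReal.ofReal v + ENNReal.ofReal q :=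
      le_trans hg (add_le_add (le_trans hb hcon) le_rfl)
    have h2 : ENNReal.ofReal v + ENNReal.ofReal q < 1 := by
      rw [← ENNReal.ofReal_add hv0.le hq0, ENNReal.ofReal_lt_one]
      linarith
    exact absurd h1 (not_le.2 h2)
  obtain ⟨N0, hN0⟩ := count_lower (72 / n) (72 / n) (by positivity) (by positivity) v hv
  refine ⟨N0, fun N hN => ?_⟩
  have h1 := hN0 N hN
  have h2 := card_box n N
  have h3 : {d : Fin n → ℕ | ∀ i, 1 ≤ d i ∧ d i ≤ N} =
      {d : Fin n → ℕ | (∀ i, 1 ≤ d i ∧ d i ≤ N) ∧ Oneness d} ∪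
      {d : Fin n → ℕ | (∀ i, 1 ≤ d i ∧ d i ≤ N) ∧ ¬ Oneness d} := by
    ext d
    simp only [Set.mem_ofPred_eq, Set.mem_union]
    by_cases h : Oneness d
    · simp [h]
    · simp [h]
  have h4 : Disjoint {d : Fin n → ℕ | (∀ i, 1 ≤ d i ∧ d i ≤ N) ∧ Oneness d}
      {d : Fin n → ℕ | (∀ i, 1 ≤ d i ∧ d i ≤ N) ∧ ¬ Oneness d} := by
    rw [Set.disjoint_left]
    intro d hd hd'
    exact hd'.2 hd.2
  have h5 := Set.ncard_union_eq h4 ((finite_box n N).subset fun d hd => hd.1)
    ((finite_box n N).subset fun d hd => hd.1)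
  rw [← h3, h2] at h5
  have h6 : ((N ^ n : ℕ) : ℝ) = _ := congrArg (Nat.cast (R := ℝ)) h5
  push_cast at h6
  rw [hvdef] at h1
  linarith

end Pool.Agent.JIT
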