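import Pool.Agent.JIT.Sharp
import Pool.Agent.JIT.Many

/-! Lower bound for the number of instances with the oneness property. -/

namespace Pool.Agent.JIT

open Finset

theorem oneness_of_close {n : ℕ} (hn : 0 < n) (d : Fin n → ℕ) (N : ℕ) (h1 : ∀ i, 1 ≤ d i)
    (h2 : ∀ i, d i ≤ N) (h3 : ∀ i, (1 - 1 / (n:ℝ)) ^ 2 * N ≤ d i) : Oneness d := by
  obtain ⟨s, hs⟩ := exists_isOptA d
  refine ⟨s, hs, crit_fin d ?_ s hs⟩
  unfold sqrtSum
  set M := univ.sup d with hM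
  have hMN : M ≤ N := Finset.sup_le fun i _ => h2 i
  have hM0 : 0 < M := lt_of_lt_of_le (h1 ⟨0, hn⟩) (le_sup (f := d) (mem_univ _))
  have hMR : (0:ℝ) < M := by exact_mod_cast hM0
  have hMNR : (M:ℝ) ≤ N := by exact_mod_cast hMN
  have hnR : (0:ℝ) < n := by exact_mod_cast hn
  have hn1 : (1:ℝ) ≤ n := by exact_mod_cast hn
  have hz : 0 ≤ 1 - 1 / (n:ℝ) := by
    rw [sub_nonneg, div_le_one hnR]; exact hn1
  have h4 : ∀ i, 1 - 1 / (n:ℝ) ≤ √((d i : ℝ) / M) := by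
    intro i
    apply Real.le_sqrt_of_sq_le
    rw [le_div_iff₀ hMR]
    exact le_trans (mul_le_mul_of_nonneg_left hMNR (sq_nonneg _)) (h3 i)
  have h5 : ∑ _i : Fin n, (1 - 1 / (n:ℝ)) ≤ ∑ i, √((d i : ℝ) / M) := sum_le_sum fun i _ => h4 i
  rw [sum_const, card_univ, Fintype.card_fin, nsmul_eq_mul] at h5
  have : (n:ℝ) * (1 - 1 / n) = n - 1 := by field_simp
  linarith

theorem count_one (n : ℕ) (hn : 0 < n) (N : ℕ) :
    ((2 * n - 1) / (n:ℝ) ^ 2) ^ n * (N:ℝ) ^ n ≤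
      ({d : Fin n → ℕ | (∀ i, 1 ≤ d i ∧ d i ≤ N) ∧ Oneness d}.ncard : ℝ) := by
  have hnR : (0:ℝ) < n := by exact_mod_cast hn
  have hn1 : (1:ℝ) ≤ n := by exact_mod_cast hn
  set z : ℝ := (1 - 1 / (n:ℝ)) ^ 2 with hz
  have hz1 : 1 - z = (2 * n - 1) / (n:ℝ) ^ 2 := by rw [hz]; field_simp; ring
  have hz0 : 0 ≤ z := sq_nonneg _
  rw [← hz1]
  have hz2 : 0 ≤ 1 - z := by
    rw [hz1]; apply div_nonneg (by linarith) (by positivity)
  set L := max 1 ⌈z * N⌉₊ with hL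
  have hsub : ((Fintype.piFinset fun _ : Fin n => Icc L N : Finset (Fin n → ℕ)) : Set (Fin n → ℕ)) ⊆
      {d : Fin n → ℕ | (∀ i, 1 ≤ d i ∧ d i ≤ N) ∧ Oneness d} := by
    intro d hd
    rw [mem_coe, Fintype.mem_piFinset] at hd
    have h1 : ∀ i, 1 ≤ d i := fun i => le_trans (le_max_left _ _) (mem_Icc.1 (hd i)).1
    have h2 : ∀ i, d i ≤ N := fun i => (mem_Icc.1 (hd i)).2
    have h3 : ∀ i, z * N ≤ d i := fun i => by
      have : ⌈z * N⌉₊ ≤ d i := le_trans (le_max_right _ _) (mem_Icc.1 (hd i)).1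
      exact le_trans (Nat.le_ceil _) (by exact_mod_cast this)
    exact ⟨fun i => ⟨h1 i, h2 i⟩, oneness_of_close hn d N h1 h2 h3⟩
  have hfin : {d : Fin n → ℕ | (∀ i, 1 ≤ d i ∧ d i ≤ N) ∧ Oneness d}.Finite :=
    (finite_box n N).subset fun d hd => hd.1
  have h1 := Set.ncard_le_ncard hsub hfin
  rw [Set.ncard_coe_finset, Fintype.card_piFinset, prod_const, card_univ, Fintype.card_fin,
    Nat.card_Icc] at h1
  have h2 : (1 - z) * (N:ℝ) ≤ ((N + 1 - L : ℕ) : ℝ) := by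
    have hN0 : (0:ℝ) ≤ N := Nat.cast_nonneg N
    rcases Nat.eq_zero_or_pos N with h0 | h0
    · subst h0
      push_cast
      rw [mul_zero]
      exact Nat.cast_nonneg _
    have hLN : L ≤ N := by
      rw [hL]
      apply max_le h0
      apply Nat.ceil_le.2
      have : z ≤ 1 := by linarith
      nlinarith
    rw [Nat.cast_sub (by omega)]
    push_cast
    rcases le_or_gt 1 ⌈z * N⌉₊ with h3 | h3
    · have : L = ⌈z * N⌉₊ := max_eq_right h3
      rw [this]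
      have h4 := Nat.ceil_lt_add_one (mul_nonneg hz0 hN0)
      linarith
    · have : L = 1 := max_eq_left h3.le
      rw [this]
      have := mul_nonneg hz0 hN0
      push_cast
      linarith
  have h3 : ((1 - z) * (N:ℝ)) ^ n ≤ ((N + 1 - L : ℕ) : ℝ) ^ n :=
    pow_le_pow_left₀ (mul_nonneg hz2 (Nat.cast_nonneg N)) h2 n
  rw [mul_pow] at h3
  refine le_trans h3 ?_
  exact_mod_cast h1

end Pool.Agent.JIT
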