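import Pool.Agent.JIT.Fail

/-! A local obstruction to optimal words of bottleneck at most one. -/

namespace Pool.Agent.JIT

open Finset

variable {ι : Type*} [Fintype ι] [DecidableEq ι]

omit [Fintype ι] in
theorem exists_copy (w : ℕ → ι) (i : ι) (m k : ℕ) (h : m < cn w i k) :
    ∃ p, p < k ∧ w p = i ∧ cn w i p = m := by
  induction k with
  | zero => rw [cn_zero] at h; omega
  | succ k ih =>
    rcases Nat.lt_or_ge m (cn w i k) with h1 | h1
    · obtain ⟨p, h2, h3, h4⟩ := ih h1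
      exact ⟨p, by omega, h3, h4⟩
    · rw [cn_succ] at h
      by_cases h2 : w k = i
      · rw [if_pos h2] at h
        exact ⟨k, by omega, h2, by omega⟩
      · rw [if_neg h2] at h; omega

theorem sum_cn (w : ℕ → ι) (k : ℕ) : ∑ i, cn w i k = k := by
  have h := sum_c w k
  simp only [c_eq_cn] at h
  exact_mod_cast h

theorem sum_Ioc_lin (T q : ℕ) (h : T ≤ q) (a g : ℝ) :
    ∑ k ∈ Ioc T q, (a - 2 * ((k:ℝ) - T) * g) = ((q:ℝ) - T) * a - g * ((q:ℝ) - T) * ((q:ℝ) - T + 1) := by
  induction q, h using Nat.le_induction with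
  | base => simp
  | succ q hq ih =>
    rw [sum_Ioc_succ_top hq, ih]
    push_cast; ring

theorem obstruction (r : ι → ℝ) (w : ℕ → ι) (D : ℕ) (hopt : Opt r D w) (hD : ∀ i, dl r w i D = 0)
    (hΩ : ∀ k, k ≤ D → ∀ i, |dl r w i k| ≤ 1)
    (T : ℕ) (hT : T + 1 ≤ D) (m : ι → ℕ) (hm : ∑ i, m i = T) (S L : Finset ι) (g A B ρ : ℝ)
    (h1 : ∀ i, i ∉ S → T * r i - m i + r i < 0) (h2 : ∀ i ∈ L, i ∉ S)
    (h3 : ∀ i ∈ L, m i - T * r i ≤ A)
    (h4 : ∀ j ∈ S, T * r j - m j ≤ B ∧ ρ ≤ r j)
    (h5 : ∀ i ∈ L, ∀ j ∈ S, g ≤ r i - r j)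
    (h6 : ∀ i ∈ L, (m i : ℝ) + 1 ≤ D * r i)
    (hρ : 0 < ρ) (hB : 0 ≤ B) (hg : 0 ≤ g)
    (h7 : 2 * B * (1 + B / ρ) < L.card * ((L.card + 1) * g - 2 * A - 2 * B)) : False := by
  have hle : ∀ i, i ∉ S → cn w i (T+1) ≤ m i := by
    intro i hi
    have ha := hΩ (T+1) hT i
    rw [dl_cn, abs_le] at ha
    have hb := h1 i hi
    have hc := ha.2
    push_cast at hc
    have : (cn w i (T+1) : ℝ) < (m i : ℝ) + 1 := by linarith
    have : cn w i (T+1) < m i + 1 := by exact_mod_cast this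
    omega
  obtain ⟨j, hj, hj1⟩ : ∃ j ∈ S, m j < cn w j (T+1) := by
    by_contra hc
    push Not at hc
    have : ∑ i, cn w i (T+1) ≤ ∑ i, m i := sum_le_sum fun i _ => by
      by_cases hi : i ∈ S
      · exact hc i hi
      · exact hle i hi
    rw [sum_cn, hm] at this
    omega
  obtain ⟨p, hp, hpj, hpc⟩ := exists_copy w j (m j) (T+1) hj1
  have hq : ∀ i ∈ L, ∃ q, T + 1 ≤ q ∧ q < D ∧ w q = i ∧ cn w i q = m i := by
    intro i hi
    have ha := hD i
    rw [dl_cn] at ha
    have hb := h6 i hi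
    have : (m i : ℝ) < cn w i D := by linarith
    obtain ⟨q, e1, e2, e3⟩ := exists_copy w i (m i) D (by exact_mod_cast this)
    refine ⟨q, ?_, e1, e2, e3⟩
    by_contra hc
    have e4 : cn w i (q+1) = m i + 1 := by rw [cn_succ, if_pos e2, e3]
    have e5 := cn_mono w i (show q + 1 ≤ T + 1 by omega)
    have e6 := hle i (h2 i hi)
    omega
  choose! q hq1 hq2 hq3 hq4 using hq
  have hL0 : 0 < L.card := by
    by_contra hc
    have : L.card = 0 := by omega
    rw [this] at h7
    have h8 : 0 ≤ 2 * B * (1 + B / ρ) := by positivity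
    push_cast at h7
    linarith
  obtain ⟨i, hi, hqi⟩ : ∃ i ∈ L, T + L.card ≤ q i := by
    by_contra hc
    push Not at hc
    have hinj : Set.InjOn q L := by
      intro a ha b hb hab
      rw [← hq3 a ha, ← hq3 b hb, hab]
    have hsub : L.image q ⊆ Ico (T+1) (T + L.card) := by
      intro x hx
      rw [mem_image] at hx
      obtain ⟨a, ha, rfl⟩ := hx
      rw [mem_Ico]
      exact ⟨hq1 a ha, hc a ha⟩
    have := card_le_card hsub
    rw [card_image_of_injOn hinj, Nat.card_Ico] at this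
    omega
  have hqD := hq2 i hi
  have hsw := swap_opt r D w hopt p (q i) (by omega) hqD
  rw [hq3 i hi, hpj] at hsw
  have hsplit : ∑ k ∈ Ioc p (q i), (pp (dl r w i k) - pm (dl r w j k)) =
      ∑ k ∈ Ioc p T, (pp (dl r w i k) - pm (dl r w j k)) +
      ∑ k ∈ Ioc T (q i), (pp (dl r w i k) - pm (dl r w j k)) := by
    rw [sum_Ioc_consecutive _ (by omega) (by omega)]
  rw [hsplit] at hsw
  obtain ⟨hB1, hρj⟩ := h4 j hj
  have hrj : 0 < r j := by linarith
  -- first part
  have hfirst : ∑ k ∈ Ioc p T, (pp (dl r w i k) - pm (dl r w j k)) ≤ 2 * B * (1 + B / ρ) := by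
    have e1 : ∀ k ∈ Ioc p T, pp (dl r w i k) - pm (dl r w j k) ≤ 2 * B := by
      intro k hk
      rw [mem_Ioc] at hk
      have e2 := pp_le_one (dl r w i k)
      have e3 := hΩ k (by omega) j
      rw [abs_le] at e3
      have e4 := le_pm (dl r w j k) e3.2
      have e5 : m j + 1 ≤ cn w j k := by
        have := cn_mono w j (show p + 1 ≤ k by omega)
        rw [cn_succ, if_pos hpj, hpc] at this
        exact this
      have e6 : ((m j : ℝ) + 1) ≤ cn w j k := by exact_mod_cast e5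
      have e7 : (k:ℝ) ≤ T := by exact_mod_cast hk.2
      have e8 := mul_le_mul_of_nonneg_right e7 hrj.le
      have e13 := dl_cn r w j k
      linarith
    refine le_trans (sum_le_sum e1) ?_
    rw [sum_const, Nat.card_Ioc, nsmul_eq_mul, mul_comm (2 * B)]
    apply mul_le_mul_of_nonneg_right _ (by linarith)
    have e9 := hΩ (p+1) (by omega) j
    rw [dl_cn, cn_succ, if_pos hpj, hpc, abs_le] at e9
    have e10 := e9.2
    push_cast at e10
    rw [Nat.cast_sub (by omega)]
    have e11 : ((T:ℝ) - p - 1) * r j ≤ B := by linarith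
    have e12 : ((T:ℝ) - p - 1) ≤ B / ρ := by
      rw [le_div_iff₀ hρ]
      rcases le_or_gt ((T:ℝ) - p - 1) 0 with h | h
      · nlinarith
      · nlinarith
    linarith
  -- second part
  have hsecond : ∑ k ∈ Ioc T (q i), (pp (dl r w i k) - pm (dl r w j k)) ≤
      ∑ k ∈ Ioc T (q i), (2 * A + 2 * B - 2 * ((k:ℝ) - T) * g) := by
    refine sum_le_sum fun k hk => ?_
    rw [mem_Ioc] at hk
    have e2 := hΩ k (by omega) i
    have e3 := hΩ k (by omega) j
    rw [abs_le] at e2 e3
    have e4 := le_pm (dl r w j k) e3.2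
    have e4' := pp_le (dl r w i k) e2.1
    have e5 : m j + 1 ≤ cn w j k := by
      have := cn_mono w j (show p + 1 ≤ k by omega)
      rw [cn_succ, if_pos hpj, hpc] at this
      exact this
    have e6 : ((m j : ℝ) + 1) ≤ cn w j k := by exact_mod_cast e5
    have e7 : cn w i k ≤ m i := by
      have := cn_mono w i hk.2
      rw [hq4 i hi] at this
      exact this
    have e8 : (cn w i k : ℝ) ≤ m i := by exact_mod_cast e7
    have e9 : (T:ℝ) < k := by exact_mod_cast hk.1
    have e10 := h5 i hi j hj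
    have e11 : ((k:ℝ) - T) * g ≤ ((k:ℝ) - T) * (r i - r j) :=
      mul_le_mul_of_nonneg_left e10 (by linarith)
    have e12 := h3 i hi
    have e13 := dl_cn r w j k
    have e14 := dl_cn r w i k
    linarith
  rw [sum_Ioc_lin T (q i) (by omega)] at hsecond
  have hQ : (L.card : ℝ) ≤ (q i : ℝ) - T := by
    have : ((T + L.card : ℕ) : ℝ) ≤ q i := by exact_mod_cast hqi
    push_cast at this; linarith
  have hLR : (0:ℝ) < L.card := by exact_mod_cast hL0
  have hbr : 0 < (L.card + 1) * g - 2 * A - 2 * B := by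
    have h8 : 0 ≤ 2 * B * (1 + B / ρ) := by positivity
    by_contra hc
    rw [not_lt] at hc
    nlinarith
  have hfin : (L.card : ℝ) * ((L.card + 1) * g - 2 * A - 2 * B) ≤
      ((q i : ℝ) - T) * (((q i : ℝ) - T + 1) * g - 2 * A - 2 * B) := by
    apply mul_le_mul hQ _ hbr.le (by linarith)
    have := mul_le_mul_of_nonneg_right (show (L.card : ℝ) + 1 ≤ (q i : ℝ) - T + 1 by linarith) hg
    linarith
  nlinarith

end Pool.Agent.JIT
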