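import Pool.Agent.JIT.Stab
import Pool.Agent.JIT.Count

/-! A positive proportion of the instances near a failing one fails. -/

namespace Pool.Agent.JIT

open Finset

variable {n : ℕ}

theorem pos_of_fail (d0 : Fin n → ℕ) (hT0 : 0 < ∑ i, d0 i) (h : ¬ Oneness d0) :
    ∃ c : ℝ, 0 < c ∧ ∃ N0 : ℕ, ∀ N : ℕ, N0 ≤ N →
      c * (N:ℝ) ^ n ≤ ({d : Fin n → ℕ | (∀ i, 1 ≤ d i ∧ d i ≤ N) ∧ ¬ Oneness d}.ncard : ℝ) := by
  classical
  obtain ⟨ε, hε, hstab⟩ := stability d0 hT0 h
  set T := ∑ i, d0 i with hT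
  have hTR : (1:ℝ) ≤ T := by exact_mod_cast hT0
  obtain ⟨H, hH⟩ := exists_nat_gt ((n:ℝ) / ε)
  have hH0 : 0 < H := by
    have : (0:ℝ) < H := lt_of_le_of_lt (by positivity) hH
    exact_mod_cast this
  have hHR : (0:ℝ) < H := by exact_mod_cast hH0
  set Q := H * T + 1 with hQ
  have hQ0 : 0 < Q := by omega
  have hQR : (0:ℝ) < Q := by exact_mod_cast hQ0
  refine ⟨(1 / (2 * (Q:ℝ))) ^ n, by positivity, 2 * Q, fun N hN => ?_⟩
  set k := N / Q with hk
  have hk1 : 1 ≤ k := by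
    rw [hk, Nat.le_div_iff_mul_le hQ0]; omega
  have hkN : k * Q ≤ N := Nat.div_mul_le_self N Q
  have hkR : (N:ℝ) / (2 * Q) ≤ k := by
    rw [div_le_iff₀ (by positivity)]
    have h1 : N < (k + 1) * Q := by
      have h2 := Nat.div_add_mod N Q
      have h3 := Nat.mod_lt N hQ0
      rw [← hk] at h2
      nlinarith
    have h2 : N ≤ k * (2 * Q) := by nlinarith
    exact_mod_cast h2
  have hsub : ((Fintype.piFinset fun i : Fin n => Icc (H * k * d0 i + 1) (H * k * d0 i + k) :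
      Finset (Fin n → ℕ)) : Set (Fin n → ℕ)) ⊆
      {d : Fin n → ℕ | (∀ i, 1 ≤ d i ∧ d i ≤ N) ∧ ¬ Oneness d} := by
    intro d hd
    rw [mem_coe, Fintype.mem_piFinset] at hd
    simp only [mem_Icc] at hd
    have hd0T : ∀ i, d0 i ≤ T := fun i => by
      rw [hT]; exact single_le_sum (f := d0) (fun _ _ => Nat.zero_le _) (mem_univ i)
    have hsum1 : H * k * T ≤ ∑ i, d i := by
      rw [hT, mul_sum]
      exact sum_le_sum fun i _ => by have := (hd i).1; omega
    have hsum2 : ∑ i, d i ≤ H * k * T + n * k := by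
      have : ∑ i, d i ≤ ∑ i, (H * k * d0 i + k) := sum_le_sum fun i _ => (hd i).2
      rw [sum_add_distrib, ← mul_sum, sum_const, card_univ, Fintype.card_fin, smul_eq_mul] at this
      exact this
    have hHk : 1 ≤ H * k := Nat.mul_pos hH0 hk1
    have hTD : T ≤ ∑ i, d i := by nlinarith
    refine ⟨fun i => ⟨by have := (hd i).1; omega, ?_⟩, hstab d hTD fun i => ?_⟩
    · have h1 := (hd i).2
      have h2 : H * k * d0 i ≤ H * k * T := Nat.mul_le_mul_left _ (hd0T i)
      have h3 : k * Q = H * k * T + k := by rw [hQ]; ring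
      omega
    · unfold rt
      rw [← hT]
      set D := ∑ i, d i with hD
      have hkR0 : (1:ℝ) ≤ k := by exact_mod_cast hk1
      have hDR1 : (H:ℝ) * k * T ≤ D := by exact_mod_cast hsum1
      have hDR2 : (D:ℝ) ≤ H * k * T + n * k := by exact_mod_cast hsum2
      have hD0 : (0:ℝ) < D := lt_of_lt_of_le (by positivity) hDR1
      have hT0' : (0:ℝ) < T := by linarith
      rw [div_sub_div _ _ hD0.ne' hT0'.ne', abs_div, abs_of_pos (mul_pos hD0 hT0'),
        div_le_iff₀ (mul_pos hD0 hT0')]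
      have h1 : (H:ℝ) * k * d0 i + 1 ≤ d i := by exact_mod_cast (hd i).1
      have h2 : (d i : ℝ) ≤ H * k * d0 i + k := by exact_mod_cast (hd i).2
      have h3 : (d0 i : ℝ) ≤ T := by exact_mod_cast hd0T i
      have h4 : (0:ℝ) ≤ d0 i := Nat.cast_nonneg _
      have hn1 : (1:ℝ) ≤ n := by
        have : 0 < n := i.pos
        exact_mod_cast this
      have hnε : (n:ℝ) < H * ε := by
        rw [div_lt_iff₀ hε] at hH
        exact hH
      have h5 : |(d i : ℝ) * T - D * d0 i| ≤ n * k * T := by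
        rw [abs_le]
        constructor
        · have e1 : (D:ℝ) * d0 i ≤ (H * k * T + n * k) * d0 i := mul_le_mul_of_nonneg_right hDR2 h4
          have e2 : (H:ℝ) * k * d0 i * T ≤ d i * T :=
            mul_le_mul_of_nonneg_right (by linarith) hT0'.le
          have e3 : (n:ℝ) * k * d0 i ≤ n * k * T := mul_le_mul_of_nonneg_left h3 (by positivity)
          nlinarith
        · have e1 : (H:ℝ) * k * T * d0 i ≤ D * d0 i := mul_le_mul_of_nonneg_right hDR1 h4
          have e2 : (d i : ℝ) * T ≤ (H * k * d0 i + k) * T := mul_le_mul_of_nonneg_right h2 hT0'.le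
          have e3 : (k:ℝ) * T ≤ n * k * T := by
            have : 0 ≤ (k:ℝ) * T := by positivity
            nlinarith
          nlinarith
      refine le_trans h5 ?_
      have e1 : (n:ℝ) * k * T ≤ H * ε * k * T := by
        have : 0 ≤ (k:ℝ) * T := by positivity
        nlinarith
      have e2 : ε * ((H:ℝ) * k * T * T) ≤ ε * (D * T) :=
        mul_le_mul_of_nonneg_left (mul_le_mul_of_nonneg_right hDR1 hT0'.le) hε.le
      have e3 : (H:ℝ) * ε * k * T ≤ ε * (H * k * T * T) := by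
        have : 0 ≤ (H:ℝ) * ε * k * T := by positivity
        nlinarith
      linarith
  have hfin : {d : Fin n → ℕ | (∀ i, 1 ≤ d i ∧ d i ≤ N) ∧ ¬ Oneness d}.Finite :=
    (finite_box n N).subset fun d hd => hd.1
  have h1 := Set.ncard_le_ncard hsub hfin
  rw [Set.ncard_coe_finset, Fintype.card_piFinset] at h1
  have h2 : ∏ i : Fin n, (Icc (H * k * d0 i + 1) (H * k * d0 i + k)).card = k ^ n := by
    have : ∀ i : Fin n, (Icc (H * k * d0 i + 1) (H * k * d0 i + k)).card = k := by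
      intro i; rw [Nat.card_Icc]; omega
    simp only [this, prod_const, card_univ, Fintype.card_fin]
  rw [h2] at h1
  have h3 : (1 / (2 * (Q:ℝ))) ^ n * (N:ℝ) ^ n ≤ (k:ℝ) ^ n := by
    rw [← mul_pow]
    apply pow_le_pow_left₀ (by positivity)
    have : 1 / (2 * (Q:ℝ)) * N = N / (2 * Q) := by ring
    rw [this]; exact hkR
  refine le_trans h3 ?_
  exact_mod_cast h1

theorem pos_fail (hn : 5 ≤ n) : ∃ c : ℝ, 0 < c ∧ ∃ N0 : ℕ, ∀ N : ℕ, N0 ≤ N →
      c * (N:ℝ) ^ n ≤ ({d : Fin n → ℕ | (∀ i, 1 ≤ d i ∧ d i ≤ N) ∧ ¬ Oneness d}.ncard : ℝ) := by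
  obtain ⟨d0, h1, h2⟩ := exists_not hn
  exact pos_of_fail d0 (sum_pos (fun i _ => h1 i) ⟨⟨0, by omega⟩, mem_univ _⟩) h2

end Pool.Agent.JIT
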