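import Mathlib

namespace Pool.Agent.JIT

open Finset

/-- the sum `∑ √(d i / max d)` -/
noncomputable def sqrtSum {n : ℕ} (d : Fin n → ℕ) : ℝ :=
  ∑ i, √((d i : ℝ) / (univ.sup d : ℕ))

end Pool.Agent.JIT
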