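import Pool.Agent.JIT.Obst
import Pool.Agent.JIT.Crit
import Pool.Agent.JIT.Bridge
import Pool.Agent.JIT.SqrtDef

/-! The criterion for instances, and a family which shows that its constant is best possible. -/

namespace Pool.Agent.JIT

open Finset

theorem crit_fin {n : ℕ} (d : Fin n → ℕ) (h : (n:ℝ) - 1 ≤ sqrtSum d)
    (s : Fin (∑ i, d i) → Fin n) (hs : IsOptA d s) : InOmega d s := by
  intro i k hk1 hk2
  have hD : 0 < ∑ i, d i := by omega
  have hDR : (0:ℝ) < (∑ i, d i : ℕ) := by exact_mod_cast hD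
  set M := univ.sup d with hM
  have hM0 : 0 < M := by
    by_contra hc
    have h0 : M = 0 := by omega
    have : ∑ i, d i = 0 := sum_eq_zero fun j _ => by
      have : d j ≤ M := le_sup (f := d) (mem_univ j)
      omega
    omega
  have hMR : (0:ℝ) < M := by exact_mod_cast hM0
  have h1 := crit (rt d) (ext s i) (∑ i, d i) (rt_nonneg d) (rt_sum d hD)
    (opt_of_isOptA d s i hs) (dlD d hD _ ((isSeq_iff d s i).1 hs.1)) ((M:ℝ) / (∑ i, d i : ℕ)) ?_ ?_
    k hk2 i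
  · rw [dev_eq d s i i k hk2]; exact h1
  · intro j
    unfold rt
    apply div_le_div_of_nonneg_right _ hDR.le
    have : d j ≤ M := le_sup (f := d) (mem_univ j)
    exact_mod_cast this
  · have e1 : ∀ j, rt d j / ((M:ℝ) / (∑ i, d i : ℕ)) = (d j : ℝ) / M := by
      intro j
      unfold rt
      field_simp
    simp only [e1, sum_sub_distrib, sum_const, card_univ, Fintype.card_fin, nsmul_eq_mul, mul_one]
    unfold sqrtSum at h
    rw [← hM] at h
    linarith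

theorem one_sub_sqrt (x : ℝ) (h1 : x ≤ 1) : 1 - √(1 - x) ≤ x / 2 + x ^ 2 / 2 := by
  rcases le_or_gt (1 - x / 2 - x ^ 2 / 2) 0 with h | h
  · have := Real.sqrt_nonneg (1 - x); linarith
  · have : 1 - x / 2 - x ^ 2 / 2 ≤ √(1 - x) := by
      apply Real.le_sqrt_of_sq_le
      have e : (1 - x / 2 - x ^ 2 / 2) ^ 2 = 1 - x - x ^ 2 * (3 / 4 - x / 2 - x ^ 2 / 4) := by ring
      rw [e]
      have : 0 ≤ x ^ 2 * (3 / 4 - x / 2 - x ^ 2 / 4) := by
        apply mul_nonneg (sq_nonneg x)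
        nlinarith
      linarith
    linarith

section family

variable (x : ℕ)

/-- the family: `s ^ 3` letters with demand `s ^ 5 - 1` and `s` letters with demand
`s ^ 3 x (x + 6) + s ^ 2`, where `s = x + 4` -/
def fam : Fin ((x+4)^3 + (x+4)) → ℕ :=
  fun i => if i.val < (x+4)^3 then (x+4)^5 - 1 else (x+4)^3 * (x * (x+6)) + (x+4)^2

theorem sum_two (K s A B : ℕ) : ∑ i : Fin (K + s), (if i.val < K then A else B) = K * A + s * B := by
  rw [Fin.sum_univ_add]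
  simp

theorem fam_pow (hx : 6 ≤ x) : 1 ≤ (x+4)^5 := Nat.one_le_pow _ _ (by omega)

theorem fam_sum : ∑ i, fam x i = (x+4)^3 * ((x+4)^5 + (x+4) * (x * (x+6))) := by
  unfold fam
  rw [sum_two]
  obtain ⟨y, hy⟩ : ∃ y, (x+4)^5 = y + 1 := ⟨(x+4)^5 - 1, by
    have : 1 ≤ (x+4)^5 := Nat.one_le_pow _ _ (by omega)
    omega⟩
  rw [hy, Nat.add_sub_cancel]
  have : (x+4)^3 * y + (x+4)^3 = (x+4)^3 * (y + 1) := by ring
  nlinarith

theorem fam_not (hx : 6 ≤ x) : ¬ Oneness (fam x) := by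
  set s := x + 4 with hs
  have hs10 : 10 ≤ s := by omega
  set ν := x * (x + 6) with hν
  have hνR : (ν:ℝ) = (s:ℝ) ^ 2 - 2 * s - 8 := by
    rw [hν, hs]; push_cast; ring
  set T := s^5 + s * ν with hT
  have hsum : ∑ i, fam x i = s^3 * T := fam_sum x
  have hsR : (10:ℝ) ≤ s := by exact_mod_cast hs10
  have hs0 : (0:ℝ) < s := by linarith
  have hTR : (T:ℝ) = (s:ℝ) ^ 5 + s ^ 3 - 2 * s ^ 2 - 8 * s := by
    rw [hT]; push_cast; rw [hνR]; ring
  have hT0 : (0:ℝ) < T := by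
    have : 0 < T := by
      rw [hT]; positivity
    exact_mod_cast this
  have hTpos : 0 < T := by exact_mod_cast hT0
  have hDpos : 0 < ∑ i, fam x i := by rw [hsum]; positivity
  have hDR : ((∑ i, fam x i : ℕ) : ℝ) = (s:ℝ) ^ 3 * T := by rw [hsum]; push_cast; ring
  have hs5 : (((s:ℕ)^5 - 1 : ℕ) : ℝ) = (s:ℝ) ^ 5 - 1 := by
    rw [Nat.cast_sub (Nat.one_le_pow _ _ (by omega))]; push_cast; ring
  set a : ℝ := (s:ℝ) ^ 5 - 1 with ha
  set b : ℝ := (s:ℝ) ^ 3 * ((s:ℝ) ^ 2 - 2 * s - 8) + s ^ 2 with hb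
  have hra : ∀ i : Fin (s^3 + s), i.val < s^3 → rt (fam x) i = a / (s ^ 3 * T) := by
    intro i hi
    unfold rt
    rw [hDR]
    unfold fam
    rw [if_pos hi, ← hs, hs5]
  have hrb : ∀ i : Fin (s^3 + s), ¬ i.val < s^3 → rt (fam x) i = b / (s ^ 3 * T) := by
    intro i hi
    unfold rt
    rw [hDR]
    unfold fam
    rw [if_neg hi, ← hs, ← hν]
    push_cast
    rw [hνR]
  have hLc : (univ.filter (fun i : Fin (s^3 + s) => i.val < s^3)).card = s^3 := by
    rw [Fin.card_filter_val_lt]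
    simp
  have hb0 : 0 < b := by
    rw [hb]
    have : 0 ≤ (s:ℝ) ^ 2 - 2 * s - 8 := by nlinarith
    positivity
  have hab : b < a := by
    rw [hb, ha]
    have : (s:ℝ)^3 * (s^2 - 2*s - 8) + s^2 = s^5 - 1 - (2 * s^4 + 8 * s^3 - s^2 - 1) := by ring
    rw [this]
    have : 0 < 2 * (s:ℝ)^4 + 8 * s^3 - s^2 - 1 := by
      have h1 : (s:ℝ)^2 ≤ s^3 := by
        have : (s:ℝ)^3 = s^2 * s := by ring
        nlinarith [sq_nonneg (s:ℝ)]
      have h2 : (1:ℝ) ≤ s^3 := one_le_pow₀ (by linarith)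
      have h3 : (0:ℝ) < s^4 := by positivity
      linarith
    linarith
  apply not_oneness (fam x) hDpos
  intro w hw hopt hΩ
  refine obstruction (rt (fam x)) w (∑ i, fam x i) hopt (dlD (fam x) hDpos w hw) hΩ T ?_
    (fun i : Fin (s^3 + s) => if i.val < s^3 then s^2 else ν) ?_
    (univ.filter (fun i : Fin (s^3 + s) => ¬ i.val < s^3))
    (univ.filter (fun i : Fin (s^3 + s) => i.val < s^3))
    ((a - b) / (s ^ 3 * T)) (1 / s ^ 3) (1 / s) (b / (s ^ 3 * T)) ?_ ?_ ?_ ?_ ?_ ?_ (by positivity)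
    (by positivity) (div_nonneg (by linarith) (by positivity)) ?_
  · rw [hsum]
    have : 2 ≤ s^3 := le_trans (by omega) (Nat.le_self_pow (by norm_num) s)
    nlinarith
  · rw [sum_two, hT]; ring
  · intro i hi
    rw [mem_filter, not_and, not_not] at hi
    have hi' := hi (mem_univ _)
    simp only [if_pos hi']
    rw [hra i hi']
    have e1 : (T:ℝ) * (a / (s ^ 3 * T)) - ((s^2 : ℕ) : ℝ) + a / (s ^ 3 * T) = (a - T) / (s ^ 3 * T) := by
      rw [ha]; push_cast; field_simp; ring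
    rw [e1]
    apply div_neg_of_neg_of_pos _ (by positivity)
    rw [ha, hTR]
    nlinarith [mul_pos hs0 hs0]
  · intro i hi hi'
    rw [mem_filter] at hi hi'
    exact hi'.2 hi.2
  · intro i hi
    rw [mem_filter] at hi
    simp only [if_pos hi.2]
    rw [hra i hi.2, ha]
    apply le_of_eq
    push_cast; field_simp; ring
  · intro j hj
    rw [mem_filter] at hj
    simp only [if_neg hj.2]
    rw [hrb j hj.2]
    refine ⟨le_of_eq ?_, le_rfl⟩
    rw [hνR, hb]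
    field_simp; ring
  · intro i hi j hj
    rw [mem_filter] at hi hj
    rw [hra i hi.2, hrb j hj.2, sub_div]
  · intro i hi
    rw [mem_filter] at hi
    simp only [if_pos hi.2]
    rw [hra i hi.2, hDR]
    have e1 : (s:ℝ) ^ 3 * T * (a / (s ^ 3 * T)) = a := by field_simp
    rw [e1, ha]
    push_cast
    have h1 : (s:ℝ)^5 = s^2 * s^3 := by ring
    have h2 : (3:ℝ) ≤ s^3 := by nlinarith [pow_pos hs0 2]
    have h3 : (1:ℝ) ≤ s^2 := one_le_pow₀ (by linarith)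
    rw [h1]
    nlinarith
  · rw [hLc]
    push_cast
    -- explicit forms
    have hbT : (1 / (s:ℝ)) / (b / (s ^ 3 * T)) = T / ((s:ℝ) ^ 3 - 2 * s ^ 2 - 8 * s + 1) := by
      have hq : (0:ℝ) < (s:ℝ) ^ 3 - 2 * s ^ 2 - 8 * s + 1 := by
        have : (s:ℝ) ^ 3 - 2 * s ^ 2 - 8 * s + 1 = s * (s^2 - 2 * s - 8) + 1 := by ring
        rw [this]
        have : 0 ≤ (s:ℝ) ^ 2 - 2 * s - 8 := by nlinarith
        positivity
      have hb' : b = s^2 * ((s:ℝ) ^ 3 - 2 * s ^ 2 - 8 * s + 1) := by rw [hb]; ring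
      rw [hb']
      field_simp
    rw [hbT]
    set Z : ℝ := (s:ℝ) ^ 3 - 2 * s ^ 2 - 8 * s + 1 with hZ
    have hZl : (7/10:ℝ) * s ^ 3 ≤ Z := by
      rw [hZ]
      have : 2 * (s:ℝ)^2 + 8 * s ≤ 3/10 * s^3 := by
        have h1 : (s:ℝ)^2 * 10 ≤ s^3 := by nlinarith [pow_pos hs0 2]
        have h2 : (s:ℝ) * 10 ≤ s^2 := by nlinarith
        nlinarith
      linarith
    have hZ0 : 0 < Z := lt_of_lt_of_le (by positivity) hZl
    have hTu : (T:ℝ) ≤ 101 / 100 * s ^ 5 := by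
      rw [hTR]
      have : (s:ℝ)^3 * 100 ≤ s^5 := by
        have : (s:ℝ)^5 = s^3 * s^2 := by ring
        rw [this]
        apply mul_le_mul_of_nonneg_left _ (by positivity)
        nlinarith
      have := pow_pos hs0 2
      linarith
    have hL : 2 * (1 / (s:ℝ)) * (1 + T / Z) ≤ 2 * (1 / s) * (1 + 101 / 70 * s ^ 2) := by
      apply mul_le_mul_of_nonneg_left _ (by positivity)
      have : (T:ℝ) / Z ≤ 101 / 70 * s ^ 2 := by
        rw [div_le_iff₀ hZ0]
        have h1 : 101 / 70 * (s:ℝ) ^ 2 * (7/10 * s^3) ≤ 101 / 70 * s ^ 2 * Z :=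
          mul_le_mul_of_nonneg_left hZl (by positivity)
        have h2 : 101 / 70 * (s:ℝ) ^ 2 * (7/10 * s^3) = 101/100 * s^5 := by ring
        linarith
      linarith
    refine lt_of_le_of_lt hL ?_
    have hR : (s:ℝ) ^ 3 * (((s:ℝ) ^ 3 + 1) * ((a - b) / (s ^ 3 * T)) - 2 * (1 / s ^ 3) - 2 * (1 / s)) =
        (8 * s ^ 6 - 5 * s ^ 5 + 6 * s ^ 4 + 21 * s ^ 3 + 3 * s ^ 2 + 16 * s - 1) / T := by
      rw [ha, hb]
      have hTR' : (T:ℝ) = (s:ℝ) ^ 5 + s ^ 3 - 2 * s ^ 2 - 8 * s := hTR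
      field_simp
      rw [hTR']
      ring
    rw [hR, lt_div_iff₀ hT0]
    have hL2 : 2 * (1 / (s:ℝ)) * (1 + 101 / 70 * s ^ 2) ≤ 3 * s := by
      have : 2 * (1 / (s:ℝ)) * (1 + 101 / 70 * s ^ 2) = 2 / s + 101 / 35 * s := by
        field_simp
        ring
      rw [this]
      have : 2 / (s:ℝ) ≤ 1 / 5 := by
        rw [div_le_iff₀ hs0]; linarith
      linarith
    have hL3 : 2 * (1 / (s:ℝ)) * (1 + 101 / 70 * s ^ 2) * T ≤ 3 * s * (101 / 100 * s ^ 5) := by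
      apply mul_le_mul hL2 hTu hT0.le (by positivity)
    refine lt_of_le_of_lt hL3 ?_
    have h5 : (s:ℝ)^5 * 10 ≤ s^6 := by
      have : (s:ℝ)^6 = s^5 * s := by ring
      rw [this]
      exact mul_le_mul_of_nonneg_left hsR (by positivity)
    have h4 : (1:ℝ) ≤ s^4 := one_le_pow₀ (by linarith)
    have h3 : (0:ℝ) < s^3 := by positivity
    have h2 : (0:ℝ) < s^2 := by positivity
    have h6 : (0:ℝ) < s^6 := by positivity
    have e : 3 * (s:ℝ) * (101/100 * s^5) = 303/100 * s^6 := by ring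
    rw [e]
    linarith

theorem fam_pos (hx : 6 ≤ x) (i) : 0 < fam x i := by
  unfold fam
  split_ifs
  · have : 10 ^ 5 ≤ (x+4)^5 := Nat.pow_le_pow_left (by omega) 5
    omega
  · positivity

theorem fam_lt (hx : 6 ≤ x) : (x+4)^3 * (x * (x+6)) + (x+4)^2 ≤ (x+4)^5 - 1 := by
  have h1 : (x+4)^5 = (x+4)^3 * (x * (x+6)) + (x+4)^3 * (2 * x + 16) := by ring
  have h2 : (x+4)^2 + 1 ≤ (x+4)^3 * (2 * x + 16) := by
    have h3 : 1 ≤ (x+4)^2 := Nat.one_le_pow _ _ (by omega)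
    have h4 : (x+4)^3 = (x+4)^2 * (x+4) := by ring
    rw [h4]
    nlinarith
  omega

theorem fam_sup (hx : 6 ≤ x) : univ.sup (fam x) = (x+4)^5 - 1 := by
  apply le_antisymm
  · apply Finset.sup_le
    intro i _
    unfold fam
    split_ifs
    · exact le_rfl
    · exact fam_lt x hx
  · have h : (⟨0, by positivity⟩ : Fin ((x+4)^3 + (x+4))).val < (x+4)^3 := by
      show 0 < (x+4)^3
      positivity
    have := le_sup (f := fam x) (mem_univ (⟨0, by positivity⟩ : Fin ((x+4)^3 + (x+4))))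
    unfold fam at this
    rwa [if_pos h] at this

theorem sum_two_real (K s : ℕ) (A B : ℝ) :
    ∑ i : Fin (K + s), (if i.val < K then A else B) = K * A + s * B := by
  rw [Fin.sum_univ_add]
  simp

theorem fam_sqrt (hx : 6 ≤ x) :
    (((x+4)^3 + (x+4) : ℕ) : ℝ) - 1 - 9 / ((x+4 : ℕ) : ℝ) ≤ sqrtSum (fam x) := by
  unfold sqrtSum
  rw [fam_sup x hx]
  set s := x + 4 with hs
  have hsR : (10:ℝ) ≤ s := by exact_mod_cast (by omega : 10 ≤ s)
  have hs0 : (0:ℝ) < s := by linarith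
  have hs5 : (((s:ℕ)^5 - 1 : ℕ) : ℝ) = (s:ℝ) ^ 5 - 1 := by
    rw [Nat.cast_sub (Nat.one_le_pow _ _ (by omega))]; push_cast; ring
  set a : ℝ := (s:ℝ) ^ 5 - 1 with ha
  have ha0 : 0 < a := by
    have : (1:ℝ) < s^5 := one_lt_pow₀ (by linarith) (by norm_num)
    rw [ha]; linarith
  have hbR : (((x+4)^3 * (x * (x+6)) + (x+4)^2 : ℕ) : ℝ) =
      (s:ℝ) ^ 3 * ((s:ℝ) ^ 2 - 2 * s - 8) + s ^ 2 := by
    rw [hs]; push_cast; ring
  set b : ℝ := (s:ℝ) ^ 3 * ((s:ℝ) ^ 2 - 2 * s - 8) + s ^ 2 with hb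
  have h1 : ∀ i : Fin (s^3 + s), √((fam x i : ℝ) / (((s:ℕ)^5 - 1 : ℕ) : ℝ)) =
      if i.val < s^3 then 1 else √(b / a) := by
    intro i
    unfold fam
    rw [hs5]
    split_ifs with h
    · rw [← hs, hs5, div_self ha0.ne', Real.sqrt_one]
    · rw [hbR]
  rw [sum_congr rfl (fun i _ => h1 i), sum_two_real]
  set X : ℝ := (a - b) / a with hX
  have hba : b / a = 1 - X := by rw [hX]; field_simp; ring
  have hab : a - b = 2 * (s:ℝ)^4 + 8 * s^3 - s^2 - 1 := by rw [ha, hb]; ring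
  have hX9 : X ≤ 2 / s + 9 / s ^ 2 := by
    rw [hX, div_le_iff₀ ha0, hab, ha]
    have e : (2 / (s:ℝ) + 9 / s^2) * (s^5 - 1) = 2 * s^4 + 9 * s^3 - (2 / s + 9 / s^2) := by
      field_simp
    rw [e]
    have h3 : 2 / (s:ℝ) ≤ 1 := by rw [div_le_one hs0]; linarith
    have h4 : 9 / (s:ℝ)^2 ≤ 1 := by rw [div_le_one (by positivity)]; nlinarith
    have h5 : (1:ℝ) ≤ s^3 := one_le_pow₀ (by linarith)
    have h6 : (1:ℝ) ≤ s^2 := one_le_pow₀ (by linarith)
    linarith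
  have hX0 : 0 ≤ X := by
    apply div_nonneg _ ha0.le
    rw [hab]
    have h5 : (s:ℝ)^2 ≤ s^3 := pow_le_pow_right₀ (by linarith) (by norm_num)
    have h6 : (1:ℝ) ≤ s^3 := one_le_pow₀ (by linarith)
    have h7 : (0:ℝ) < s^4 := by positivity
    linarith
  have hX1 : X ≤ 29 / 10 / s := by
    refine le_trans hX9 ?_
    have : 9 / (s:ℝ)^2 ≤ 9 / 10 / s := by
      rw [div_div]
      apply div_le_div_of_nonneg_left (by norm_num) (by positivity)
      nlinarith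
    have e : 29 / 10 / (s:ℝ) = 2 / s + 9 / 10 / s := by ring
    rw [e]; linarith
  have hX2 : X ≤ 1 := by
    refine le_trans hX1 ?_
    rw [div_le_one hs0]; linarith
  have hsq := one_sub_sqrt X hX2
  rw [hba]
  have hkey : s * (1 - √(1 - X)) ≤ 1 + 9 / s := by
    have f1 : s * (1 - √(1 - X)) ≤ s * (X / 2 + X ^ 2 / 2) := mul_le_mul_of_nonneg_left hsq hs0.le
    have f2 : (s:ℝ) * X ≤ 2 + 9 / s := by
      have := mul_le_mul_of_nonneg_left hX9 hs0.le
      have e : (s:ℝ) * (2 / s + 9 / s^2) = 2 + 9 / s := by field_simp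
      linarith
    have f3 : X ^ 2 ≤ (29 / 10 / s) ^ 2 := pow_le_pow_left₀ hX0 hX1 2
    have f4 : (s:ℝ) * (29 / 10 / s) ^ 2 = 841 / 100 / s := by field_simp; norm_num
    have f5 := mul_le_mul_of_nonneg_left f3 hs0.le
    rw [f4] at f5
    have e1 : (s:ℝ) * (X / 2 + X ^ 2 / 2) = (s * X) / 2 + (s * X ^ 2) / 2 := by ring
    have e2 : (9:ℝ) / s = 4.5 / s + 4.5 / s := by ring
    have e3 : (841 / 100 / s : ℝ) / 2 ≤ 4.5 / s := by
      rw [div_div, div_div, div_le_div_iff₀ (by positivity) hs0]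
      nlinarith
    rw [e1] at f1
    have e4 : (2 + 9 / (s:ℝ)) / 2 = 1 + 4.5 / s := by ring
    linarith
  have hxs : (x:ℝ) + 4 = s := by rw [hs]; push_cast; ring
  push_cast
  rw [hxs]
  linarith

end family

/-- the constant of the criterion is best possible -/
theorem sharp (ε : ℝ) (hε : 0 < ε) : ∃ (n : ℕ) (d : Fin n → ℕ), (∀ i, 0 < d i) ∧
    (n:ℝ) - 1 - ε ≤ sqrtSum d ∧ ¬ Oneness d := by
  obtain ⟨k, hk⟩ := exists_nat_gt (9 / ε)
  set x := k + 6 with hx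
  refine ⟨(x+4)^3 + (x+4), fam x, fam_pos x (by omega), ?_, fam_not x (by omega)⟩
  have h1 := fam_sqrt x (by omega)
  have h2 : 9 / ((x + 4 : ℕ) : ℝ) ≤ ε := by
    rw [div_lt_iff₀ hε] at hk
    rw [div_le_iff₀ (by positivity)]
    have : (k:ℝ) ≤ ((x + 4 : ℕ) : ℝ) := by exact_mod_cast (by omega : k ≤ x + 4)
    nlinarith
  linarith

end Pool.Agent.JIT
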