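import Pool.Agent.JIT.Obst
import Pool.Agent.JIT.Bridge

/-! The set of rate vectors of instances without the oneness property is open; failing instances
have positive proportion for every number of letters at least five. -/

namespace Pool.Agent.JIT

open Finset

variable {n : ℕ}

/-- splice: `u` before `T`, `w` from `T` on -/
def spl (T : ℕ) (u w : ℕ → Fin n) : ℕ → Fin n := fun p => if p < T then u p else w p

theorem cn_spl_lt (T : ℕ) (u w : ℕ → Fin n) (i : Fin n) (k : ℕ) (hk : k ≤ T) :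
    cn (spl T u w) i k = cn u i k :=
  cn_congr _ _ i k fun p hp => by unfold spl; rw [if_pos (by omega)]

theorem cn_spl_ge (T : ℕ) (u w : ℕ → Fin n) (h : ∀ i, cn u i T = cn w i T) (i : Fin n) (k : ℕ)
    (hk : T ≤ k) : cn (spl T u w) i k = cn w i k := by
  induction k, hk using Nat.le_induction with
  | base => rw [cn_spl_lt T u w i T le_rfl, h i]
  | succ k hk ih =>
    have h1 : spl T u w k = w k := by unfold spl; rw [if_neg (by omega)]
    rw [cn_succ, cn_succ, ih, h1]

/-- at time `T`, the counts of an optimal word in `Ω` are those of `d0`, if the rates are close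
to those of `d0` -/
theorem cut (r : Fin n → ℝ) (w : ℕ → Fin n) (D : ℕ) (hopt : Opt r D w)
    (hD : ∀ i, dl r w i D = 0) (hΩ : ∀ k, k ≤ D → ∀ i, |dl r w i k| ≤ 1) (hr : ∀ i, 0 ≤ r i)
    (d0 : Fin n → ℕ) (T : ℕ) (hT : ∑ i, d0 i = T) (hT0 : 0 < T) (hTD : T ≤ D) (η : ℝ) (hη : 0 < η)
    (hηT : η * (2 * T + 4) < 1) (he : ∀ i, |T * r i - d0 i| ≤ η) : ∀ i, cn w i T = d0 i := by
  have hT1 : (1:ℝ) ≤ T := by exact_mod_cast hT0
  have hη4 : η < 1 / 4 := by nlinarith
  have hrange : ∀ i, cn w i T ≤ d0 i + 1 ∧ d0 i ≤ cn w i T + 1 := by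
    intro i
    have h1 := hΩ T hTD i
    have h2 := he i
    rw [dl_cn, abs_le] at h1
    rw [abs_le] at h2
    constructor
    · have : (cn w i T : ℝ) < d0 i + 1 + 1 := by linarith
      have : cn w i T < d0 i + 1 + 1 := by exact_mod_cast this
      omega
    · have : (d0 i : ℝ) < cn w i T + 1 + 1 := by linarith
      have : d0 i < cn w i T + 1 + 1 := by exact_mod_cast this
      omega
  by_contra hcon
  push Not at hcon
  obtain ⟨i0, hi0⟩ := hcon
  have hsum := sum_cn w T
  have hex1 : ∃ j, d0 j < cn w j T := by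
    by_contra hc
    push Not at hc
    have h1 : ∑ i, cn w i T < ∑ i, d0 i :=
      sum_lt_sum (fun i _ => hc i) ⟨i0, mem_univ _, lt_of_le_of_ne (hc i0) hi0⟩
    rw [hsum, hT] at h1
    exact lt_irrefl _ h1
  have hex2 : ∃ i, cn w i T < d0 i := by
    by_contra hc
    push Not at hc
    have h1 : ∑ i, d0 i < ∑ i, cn w i T :=
      sum_lt_sum (fun i _ => hc i) ⟨i0, mem_univ _, lt_of_le_of_ne (hc i0) (Ne.symm hi0)⟩
    rw [hsum, hT] at h1
    exact lt_irrefl _ h1
  obtain ⟨j, hj⟩ := hex1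
  obtain ⟨i, hi⟩ := hex2
  have hi1 : cn w i T + 1 = d0 i := by have := (hrange i).2; omega
  obtain ⟨p, hp, hpj, hpc⟩ := exists_copy w j (d0 j) T hj
  have hei := he i
  have hej := he j
  rw [abs_le] at hei hej
  have hi1R : (cn w i T : ℝ) + 1 = d0 i := by exact_mod_cast hi1
  have hcD : cn w i T < cn w i D := by
    have h1 := hD i
    rw [dl_cn] at h1
    have h2 : (T:ℝ) * r i ≤ D * r i :=
      mul_le_mul_of_nonneg_right (by exact_mod_cast hTD) (hr i)
    have : (cn w i T : ℝ) < cn w i D := by linarith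
    exact_mod_cast this
  obtain ⟨q, hq1, hq2, hq3, hq4⟩ := exists_first w i T D hcD hTD
  have hri : 1 - η ≤ T * r i := by
    have : (1:ℝ) ≤ d0 i := by
      have : 1 ≤ d0 i := by omega
      exact_mod_cast this
    linarith
  have hqT : q = T := by
    by_contra hne
    have hT1D : T + 1 ≤ D := by omega
    have h1 := hΩ (T+1) hT1D i
    have h2 : cn w i (T+1) = cn w i T := by
      rw [cn_succ, if_neg (hq4 T le_rfl (by omega)), add_zero]
    rw [dl_cn, h2, abs_le] at h1
    have h3 := h1.1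
    push_cast at h3
    have h4 : r i ≤ η := by linarith
    have h5 : (T:ℝ) * r i ≤ T * η := mul_le_mul_of_nonneg_left h4 (by linarith)
    nlinarith
  subst hqT
  have hsw := swap_opt r D w hopt p q (by omega) hq2
  rw [hpj, hq3] at hsw
  obtain ⟨t, ht⟩ : ∃ t, q = t + 1 := ⟨q - 1, by omega⟩
  have h1 : ∑ k ∈ Ioc p q, (pp (dl r w i k) - pm (dl r w j k)) =
      ∑ k ∈ Ioc p t, (pp (dl r w i k) - pm (dl r w j k)) + (pp (dl r w i q) - pm (dl r w j q)) := by
    rw [ht, sum_Ioc_succ_top (by omega)]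
  rw [h1] at hsw
  have hjk : ∀ k, p < k → k ≤ q → 1 - 2 * η ≤ pm (dl r w j k) := by
    intro k hk1 hk2
    have e1 := hΩ k (by omega) j
    rw [abs_le] at e1
    have e2 := le_pm _ e1.2
    have e3 : d0 j + 1 ≤ cn w j k := by
      have := cn_mono w j (show p + 1 ≤ k by omega)
      rw [cn_succ, if_pos hpj, hpc] at this
      exact this
    have e4 : (d0 j : ℝ) + 1 ≤ cn w j k := by exact_mod_cast e3
    have e5 : (k:ℝ) * r j ≤ q * r j := mul_le_mul_of_nonneg_right (by exact_mod_cast hk2) (hr j)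
    have e6 := dl_cn r w j k
    linarith
  have h2 : ∑ k ∈ Ioc p t, (pp (dl r w i k) - pm (dl r w j k)) ≤ q * (2 * η) := by
    have e1 : ∀ k ∈ Ioc p t, pp (dl r w i k) - pm (dl r w j k) ≤ 2 * η := by
      intro k hk
      rw [mem_Ioc] at hk
      have := hjk k hk.1 (by omega)
      have := pp_le_one (dl r w i k)
      linarith
    refine le_trans (sum_le_sum e1) ?_
    rw [sum_const, Nat.card_Ioc, nsmul_eq_mul]
    apply mul_le_mul_of_nonneg_right _ (by linarith)
    exact_mod_cast (by omega : t - p ≤ q)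
  have h3 : pp (dl r w i q) ≤ -1 + 2 * η := by
    have e1 := hΩ q hTD i
    rw [abs_le] at e1
    have e2 := pp_le _ e1.1
    have e3 := dl_cn r w i q
    linarith
  have h4 := hjk q (by omega) le_rfl
  nlinarith

/-- openness of the set of failing instances in terms of the rates -/
theorem stability (d0 : Fin n → ℕ) (hT0 : 0 < ∑ i, d0 i) (h : ¬ Oneness d0) :
    ∃ ε : ℝ, 0 < ε ∧ ∀ d : Fin n → ℕ, ∑ i, d0 i ≤ ∑ i, d i → (∀ i, |rt d i - rt d0 i| ≤ ε) →
      ¬ Oneness d := by
  classical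
  set T := ∑ i, d0 i with hT
  have hTR : (1:ℝ) ≤ T := by exact_mod_cast hT0
  have hT0' : (0:ℝ) < T := by linarith
  have hn0 : 0 < n := by
    by_contra hc
    have : n = 0 := by omega
    subst this
    simp [hT] at hT0
  have hnR : (1:ℝ) ≤ n := by exact_mod_cast hn0
  -- the tolerance at time `T`
  set η : ℝ := 1 / (4 * n * (T + 2) ^ 3) with hη
  have hη0 : 0 < η := by rw [hη]; positivity
  have hηb : η * (4 * n * (T + 2) ^ 3) = 1 := by rw [hη]; field_simp
  have hT2 : (1:ℝ) ≤ (T + 2) ^ 2 := one_le_pow₀ (by linarith)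
  have hη1 : η * (2 * T + 4) < 1 := by
    have e1 : (2 * (T:ℝ) + 4) < 4 * n * (T + 2) ^ 3 := by
      have : (T + 2 : ℝ) ≤ (T + 2) ^ 3 := by nlinarith
      nlinarith
    have := mul_lt_mul_of_pos_left e1 hη0
    linarith
  refine ⟨η / T, by positivity, fun d hTD hclose => ?_⟩
  have hDpos : 0 < ∑ i, d i := by omega
  apply not_oneness d hDpos
  intro w hw hopt hΩ
  set D := ∑ i, d i with hDdef
  have hDl := dlD d hDpos w hw
  have hr0 : ∀ i, T * rt d0 i = d0 i := by
    intro i; unfold rt; rw [← hT]; field_simp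
  have he : ∀ i, |(T:ℝ) * rt d i - d0 i| ≤ η := by
    intro i
    have h1 := hclose i
    rw [← hr0 i, ← mul_sub, abs_mul, abs_of_pos hT0']
    rw [le_div_iff₀ hT0'] at h1
    linarith
  have hcut := cut (rt d) w D hopt hDl hΩ (rt_nonneg d) d0 T rfl hT0 hTD η hη0 hη1 he
  -- the initial segment
  have hseq : IsSeq d0 (res T w) := by
    rw [isSeq_iff d0 _ ⟨0, hn0⟩]
    intro i
    have h1 := cn_congr (ext (res T w) ⟨0, hn0⟩) w i T (fun p hp => ext_res _ w _ p hp)
    exact h1.trans (hcut i)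
  -- closeness of deviations
  have hdd : ∀ (v : ℕ → Fin n) (i : Fin n) (k : ℕ), k ≤ T →
      |dl (rt d) v i k - dl (rt d0) v i k| ≤ η := by
    intro v i k hk
    rw [dl_cn, dl_cn]
    have e1 : (cn v i k : ℝ) - k * rt d i - (cn v i k - k * rt d0 i) = -(k * (rt d i - rt d0 i)) := by
      ring
    rw [e1, abs_neg, abs_mul, abs_of_nonneg (Nat.cast_nonneg k)]
    have e2 : (k:ℝ) ≤ T := by exact_mod_cast hk
    have e3 := hclose i
    rw [le_div_iff₀ hT0'] at e3
    have e4 := mul_le_mul_of_nonneg_right e2 (abs_nonneg (rt d i - rt d0 i))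
    linarith
  have hAAd : ∀ v : ℕ → Fin n, |AA (rt d) T v - AA (rt d0) T v| ≤ T * (n * η) := by
    intro v
    unfold AA
    rw [← sum_sub_distrib]
    refine le_trans (abs_sum_le_sum_abs _ _) ?_
    have : ∀ k ∈ range T, |(∑ i, |dl (rt d) v i (k+1)|) - (∑ i, |dl (rt d0) v i (k+1)|)| ≤ n * η := by
      intro k hk
      rw [mem_range] at hk
      rw [← sum_sub_distrib]
      refine le_trans (abs_sum_le_sum_abs _ _) ?_
      refine le_trans (sum_le_sum fun i _ => (abs_abs_sub_abs_le _ _).trans (hdd v i (k+1) (by omega))) ?_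
      rw [sum_const, card_univ, Fintype.card_fin, nsmul_eq_mul]
    refine le_trans (sum_le_sum this) ?_
    rw [sum_const, card_range, nsmul_eq_mul]
  -- integrality
  have hint : ∀ (v : ℕ → Fin n) (i : Fin n) (k : ℕ), ∃ z : ℤ, T * dl (rt d0) v i k = z := by
    intro v i k
    refine ⟨(T:ℤ) * cn v i k - k * d0 i, ?_⟩
    rw [dl_cn]
    push_cast
    rw [← hr0 i]; ring
  have hintA : ∀ v : ℕ → Fin n, ∃ z : ℤ, T * AA (rt d0) T v = z := by
    intro v
    have : ∀ k i, ∃ z : ℤ, T * |dl (rt d0) v i (k+1)| = z := by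
      intro k i
      obtain ⟨z, hz⟩ := hint v i (k+1)
      refine ⟨|z|, ?_⟩
      rw [Int.cast_abs, ← hz, abs_mul, abs_of_pos hT0']
    choose z hz using this
    refine ⟨∑ k ∈ range T, ∑ i, z k i, ?_⟩
    unfold AA
    rw [mul_sum]
    push_cast
    refine sum_congr rfl fun k _ => ?_
    rw [mul_sum]
    exact sum_congr rfl fun i _ => hz k i
  have hΩ0 : InOmega d0 (res T w) := by
    intro i k hk1 hk2
    rw [dev_eq d0 (res T w) ⟨0, hn0⟩ i k hk2]
    have e0 : dl (rt d0) (ext (res T w) ⟨0, hn0⟩) i k = dl (rt d0) w i k := by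
      rw [dl_cn, dl_cn, cn_congr _ w i k (fun p hp => ext_res _ w _ p (by omega))]
    rw [e0]
    obtain ⟨z, hz⟩ := hint w i k
    have e1 := hdd w i k hk2
    have e2 := hΩ k (le_trans hk2 hTD) i
    have e3 : |dl (rt d0) w i k| ≤ 1 + η := by
      have : dl (rt d0) w i k = dl (rt d) w i k - (dl (rt d) w i k - dl (rt d0) w i k) := by ring
      rw [this]
      exact le_trans (abs_sub _ _) (add_le_add e2 e1)
    have e4 : |(z:ℝ)| < T + 1 := by
      rw [← hz, abs_mul, abs_of_pos hT0']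
      have e5 := mul_le_mul_of_nonneg_left e3 hT0'.le
      have e6 : (T:ℝ) * η < 1 := by nlinarith
      linarith
    have e5 : |z| ≤ T := by
      have : |z| < (T:ℤ) + 1 := by exact_mod_cast e4
      omega
    have e6 : |(z:ℝ)| ≤ T := by exact_mod_cast e5
    rw [← hz, abs_mul, abs_of_pos hT0'] at e6
    nlinarith
  have hnopt : ¬ IsOptA d0 (res T w) := fun ho => h ⟨res T w, ho, hΩ0⟩
  have : ∃ s', IsSeq d0 s' ∧ totalDev d0 s' < totalDev d0 (res T w) := by
    by_contra hc
    push Not at hc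
    exact hnopt ⟨hseq, hc⟩
  obtain ⟨s', hs', hlt⟩ := this
  set a0 : Fin n := ⟨0, hn0⟩ with ha0
  set u := ext s' a0 with hu
  have hu1 : ∀ i, cn u i T = cn w i T := by
    intro i
    rw [hcut i]
    exact (isSeq_iff d0 s' a0).1 hs' i
  rw [totalDev_eq d0 s' a0, totalDev_eq d0 _ a0, AA_congr _ _ _ w (fun p hp => ext_res _ w a0 p hp)]
    at hlt
  have hlt' : AA (rt d0) T u < AA (rt d0) T w := hlt
  -- integrality gives a gap
  have hgap : AA (rt d0) T u + 1 / T ≤ AA (rt d0) T w := by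
    obtain ⟨z1, hz1⟩ := hintA u
    obtain ⟨z2, hz2⟩ := hintA w
    have e1 : (z1:ℝ) < z2 := by rw [← hz1, ← hz2]; exact mul_lt_mul_of_pos_left hlt' hT0'
    have e2 : z1 + 1 ≤ z2 := by
      have : z1 < z2 := by exact_mod_cast e1
      omega
    have e3 : (z1:ℝ) + 1 ≤ z2 := by exact_mod_cast e2
    rw [← hz1, ← hz2] at e3
    have e4 : (T:ℝ) * (AA (rt d0) T u + 1 / T) ≤ T * AA (rt d0) T w := by
      rw [mul_add, mul_one_div_cancel hT0'.ne']; exact e3
    exact le_of_mul_le_mul_left e4 hT0'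
  -- compare `w` with the spliced word
  have hfin := hopt (spl T u w) (fun i => by
    rw [c_eq_cn, c_eq_cn, cn_spl_ge T u w hu1 i D hTD])
  have hsplit : ∀ v : ℕ → Fin n, AA (rt d) D v = AA (rt d) T v +
      ∑ k ∈ Ico T D, ∑ i, |dl (rt d) v i (k+1)| := by
    intro v
    unfold AA
    rw [sum_range_add_sum_Ico _ hTD]
  rw [hsplit w, hsplit (spl T u w)] at hfin
  have e1 : AA (rt d) T (spl T u w) = AA (rt d) T u :=
    AA_congr _ _ _ _ fun p hp => by unfold spl; rw [if_pos hp]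
  have e2 : ∑ k ∈ Ico T D, ∑ i, |dl (rt d) (spl T u w) i (k+1)| =
      ∑ k ∈ Ico T D, ∑ i, |dl (rt d) w i (k+1)| := by
    refine sum_congr rfl fun k hk => sum_congr rfl fun i _ => ?_
    rw [mem_Ico] at hk
    rw [dl_cn, dl_cn, cn_spl_ge T u w hu1 i (k+1) (by omega)]
  rw [e1, e2] at hfin
  have e3 := hAAd u
  have e4 := hAAd w
  rw [abs_le] at e3 e4
  have e5 : 2 * ((T:ℝ) * (n * η)) < 1 / T := by
    rw [lt_div_iff₀ hT0']
    have e6 : 2 * ((T:ℝ) * (n * η)) * T = η * (2 * n * T ^ 2) := by ring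
    rw [e6]
    have e7 : 2 * (n:ℝ) * T ^ 2 < 4 * n * (T + 2) ^ 3 := by
      have e8 : (T:ℝ) ^ 2 ≤ (T + 2) ^ 3 := by nlinarith
      have : (0:ℝ) < n * (T+2)^3 := by positivity
      nlinarith
    have := mul_lt_mul_of_pos_left e7 hη0
    linarith
  linarith

end Pool.Agent.JIT
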