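import Pool.Agent.JIT.Fail2
import Pool.Agent.JIT.Bridge

/-! Two demands: the positive part of the dichotomy. -/

namespace Pool.Agent.JIT

open Finset

variable {ι : Type*} [Fintype ι] [DecidableEq ι]

theorem pm_add (x y : ℝ) (hx : 0 ≤ x) (hy : 0 ≤ y) (h : 1 ≤ x + y) : 0 ≤ pm x + pm y := by
  rcases le_or_gt x 1 with h1 | h1
  · rcases le_or_gt y 1 with h2 | h2
    · rw [pm_eq x hx h1, pm_eq y hy h2]; linarith
    · rw [pm_one y h2.le]; linarith [neg_one_le_pm x]
  · rw [pm_one x h1.le]; linarith [neg_one_le_pm y]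

theorem sum_div_sq (k L : ℕ) (hk : 0 < k) :
    (L:ℤ) ^ 2 + (L % k : ℕ) * (k - (L % k : ℕ)) = k * (L + 2 * ∑ m ∈ range L, ((m / k : ℕ) : ℤ)) := by
  induction L with
  | zero => simp
  | succ L ih =>
    rw [sum_range_succ]
    have h1 := Nat.div_add_mod L k
    have h1' : (k:ℤ) * (L / k : ℕ) + (L % k : ℕ) = L := by exact_mod_cast h1
    have h2 := Nat.mod_lt L hk
    rcases Nat.lt_or_ge (L % k + 1) k with h | h
    · have h3 : (L + 1) % k = L % k + 1 := by
        rw [Nat.add_mod, Nat.mod_eq_of_lt (show 1 < k by omega)]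
        exact Nat.mod_eq_of_lt h
      rw [h3]
      push_cast
      push_cast at ih h1'
      nlinarith
    · have h4 : L % k + 1 = k := by omega
      have h3 : (L + 1) % k = 0 := by
        rw [← Nat.div_add_mod L k, add_assoc, h4, Nat.mul_add_mod, Nat.mod_self]
      rw [h3]
      have h5 : ((L % k : ℕ) : ℤ) = k - 1 := by
        have : ((L % k + 1 : ℕ) : ℤ) = k := by exact_mod_cast h4
        push_cast at this
        push_cast
        linarith
      push_cast
      push_cast at ih h1' h5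
      rw [h5] at ih h1'
      nlinarith

theorem sum_div_le (k L : ℕ) (hk : 0 < k) :
    (L:ℝ) ^ 2 ≤ k * (L + 2 * ∑ m ∈ range L, ((m / k : ℕ) : ℝ)) := by
  have h := sum_div_sq k L hk
  have h1 : (0:ℤ) ≤ (L % k : ℕ) * (k - (L % k : ℕ)) := by
    have := Nat.mod_lt L hk
    apply mul_nonneg (by positivity)
    have : ((L % k : ℕ) : ℤ) < k := by exact_mod_cast this
    linarith
  have h2 : (L:ℤ) ^ 2 ≤ k * (L + 2 * ∑ m ∈ range L, ((m / k : ℕ) : ℤ)) := by linarith
  exact_mod_cast h2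

/-- the core estimate at the first negative violation -/
theorem two_core (r : ι → ℝ) (w : ℕ → ι) (D : ℕ) (hopt : Opt r D w) (hD : ∀ i, dl r w i D = 0)
    (hr : ∀ i, 0 ≤ r i) (hrs : ∑ i, r i = 1)
    (hbal : ∀ i j, r i = r j → ∀ k, k ≤ D → cn w i k ≤ cn w j k + 1)
    (X : Finset ι) (ρ σ : ℝ) (hX : ∀ i ∈ X, r i = ρ) (hY : ∀ i, i ∉ X → r i = σ)
    (t : ℕ) (htD : t ≤ D) (l : ι) (hl : l ∈ X) (d1 : dl r w l t < -1)
    (hf : ∀ k, k < t → ∀ i, -1 ≤ dl r w i k) :
    σ < ρ ∧ 2 * X.card + Xᶜ.card < Xᶜ.card * X.card := by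
  classical
  have hr1 : ∀ i, r i ≤ 1 := by
    intro i
    rw [← hrs]
    exact single_le_sum (fun i _ => hr i) (mem_univ i)
  have ht0 : 0 < t := by
    rcases Nat.eq_zero_or_pos t with h | h
    · rw [h, dl_zero] at d1; norm_num at d1
    · exact h
  have hρ0 : 0 ≤ ρ := hX l hl ▸ hr l
  -- next placement of `l`
  have hcl : cn w l t < cn w l D := by
    have e1 := hD l
    rw [dl_cn] at e1
    have e3 := d1
    rw [dl_cn] at e3
    have e2 : (t:ℝ) * r l ≤ D * r l := mul_le_mul_of_nonneg_right (by exact_mod_cast htD) (hr l)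
    have : (cn w l t : ℝ) < cn w l D := by linarith
    exact_mod_cast this
  obtain ⟨e, he1, he2, he3, he4⟩ := exists_first w l t D hcl htD
  have hlate : ∀ k, t ≤ k → k ≤ e → pp (dl r w l k) = -1 := by
    intro k h1 h2
    apply pp_of_le
    obtain ⟨m, rfl⟩ := Nat.exists_eq_add_of_le h1
    rw [dl_noplace r w l t m (fun x h3 h4 => he4 x h3 (by omega))]
    have := mul_nonneg (Nat.cast_nonneg (α := ℝ) m) (hr l)
    linarith
  have d2 : dl r w (w (t-1)) t ≤ 0 := by
    apply nonpos_of_pm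
    have h := swap_opt r D w hopt (t-1) e (by omega) he2
    rw [he3] at h
    have h2 : ∑ k ∈ Ioc (t-1) e, (pp (dl r w l k) - pm (dl r w (w (t-1)) k)) ≤
        ∑ k ∈ Ioc (t-1) e, (if k = t then -1 - pm (dl r w (w (t-1)) t) else 0) := by
      refine sum_le_sum fun k hk => ?_
      rw [mem_Ioc] at hk
      rw [hlate k (by omega) hk.2]
      by_cases hkt : k = t
      · rw [if_pos hkt, hkt]
      · rw [if_neg hkt]
        have := neg_one_le_pm (dl r w (w (t-1)) k)
        linarith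
    rw [sum_ite_eq', if_pos (by rw [mem_Ioc]; omega)] at h2
    linarith
  -- balance in terms of deviations
  have hbalX : ∀ i ∈ X, ∀ j ∈ X, ∀ k ≤ D, cn w i k ≤ cn w j k + 1 := fun i hi j hj k hk =>
    hbal i j (by rw [hX i hi, hX j hj]) k hk
  have hbalY : ∀ i, i ∉ X → ∀ j, j ∉ X → ∀ k ≤ D, cn w i k ≤ cn w j k + 1 := fun i hi j hj k hk =>
    hbal i j (by rw [hY i hi, hY j hj]) k hk
  have hXt : ∀ b ∈ X, dl r w b t ≤ dl r w l t + 1 := by
    intro b hb
    have h1 : (cn w b t : ℝ) ≤ cn w l t + 1 := by exact_mod_cast hbalX b hb l hl t htD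
    have h2 := dl_cn r w b t
    have h3 := dl_cn r w l t
    rw [hX b hb] at h2
    rw [hX l hl] at h3
    linarith
  have hsum := sum_dl r hrs w t
  rw [← sum_add_sum_compl X] at hsum
  have hXsum : ∑ b ∈ X, dl r w b t ≤ dl r w l t := by
    rw [← add_sum_erase X _ hl]
    have : ∑ x ∈ X.erase l, dl r w x t ≤ 0 := sum_nonpos fun b hb => by
      have := hXt b (mem_of_mem_erase hb); linarith
    linarith
  have hYsum : 1 < ∑ y ∈ Xᶜ, dl r w y t := by linarith
  -- the letter before time `t` lies in `X`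
  have hw1 : w (t-1) ∈ X := by
    by_contra hc
    have h1 : ∀ y ∈ Xᶜ, dl r w y t ≤ 0 := by
      intro y hy
      rw [mem_compl] at hy
      by_cases hyw : y = w (t-1)
      · rw [hyw]; exact d2
      · have e1 := hbalY y hy (w (t-1)) hc (t-1) (by omega)
        have e2 : cn w y t = cn w y (t-1) := by
          have := cn_succ w y (t-1)
          rw [if_neg (fun h => hyw h.symm), show t - 1 + 1 = t by omega] at this
          omega
        have e3 : cn w (w (t-1)) t = cn w (w (t-1)) (t-1) + 1 := by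
          have := cn_succ w (w (t-1)) (t-1)
          rw [if_pos rfl, show t - 1 + 1 = t by omega] at this
          omega
        have e4 : (cn w y t : ℝ) ≤ cn w (w (t-1)) t := by
          exact_mod_cast (by omega : cn w y t ≤ cn w (w (t-1)) t)
        have e5 := dl_cn r w y t
        have e6 := dl_cn r w (w (t-1)) t
        rw [hY y hy] at e5
        rw [hY _ hc] at e6
        linarith
    have := sum_nonpos h1
    linarith
  -- the last letter outside `X` before time `t`
  obtain ⟨y0, hy0, hy0t⟩ : ∃ y ∈ Xᶜ, 0 < dl r w y t := by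
    by_contra hc
    push Not at hc
    have := sum_nonpos hc
    linarith
  obtain ⟨x0, hx0, hx0w⟩ := exists_placed r w hr y0 t hy0t
  obtain ⟨q, hq, hqmax⟩ := exists_max_image ((range t).filter (fun x => w x ∉ X)) id
    ⟨x0, by rw [mem_filter, mem_range, hx0w]; exact ⟨hx0, mem_compl.1 hy0⟩⟩
  rw [mem_filter, mem_range] at hq
  obtain ⟨hqt, hqX⟩ := hq
  have hwin : ∀ x, q < x → x < t → w x ∈ X := by
    intro x h1 h2
    by_contra hc
    have := hqmax x (by rw [mem_filter, mem_range]; exact ⟨h2, hc⟩)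
    simp only [id] at this
    omega
  have hqt2 : q + 1 < t := by
    by_contra hc
    have : q = t - 1 := by omega
    rw [this] at hqX
    exact hqX hw1
  set j := w q with hj
  set g := dl r w j t with hg
  have hYt : ∀ y ∈ Xᶜ, dl r w y t ≤ g := by
    intro y hy
    rw [mem_compl] at hy
    by_cases hyj : y = j
    · rw [hyj]
    · have e1 := hbalY y hy j hqX q (by omega)
      have e2 : cn w y t = cn w y (q+1) := cn_const w y (by omega) (fun x h1 h2 h3 => hy (h3 ▸ hwin x (by omega) h2))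
      have e3 : cn w y (q+1) = cn w y q := by
        rw [cn_succ, if_neg (fun h => hyj h.symm), add_zero]
      have e4 : cn w j (q+1) = cn w j q + 1 := by rw [cn_succ, if_pos hj.symm]
      have e5 := cn_mono w j (show q + 1 ≤ t by omega)
      have e6 : (cn w y t : ℝ) ≤ cn w j t := by
        exact_mod_cast (by omega : cn w y t ≤ cn w j t)
      have e7 := dl_cn r w y t
      have e8 := dl_cn r w j t
      rw [hY y hy] at e7
      rw [hY j hqX] at e8
      linarith
  have hlg : 1 < (Xᶜ.card : ℝ) * g := by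
    have := sum_le_sum hYt
    rw [sum_const, nsmul_eq_mul] at this
    linarith
  have hg0 : 0 < g := by
    by_contra hc
    rw [not_lt] at hc
    have : (Xᶜ.card : ℝ) * g ≤ 0 := mul_nonpos_of_nonneg_of_nonpos (Nat.cast_nonneg _) hc
    linarith
  -- the chain of exchanges
  set n1 := t - 1 - q with hn1
  have hn1t : q + n1 = t - 1 := by omega
  have hch : ∀ m, m ≤ n1 → Ch r D w (t - 1 - m) e (∑ k ∈ Ioc (t-1) e, pp (dl r w l k) +
      ∑ i ∈ range m, pp (dl r w (w (t - 1 - i)) (t - 1 - i))) := by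
    intro m
    induction m with
    | zero =>
      intro _
      have := Ch_step r D w (t-1) e e 0 (by omega) le_rfl he2 (Ch_base r D w e he2)
      rw [he3] at this
      rw [Nat.sub_zero, range_zero, sum_empty]
      exact this
    | succ m ih =>
      intro hm
      have ih' := ih (by omega)
      have h1 := Ch_step r D w (t - 1 - (m+1)) (t - 1 - m) e _ (by omega) (by omega) he2 ih'
      have h2 : Ioc (t - 1 - (m+1)) (t - 1 - m) = {t - 1 - m} := by
        ext x; rw [mem_Ioc, mem_singleton]; omega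
      rw [h2, sum_singleton] at h1
      rw [sum_range_succ]
      have h3 : ∀ a b c : ℝ, a + (b + c) = c + (a + b) := fun a b c => by ring
      rw [h3]
      exact h1
  have hchq := Ch_opt r D w hopt q e _ (by
    have := hch n1 le_rfl
    rwa [show t - 1 - n1 = q by omega] at this)
  have hC0 : ∑ k ∈ Ioc (t-1) e, pp (dl r w l k) = -(((e:ℝ) - t) + 1) := by
    have h1 : ∑ k ∈ Ioc (t-1) e, pp (dl r w l k) = ∑ k ∈ Ioc (t-1) e, (-1:ℝ) := by
      refine sum_congr rfl fun k hk => ?_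
      rw [mem_Ioc] at hk
      exact hlate k (by omega) hk.2
    rw [h1, sum_const, Nat.card_Ioc, nsmul_eq_mul, Nat.cast_sub (by omega), Nat.cast_sub (by omega)]
    push_cast; ring
  have hpmsplit : ∑ k ∈ Ioc q e, pm (dl r w (w q) k) =
      ∑ k ∈ Ioc q t, pm (dl r w (w q) k) + ∑ k ∈ Ioc t e, pm (dl r w (w q) k) := by
    rw [sum_Ioc_consecutive _ hqt.le he1]
  have hpmlate : -((e:ℝ) - t) ≤ ∑ k ∈ Ioc t e, pm (dl r w (w q) k) := by
    have h1 : ∑ k ∈ Ioc t e, (-1:ℝ) ≤ ∑ k ∈ Ioc t e, pm (dl r w (w q) k) :=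
      sum_le_sum fun k _ => neg_one_le_pm _
    rw [sum_const, Nat.card_Ioc, nsmul_eq_mul, Nat.cast_sub he1] at h1
    linarith
  rw [hC0, hpmsplit] at hchq
  rw [sum_reflect _ q t hqt.le, show t - q = n1 + 1 by omega] at hchq
  -- values on the window
  have hjm : ∀ m, m ≤ n1 → dl r w (w q) (t - m) = g + m * σ := by
    intro m hm
    have h1 := dl_noplace r w (w q) (t - m) m (fun x h3 h4 h5 => by
      have h6 := hwin x (by omega) (by omega)
      rw [h5] at h6
      exact hqX h6)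
    rw [show t - m + m = t by omega, hY _ hqX] at h1
    rw [hg, hj, h1]; ring
  -- the size of `X`
  set k := X.card with hk
  have hk0 : 0 < k := card_pos.2 ⟨l, hl⟩
  have hkR : (0:ℝ) < k := by exact_mod_cast hk0
  have hσ0 : 0 ≤ σ := hY _ hqX ▸ hr (w q)
  have hkρ : (k:ℝ) * ρ ≤ 1 := by
    rw [← hrs, ← sum_add_sum_compl X]
    rw [sum_congr rfl hX, sum_const, nsmul_eq_mul]
    have : 0 ≤ ∑ i ∈ Xᶜ, r i := sum_nonneg fun i _ => hr i
    linarith
  -- counts on the window
  have hcnt : ∀ m, 1 ≤ m → m ≤ n1 → cn w (w (t - m)) (t - m) + m / k ≤ cn w l t := by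
    intro m hm1 hm2
    have hbX : w (t - m) ∈ X := hwin _ (by omega) (by omega)
    have h1 : k * cn w (w (t-m)) (t-m) ≤ ∑ i ∈ X, cn w i (t-m) := by
      have : ∑ i ∈ X, cn w (w (t-m)) (t-m) ≤ ∑ i ∈ X, cn w i (t-m) := by
        refine sum_le_sum fun i hi => ?_
        by_cases hib : i = w (t-m)
        · rw [hib]
        · have h3 := hbalX (w (t-m)) hbX i hi (t-m+1) (by omega)
          rw [cn_succ, cn_succ, if_pos rfl, if_neg (fun h => hib h.symm)] at h3
          omega
      rwa [sum_const, smul_eq_mul] at this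
    have h2 : ∑ i ∈ X, cn w i (t-m) + m = ∑ i ∈ X, cn w i t := by
      have h3 := sum_B X w (t-m)
      have h4 := sum_B X w t
      have h5 : ns X w t = ns X w (t-m) :=
        ns_const X w (by omega) (fun x h6 h7 => hwin x (by omega) h7)
      omega
    have h3 : ∑ i ∈ X, cn w i t ≤ k * cn w l t + (k - 1) := by
      rw [← add_sum_erase X _ hl]
      have : ∑ x ∈ X.erase l, cn w x t ≤ ∑ x ∈ X.erase l, (cn w l t + 1) :=
        sum_le_sum fun i hi => hbalX i (mem_of_mem_erase hi) l hl t htD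
      rw [sum_const, card_erase_of_mem hl, smul_eq_mul, ← hk] at this
      obtain ⟨k', hk'⟩ : ∃ k', k = k' + 1 := ⟨k - 1, by omega⟩
      rw [hk'] at this ⊢
      simp only [Nat.add_sub_cancel] at this ⊢
      nlinarith
    have h4 := Nat.mul_div_le m k
    have h5 : k * (cn w (w (t-m)) (t-m) + m / k) < k * (cn w l t + 1) := by
      rw [mul_add, mul_add]
      omega
    have := lt_of_mul_lt_mul_left h5 (Nat.zero_le k)
    omega
  have hpp : ∀ m, 1 ≤ m → m ≤ n1 → pp (dl r w (w (t - m)) (t - m)) ≤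
      -1 - 2 * ((m / k : ℕ) : ℝ) + 2 * m * ρ := by
    intro m hm1 hm2
    have h1 := pp_le _ (hf (t-m) (by omega) (w (t-m)))
    have h2 : (cn w (w (t-m)) (t-m) : ℝ) + ((m / k : ℕ) : ℝ) ≤ cn w l t := by
      exact_mod_cast hcnt m hm1 hm2
    have h3 := dl_cn r w (w (t-m)) (t-m)
    have h4 := dl_cn r w l t
    have h5 : w (t-m) ∈ X := hwin _ (by omega) (by omega)
    rw [hX _ h5, Nat.cast_sub (by omega)] at h3
    rw [hX l hl] at h4
    nlinarith
  have hRHS : -1 + ∑ i ∈ range n1, pp (dl r w (w (t - 1 - i)) (t - 1 - i)) ≤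
      ∑ m ∈ range (n1 + 1), (-1 - 2 * ((m / k : ℕ) : ℝ) + 2 * m * ρ) := by
    rw [sum_range_succ' (fun m => (-1 - 2 * ((m / k : ℕ) : ℝ) + 2 * (m:ℝ) * ρ))]
    have h1 : ∑ i ∈ range n1, pp (dl r w (w (t - 1 - i)) (t - 1 - i)) ≤
        ∑ i ∈ range n1, (-1 - 2 * (((i + 1) / k : ℕ) : ℝ) + 2 * ((i + 1 : ℕ) : ℝ) * ρ) := by
      refine sum_le_sum fun i hi => ?_
      rw [mem_range] at hi
      have := hpp (i+1) (by omega) (by omega)
      rwa [show t - (i+1) = t - 1 - i by omega] at this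
    simp only [Nat.zero_div, Nat.cast_zero]
    linarith
  set L : ℕ := n1 + 1 with hL
  have hL0 : (0:ℝ) < L := by rw [hL]; positivity
  have hsumR : ∑ m ∈ range L, (-1 - 2 * ((m / k : ℕ) : ℝ) + 2 * (m:ℝ) * ρ) =
      -(L + 2 * ∑ m ∈ range L, ((m / k : ℕ) : ℝ)) + L * (L - 1) * ρ := by
    have h1 : ∑ m ∈ range L, (2 * (m:ℝ) * ρ) = L * (L - 1) * ρ := by
      rw [hL]
      have := sum_lin 0 (-ρ) (n1 + 1)
      have h2 : ∑ m ∈ range (n1 + 1), (2 * (m:ℝ) * ρ) = ∑ j ∈ range (n1 + 1), (0 - 2 * (j:ℝ) * (-ρ)) :=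
        sum_congr rfl fun m _ => by ring
      rw [h2, this]; ring
    rw [sum_add_distrib, sum_sub_distrib, h1, ← mul_sum]
    simp
    ring
  have hsumL : ∑ m ∈ range L, (2 * (g + (m:ℝ) * σ) - 1) = L * (2 * g - 1) + L * (L - 1) * σ := by
    have := sum_lin (2 * g - 1) (-σ) L
    have h2 : ∑ m ∈ range L, (2 * (g + (m:ℝ) * σ) - 1) = ∑ j ∈ range L, ((2 * g - 1) - 2 * (j:ℝ) * (-σ)) :=
      sum_congr rfl fun m _ => by ring
    rw [h2, this]; ring
  have hmain : ∑ m ∈ range L, pm (dl r w (w q) (t - m)) ≤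
      -(L + 2 * ∑ m ∈ range L, ((m / k : ℕ) : ℝ)) + L * (L - 1) * ρ := by
    rw [← hsumR]
    linarith
  have hsq := sum_div_le k L hk0
  have hneg : ∑ m ∈ range L, pm (dl r w (w q) (t - m)) ≤ -(L / k) := by
    refine le_trans hmain ?_
    have h1 : -(L + 2 * ∑ m ∈ range L, ((m / k : ℕ) : ℝ)) ≤ -((L:ℝ) ^ 2 / k) := by
      rw [neg_le_neg_iff, div_le_iff₀ hkR, mul_comm _ (k:ℝ)]
      exact hsq
    have hL1 : (1:ℝ) ≤ L := by rw [hL]; push_cast; linarith [Nat.cast_nonneg (α := ℝ) n1]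
    have h2 : (L:ℝ) * (L - 1) * ρ ≤ L * (L - 1) / k := by
      rw [le_div_iff₀ hkR]
      have : (0:ℝ) ≤ L * (L - 1) := mul_nonneg hL0.le (by linarith)
      have := mul_le_mul_of_nonneg_left hkρ this
      linarith
    have h3 : -((L:ℝ) ^ 2 / k) + L * (L - 1) / k = -(L / k) := by ring
    linarith
  have hpmL : ∀ m ∈ range L, pm (dl r w (w q) (t - m)) = pm (g + m * σ) := by
    intro m hm
    rw [mem_range] at hm
    rw [hjm m (by omega)]
  rw [sum_congr rfl hpmL] at hneg hmain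
  have hLk : 0 < (L:ℝ) / k := by positivity
  have htop : g + n1 * σ < 1 := by
    by_contra hc
    rw [not_lt] at hc
    have h1 : 0 ≤ ∑ m ∈ range L, pm (g + (m:ℝ) * σ) + ∑ m ∈ range L, pm (g + (m:ℝ) * σ) := by
      nth_rewrite 2 [← sum_range_reflect]
      rw [← sum_add_distrib]
      apply sum_nonneg
      intro m hm
      rw [mem_range] at hm
      have h2 : ((L - 1 - m : ℕ) : ℝ) = n1 - m := by
        rw [show L - 1 - m = n1 - m by omega, Nat.cast_sub (by omega)]
      have hm0 : (0:ℝ) ≤ m := Nat.cast_nonneg m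
      have hmn : (m:ℝ) ≤ n1 := by exact_mod_cast (by omega : m ≤ n1)
      apply pm_add
      · have := mul_nonneg hm0 hσ0; linarith
      · rw [h2]
        have := mul_nonneg (show (0:ℝ) ≤ n1 - m by linarith) hσ0; linarith
      · rw [h2]; linarith
    linarith
  have hpmeq : ∑ m ∈ range L, pm (g + (m:ℝ) * σ) = L * (2 * g - 1) + L * (L - 1) * σ := by
    rw [← hsumL]
    refine sum_congr rfl fun m hm => ?_
    rw [mem_range] at hm
    have hm0 : (0:ℝ) ≤ m := Nat.cast_nonneg m
    have hmn : (m:ℝ) ≤ n1 := by exact_mod_cast (by omega : m ≤ n1)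
    have h1 := mul_nonneg hm0 hσ0
    have h2 := mul_le_mul_of_nonneg_right hmn hσ0
    rw [pm_eq _ (by linarith) (by linarith)]
  rw [hpmeq] at hneg hmain
  have hL1 : (1:ℝ) ≤ L := by rw [hL]; push_cast; linarith [Nat.cast_nonneg (α := ℝ) n1]
  constructor
  · -- `σ < ρ`
    have h1 : 0 ≤ ∑ m ∈ range L, ((m / k : ℕ) : ℝ) := sum_nonneg fun _ _ => Nat.cast_nonneg _
    have h2 : (L:ℝ) * (2 * g) ≤ L * ((L - 1) * (ρ - σ)) := by nlinarith
    have h3 : 2 * g ≤ (L - 1) * (ρ - σ) := le_of_mul_le_mul_left h2 hL0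
    by_contra hc
    rw [not_lt] at hc
    have : (L - 1) * (ρ - σ) ≤ 0 := mul_nonpos_of_nonneg_of_nonpos (by linarith) (by linarith)
    linarith
  · -- the numerical consequence
    have h1 : (L:ℝ) * (2 * g) ≤ L * (1 - 1 / k) := by
      have h2 : (0:ℝ) ≤ L * (L - 1) * σ := mul_nonneg (mul_nonneg hL0.le (by linarith)) hσ0
      have h3 : (L:ℝ) * (1 - 1 / k) = L - L / k := by ring
      rw [h3]
      nlinarith
    have h2 : 2 * g ≤ 1 - 1 / k := le_of_mul_le_mul_left h1 hL0
    have h3 : 2 < (Xᶜ.card : ℝ) * (1 - 1 / k) := by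
      have := mul_le_mul_of_nonneg_left h2 (Nat.cast_nonneg (α := ℝ) Xᶜ.card)
      linarith
    have h4 : 2 * (k:ℝ) < (Xᶜ.card : ℝ) * (k - 1) := by
      have := mul_lt_mul_of_pos_right h3 hkR
      have e1 : (Xᶜ.card : ℝ) * (1 - 1 / k) * k = Xᶜ.card * (k - 1) := by field_simp
      linarith
    have h5 : 2 * (k:ℝ) + Xᶜ.card < Xᶜ.card * k := by linarith
    exact_mod_cast h5

end Pool.Agent.JIT
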