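import Pool.Agent.JIT.Two

namespace Pool.Agent.JIT

open Finset

section

variable {ι : Type*} [Fintype ι] [DecidableEq ι]

/-- sum of the squares of all counts -/
def N2 (D : ℕ) (w : ℕ → ι) : ℕ := ∑ k ∈ range D, ∑ i, (cn w i (k + 1)) ^ 2

theorem pp_eq_pm (x : ℝ) : pp x = pm (x + 1) := by
  unfold pp pm; rw [add_sub_cancel_right]

theorem exists_balanced (r : ι → ℝ) (D : ℕ) (w0 : ℕ → ι) (hopt : Opt r D w0)
    (hD : ∀ i, dl r w0 i D = 0) : ∃ w : ℕ → ι, Opt r D w ∧ (∀ i, c w i D = c w0 i D) ∧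
      ∀ i j, r i = r j → ∀ k, k ≤ D → cn w i k ≤ cn w j k + 1 := by
  classical
  have hex : ∃ m : ℕ, ∃ w : ℕ → ι, (Opt r D w ∧ ∀ i, c w i D = c w0 i D) ∧ N2 D w = m :=
    ⟨N2 D w0, w0, ⟨hopt, fun _ => rfl⟩, rfl⟩
  obtain ⟨w, ⟨hw1, hw2⟩, hw3⟩ := Nat.find_spec hex
  have hmin : ∀ w' : ℕ → ι, Opt r D w' → (∀ i, c w' i D = c w0 i D) → N2 D w ≤ N2 D w' := by
    intro w' h1 h2
    rw [hw3]
    exact Nat.find_min' hex ⟨w', ⟨h1, h2⟩, rfl⟩
  refine ⟨w, hw1, hw2, fun i j hij k hk => ?_⟩
  by_contra hcon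
  rw [not_le] at hcon
  have hDw := dl_D_of_c r D w0 w hw2 hD
  have hfin : cn w i D = cn w j D := by
    have h1 := hDw i; have h2 := hDw j
    rw [dl_cn] at h1 h2
    rw [hij] at h1
    have : (cn w i D : ℝ) = cn w j D := by linarith
    exact_mod_cast this
  have hne : i ≠ j := by rintro rfl; omega
  have hmono := cn_mono w i hk
  obtain ⟨p, hp1, hp2, hp3⟩ := exists_last' w i k (by omega)
  obtain ⟨q, hq1, hq2, hq3, hq4⟩ := exists_first w j k D (by omega) hk
  have hgap : ∀ x, p < x → x ≤ q → cn w j x + 2 ≤ cn w i x := by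
    intro x hx1 hx2
    rcases le_total x k with h3 | h3
    · have e1 : cn w i k = cn w i x := cn_const w i h3 (fun y h4 h5 => hp3 y (by omega) h5)
      have e2 := cn_mono w j h3
      omega
    · have e1 : cn w j x = cn w j k := cn_const w j h3 (fun y h4 h5 => hq4 y h4 (by omega))
      have e2 := cn_mono w i h3
      omega
  set w' := sw w p q with hw'
  have hc' : ∀ l, c w' l D = c w l D := by
    intro l
    rw [hw', c_sw w l p q (by omega) D, if_neg (by omega), add_zero]
  have hA : AA r D w' ≤ AA r D w := by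
    have h1 := AA_sw r D w p q (by omega) hq2
    have h2 : ∑ x ∈ Ioc p q, (pp (dl r w (w q) x) - pm (dl r w (w p) x)) ≤ 0 := by
      apply sum_nonpos
      intro x hx
      rw [mem_Ioc] at hx
      rw [hp2, hq3, pp_eq_pm]
      have e1 : (cn w j x : ℝ) + 2 ≤ cn w i x := by exact_mod_cast hgap x hx.1 hx.2
      have e2 := dl_cn r w j x
      have e3 := dl_cn r w i x
      rw [hij] at e3
      have := pm_mono (show dl r w j x + 1 ≤ dl r w i x by linarith)
      linarith
    linarith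
  have hopt' : Opt r D w' := by
    intro v hv
    refine le_trans hA (hw1 v fun l => ?_)
    rw [hv l, hc' l]
  have h1 := hmin w' hopt' (fun l => by rw [hc' l, hw2 l])
  -- the sum of squares decreases
  have hcast : ∀ v : ℕ → ι, (N2 D v : ℝ) = ∑ k ∈ range D, ∑ i, (c v i (k+1)) ^ 2 := by
    intro v
    unfold N2
    push_cast
    simp only [c_eq_cn]
  have h2 : (N2 D w' : ℝ) < N2 D w := by
    rw [hcast, hcast]
    have hterm : ∀ x, ∑ l, (c w' l x) ^ 2 = ∑ l, (c w l x) ^ 2 +
        (if p < x ∧ x ≤ q then 2 * (c w j x - c w i x) + 2 else 0) := by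
      intro x
      have e1 : ∀ l, c w' l x = c w l x +
          (if p < x ∧ x ≤ q then ((if j = l then 1 else 0) - (if i = l then 1 else 0)) else 0) := by
        intro l
        rw [hw', c_sw w l p q (by omega) x, hp2, hq3]
      simp only [e1]
      by_cases h : p < x ∧ x ≤ q
      · simp only [if_pos h]
        have e2 : ∀ l, (c w l x + ((if j = l then (1:ℝ) else 0) - (if i = l then 1 else 0))) ^ 2 =
            (c w l x) ^ 2 + ((if j = l then (2 * c w l x + 1) else 0) +
              (if i = l then (-(2 * c w l x) + 1) else 0)) := by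
          intro l
          by_cases h3 : j = l
          · have h4 : i ≠ l := fun h5 => hne (h5.trans h3.symm)
            rw [if_pos h3, if_neg h4, if_pos h3, if_neg h4]; ring
          · by_cases h4 : i = l
            · rw [if_neg h3, if_pos h4, if_neg h3, if_pos h4]; ring
            · rw [if_neg h3, if_neg h4, if_neg h3, if_neg h4]; ring
        simp only [e2, sum_add_distrib, sum_ite_eq, mem_univ, if_true]
        ring
      · simp only [if_neg h, add_zero]
    simp only [hterm]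
    rw [sum_add_distrib]
    have hneg : ∑ x ∈ range D, (if p < x + 1 ∧ x + 1 ≤ q then
        2 * (c w j (x+1) - c w i (x+1)) + 2 else 0) < 0 := by
      apply sum_neg'
      · intro x _
        by_cases h : p < x + 1 ∧ x + 1 ≤ q
        · rw [if_pos h]
          have e1 : (cn w j (x+1) : ℝ) + 2 ≤ cn w i (x+1) := by
            exact_mod_cast hgap (x+1) h.1 h.2
          rw [c_eq_cn, c_eq_cn]; linarith
        · rw [if_neg h]
      · refine ⟨p, mem_range.2 (by omega), ?_⟩
        rw [if_pos (by omega)]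
        have e1 : (cn w j (p+1) : ℝ) + 2 ≤ cn w i (p+1) := by
          exact_mod_cast hgap (p+1) (by omega) (by omega)
        rw [c_eq_cn, c_eq_cn]; linarith
    linarith
  have h3 : N2 D w' < N2 D w := by exact_mod_cast h2
  omega

theorem two_neg (r : ι → ℝ) (w : ℕ → ι) (D : ℕ) (hopt : Opt r D w) (hD : ∀ i, dl r w i D = 0)
    (hr : ∀ i, 0 ≤ r i) (hrs : ∑ i, r i = 1)
    (hbal : ∀ i j, r i = r j → ∀ k, k ≤ D → cn w i k ≤ cn w j k + 1)
    (B : Finset ι) (α β : ℝ) (hα : ∀ i ∈ B, r i = α) (hβ : ∀ i, i ∉ B → r i = β) (hαβ : β < α)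
    (hKs : Bᶜ.card * B.card ≤ 2 * B.card + Bᶜ.card) :
    ∀ k, k ≤ D → ∀ i, -1 ≤ dl r w i k := by
  classical
  by_contra hcon
  push Not at hcon
  have hspec := Nat.find_spec hcon
  have hmin := fun x (hx : x < Nat.find hcon) => Nat.find_min hcon hx
  set t := Nat.find hcon with ht
  obtain ⟨htD, l, d1⟩ := hspec
  have hf : ∀ k, k < t → ∀ i, -1 ≤ dl r w i k := by
    intro k hk i
    by_contra hc
    exact hmin k hk ⟨by omega, i, by linarith⟩
  by_cases hl : l ∈ B
  · have h := two_core r w D hopt hD hr hrs hbal B α β hα hβ t htD l hl d1 hf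
    omega
  · have h := two_core r w D hopt hD hr hrs hbal Bᶜ β α (fun i hi => hβ i (mem_compl.1 hi))
      (fun i hi => hα i (by simpa using hi)) t htD l (mem_compl.2 hl) d1 hf
    linarith [h.1]

theorem two_free (r : ι → ℝ) (w : ℕ → ι) (D : ℕ) (hopt : Opt r D w) (hD : ∀ i, dl r w i D = 0)
    (hr : ∀ i, 0 ≤ r i) (hrs : ∑ i, r i = 1)
    (hbal : ∀ i j, r i = r j → ∀ k, k ≤ D → cn w i k ≤ cn w j k + 1)
    (B : Finset ι) (α β : ℝ) (hα : ∀ i ∈ B, r i = α) (hβ : ∀ i, i ∉ B → r i = β) (hαβ : β < α)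
    (hKs : Bᶜ.card * B.card ≤ 2 * B.card + Bᶜ.card) :
    ∀ k, k ≤ D → ∀ i, |dl r w i k| ≤ 1 := by
  intro k hk i
  have h1 := two_neg r w D hopt hD hr hrs hbal B α β hα hβ hαβ hKs k hk i
  have hD' : ∀ i, dl r (rev D w) i D = 0 := by
    intro i; rw [dl_rev r D w i D le_rfl (hD i)]; simp [dl_zero]
  have hcr : ∀ i, ∀ k, k ≤ D → cn (rev D w) i k + cn w i (D - k) = cn w i D := by
    intro i k hk
    have := c_rev D w i k hk
    rw [c_eq_cn, c_eq_cn, c_eq_cn] at this
    have h2 : ((cn (rev D w) i k + cn w i (D - k) : ℕ) : ℝ) = cn w i D := by push_cast; linarith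
    exact_mod_cast h2
  have hbal' : ∀ i j, r i = r j → ∀ k, k ≤ D → cn (rev D w) i k ≤ cn (rev D w) j k + 1 := by
    intro i j hij k hk
    have e1 := hcr i k hk
    have e2 := hcr j k hk
    have e3 := hbal j i hij.symm (D - k) (by omega)
    have e4 : cn w i D = cn w j D := by
      have h1 := hD i; have h2 := hD j
      rw [dl_cn] at h1 h2
      rw [hij] at h1
      have : (cn w i D : ℝ) = cn w j D := by linarith
      exact_mod_cast this
    omega
  have h2 := two_neg r (rev D w) D (Opt_rev r D w hD hopt) hD' hr hrs hbal' B α β hα hβ hαβ hKs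
    (D - k) (by omega) i
  rw [dl_rev r D w i (D-k) (by omega) (hD i), show D - (D - k) = k by omega] at h2
  rw [abs_le]; constructor <;> linarith

end

variable {n : ℕ}

theorem oneness_of_word (d : Fin n → ℕ) (hn : 0 < n) (w : ℕ → Fin n)
    (hw : ∀ i, cn w i (∑ i, d i) = d i) (hopt : Opt (rt d) (∑ i, d i) w)
    (hΩ : ∀ k, k ≤ ∑ i, d i → ∀ i, |dl (rt d) w i k| ≤ 1) : Oneness d := by
  set a : Fin n := ⟨0, hn⟩
  refine ⟨res (∑ i, d i) w, ⟨?_, ?_⟩, ?_⟩
  · rw [isSeq_iff d _ a]
    intro i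
    rw [cn_congr _ w i _ (fun p hp => ext_res _ w a p hp)]
    exact hw i
  · intro s' hs'
    rw [totalDev_eq d _ a, totalDev_eq d s' a, AA_congr _ _ _ w (fun p hp => ext_res _ w a p hp)]
    apply hopt
    intro i
    rw [c_eq_cn, c_eq_cn, hw i, (isSeq_iff d s' a).1 hs' i]
  · intro i k hk1 hk2
    rw [dev_eq d _ a i k hk2]
    have : dl (rt d) (ext (res (∑ i, d i) w) a) i k = dl (rt d) w i k := by
      rw [dl_cn, dl_cn, cn_congr _ w i k (fun p hp => ext_res _ w a p (by omega))]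
    rw [this]
    exact hΩ k hk2 i

/-- two demands `a > b` with multiplicities `K` and `s`, `sK ≤ 2K + s`: oneness -/
theorem two_ok (d : Fin n → ℕ) (a b K s : ℕ) (hb : 0 < b) (hab : b < a)
    (hd : ∀ i, d i = a ∨ d i = b) (hK : (univ.filter (fun i => d i = a)).card = K)
    (hs : (univ.filter (fun i => d i = b)).card = s) (hKs : s * K ≤ 2 * K + s) : Oneness d := by
  obtain ⟨s0, hs0⟩ := exists_isOptA d
  rcases Nat.eq_zero_or_pos n with hn | hn
  · subst hn
    exact ⟨s0, hs0, fun i => i.elim0⟩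
  set B : Finset (Fin n) := univ.filter (fun i => d i = a) with hB
  have hBc : Bᶜ = univ.filter (fun i => d i = b) := by
    ext i
    simp only [hB, mem_compl, mem_filter, mem_univ, true_and]
    constructor
    · intro h; exact (hd i).resolve_left h
    · intro h h'; omega
  have hDpos : 0 < ∑ i, d i := by
    apply sum_pos
    · intro i _; rcases hd i with h | h <;> omega
    · exact ⟨⟨0, hn⟩, mem_univ _⟩
  have hDR : (0:ℝ) < (∑ i, d i : ℕ) := by exact_mod_cast hDpos
  set a0 : Fin n := ⟨0, hn⟩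
  have hcnt0 := (isSeq_iff d s0 a0).1 hs0.1
  obtain ⟨w, h1, h2, h3⟩ := exists_balanced (rt d) (∑ i, d i) (ext s0 a0)
    (opt_of_isOptA d s0 a0 hs0) (dlD d hDpos _ hcnt0)
  have hcnt : ∀ i, cn w i (∑ i, d i) = d i := by
    intro i
    have := h2 i
    rw [c_eq_cn, c_eq_cn, hcnt0 i] at this
    exact_mod_cast this
  apply oneness_of_word d hn w hcnt h1
  refine two_free (rt d) w (∑ i, d i) h1 (dlD d hDpos _ hcnt) (rt_nonneg d) (rt_sum d hDpos) h3 B
    ((a:ℝ) / (∑ i, d i : ℕ)) ((b:ℝ) / (∑ i, d i : ℕ)) ?_ ?_ ?_ ?_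
  · intro i hi; unfold rt; rw [(mem_filter.1 hi).2]
  · intro i hi
    have : d i = b := by
      have := mem_compl.2 hi
      rw [hBc] at this
      exact (mem_filter.1 this).2
    unfold rt; rw [this]
  · apply div_lt_div_of_pos_right _ hDR
    exact_mod_cast hab
  · rw [hBc, hs, hK]; exact hKs

end Pool.Agent.JIT
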